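import Pool.Agent.Y993.LL.Low
import Pool.Agent.H974R2.Block

/-!
A block contains a long loop with positive probability.
-/

set_option autoImplicit false

namespace Pool.Agent.Y993.LL

open H974 Finset H342P H984P MeasureTheory

/-- No open crossing of the annulus around `z`. -/
def BlkZ (z : Vtx) (R1 R2 : ℤ) (F : Finset Edg) : Prop :=
  ¬ (LRc (z.1 + R1) (z.1 + R2) (z.2 - R2) (z.2 + R2) F ∨
      LRc (z.1 - R2) (z.1 - R1) (z.2 - R2) (z.2 + R2) F) ∧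
    ¬ (TBc (z.1 - R2) (z.1 + R2) (z.2 + R1) (z.2 + R2) F ∨
      TBc (z.1 - R2) (z.1 + R2) (z.2 - R2) (z.2 - R1) F)

theorem not_BlkZ {G : Set Edg} {F : Finset Edg} {z : Vtx} {R1 R2 : ℤ} (h2 : R1 < R2)
    (hGF : ∀ e ∈ G, e ∈ bx z R2 → e ∈ F)
    {u v : Vtx} (hu : inR (z.1 - R1) (z.1 + R1) (z.2 - R1) (z.2 + R1) u)
    (h : Reach G u v)
    (hv : v.1 ≤ z.1 - R2 ∨ z.1 + R2 ≤ v.1 ∨ v.2 ≤ z.2 - R2 ∨ z.2 + R2 ≤ v.2) :
    ¬ BlkZ z R1 R2 F := by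
  unfold inR at hu
  obtain ⟨w, k1, k2, k3'⟩ := first_exit (a := z.1 - R2) (b := z.1 + R2) (c := z.2 - R2)
    (d := z.2 + R2) (by unfold inR; omega) h hv
  have k3 : Reach ((↑F : Set Edg) ∩ ↑(bx z R2)) u w := k3'.mono (by
    rintro e ⟨h4, h5⟩
    exact ⟨hGF e h4 h5, h5⟩)
  rintro ⟨hb1, hb2⟩
  unfold bx at k3
  rcases k2 with k2 | k2 | k2 | k2
  · apply hb1
    right
    obtain ⟨y1, y2, m1, m2, m3, -⟩ := sub_LR (a := z.1 - R2) (b := z.1 - R1) (c := z.2 - R2)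
      (d := z.2 + R2) (by omega)
      (by rintro x y ⟨-, h⟩ _ _; simp only [mem_coe, mem_RE_true] at h; omega)
      (by rintro x y ⟨-, h⟩ _ _; simp only [mem_coe, mem_RE_false] at h; omega)
      k3.symm k2.le (show z.1 - R1 ≤ u.1 by omega)
    exact ⟨y1, y2, m1, m2, m3.mono (by rintro e ⟨⟨h4, -⟩, h5⟩; exact ⟨h4, h5⟩)⟩
  · apply hb1
    left
    obtain ⟨y1, y2, m1, m2, m3, -⟩ := sub_LR (a := z.1 + R1) (b := z.1 + R2) (c := z.2 - R2)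
      (d := z.2 + R2) (by omega)
      (by rintro x y ⟨-, h⟩ _ _; simp only [mem_coe, mem_RE_true] at h; omega)
      (by rintro x y ⟨-, h⟩ _ _; simp only [mem_coe, mem_RE_false] at h; omega)
      k3 (show u.1 ≤ z.1 + R1 by omega) k2.ge
    exact ⟨y1, y2, m1, m2, m3.mono (by rintro e ⟨⟨h4, -⟩, h5⟩; exact ⟨h4, h5⟩)⟩
  · apply hb2
    right
    obtain ⟨y1, y2, m1, m2, m3, -⟩ := sub_TB (a := z.1 - R2) (b := z.1 + R2) (c := z.2 - R2)
      (d := z.2 - R1) (by omega)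
      (by rintro x y ⟨-, h⟩ _ _; simp only [mem_coe, mem_RE_false] at h; omega)
      (by rintro x y ⟨-, h⟩ _ _; simp only [mem_coe, mem_RE_true] at h; omega)
      k3.symm k2.le (show z.2 - R1 ≤ u.2 by omega)
    exact ⟨y1, y2, m1, m2, m3.mono (by rintro e ⟨⟨h4, -⟩, h5⟩; exact ⟨h4, h5⟩)⟩
  · apply hb2
    left
    obtain ⟨y1, y2, m1, m2, m3, -⟩ := sub_TB (a := z.1 - R2) (b := z.1 + R2) (c := z.2 + R1)
      (d := z.2 + R2) (by omega)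
      (by rintro x y ⟨-, h⟩ _ _; simp only [mem_coe, mem_RE_false] at h; omega)
      (by rintro x y ⟨-, h⟩ _ _; simp only [mem_coe, mem_RE_true] at h; omega)
      k3 (show u.2 ≤ z.2 + R1 by omega) k2.ge
    exact ⟨y1, y2, m1, m2, m3.mono (by rintro e ⟨⟨h4, -⟩, h5⟩; exact ⟨h4, h5⟩)⟩

/-- the annulus of edges -/
noncomputable def anZ (z : Vtx) (R1 R2 : ℤ) : Finset Edg := bx z R2 \ bx z R1

theorem anZ_sub (z : Vtx) {R1 R2 : ℤ} (h0 : 0 ≤ R1) (h : R1 < R2) :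
    LRE (z.1 + R1) (z.1 + R2) (z.2 - R2) (z.2 + R2) ⊆ anZ z R1 R2 ∧
    LRE (z.1 - R2) (z.1 - R1) (z.2 - R2) (z.2 + R2) ⊆ anZ z R1 R2 ∧
    TBE (z.1 - R2) (z.1 + R2) (z.2 + R1) (z.2 + R2) ⊆ anZ z R1 R2 ∧
    TBE (z.1 - R2) (z.1 + R2) (z.2 - R2) (z.2 - R1) ⊆ anZ z R1 R2 := by
  unfold anZ bx
  refine ⟨?_, ?_, ?_, ?_⟩
  · rintro ⟨x, y, _ | _⟩ h8
    · simp only [mem_LRE_false, Finset.mem_sdiff, mem_RE_false] at h8 ⊢; omega
    · simp only [mem_LRE_true, Finset.mem_sdiff, mem_RE_true] at h8 ⊢; omega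
  · rintro ⟨x, y, _ | _⟩ h8
    · simp only [mem_LRE_false, Finset.mem_sdiff, mem_RE_false] at h8 ⊢; omega
    · simp only [mem_LRE_true, Finset.mem_sdiff, mem_RE_true] at h8 ⊢; omega
  · rintro ⟨x, y, _ | _⟩ h8
    · simp only [mem_TBE_false, Finset.mem_sdiff, mem_RE_false] at h8 ⊢; omega
    · simp only [mem_TBE_true, Finset.mem_sdiff, mem_RE_true] at h8 ⊢; omega
  · rintro ⟨x, y, _ | _⟩ h8
    · simp only [mem_TBE_false, Finset.mem_sdiff, mem_RE_false] at h8 ⊢; omega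
    · simp only [mem_TBE_true, Finset.mem_sdiff, mem_RE_true] at h8 ⊢; omega

theorem BlkZ_local {z : Vtx} {R1 R2 : ℤ} (h0 : 0 ≤ R1) (h : R1 < R2) {S : Finset Edg}
    (hS : anZ z R1 R2 ⊆ S) (F : Finset Edg) : BlkZ z R1 R2 F ↔ BlkZ z R1 R2 (F ∩ S) := by
  obtain ⟨h1, h2, h3, h4⟩ := anZ_sub z h0 h
  unfold BlkZ
  rw [LRc_local (F := F) (h1.trans hS), LRc_local (F := F) (h2.trans hS),
    TBc_local (F := F) (h3.trans hS), TBc_local (F := F) (h4.trans hS)]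

theorem pr_BlkZ {z : Vtx} {m : ℤ} (hm' : 5 ≤ m) {S : Finset Edg} (hS : anZ z m (3 * m) ⊆ S) :
    (1/2 : ℝ)^188 ≤ Pr (fun _ => (1/2 : ℝ)) S (BlkZ z m (3 * m)) := by
  have ok := ok2
  obtain ⟨s1, s2, s3, s4⟩ := anZ_sub z (R1 := m) (R2 := 3 * m) (by omega) (by omega)
  have e1 := pr_LRc (1/2) (s1.trans hS)
  have e2 := pr_LRc (1/2) (s2.trans hS)
  have e3 := pr_TBc (1/2) (s3.trans hS)
  have e4 := pr_TBc (1/2) (s4.trans hS)
  rw [show z.1 + 3 * m - (z.1 + m) = 2 * m by ring,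
    show z.2 + 3 * m - (z.2 - 3 * m) = 6 * m by ring] at e1
  rw [show z.1 - m - (z.1 - 3 * m) = 2 * m by ring,
    show z.2 + 3 * m - (z.2 - 3 * m) = 6 * m by ring] at e2
  rw [show z.2 + 3 * m - (z.2 + m) = 2 * m by ring,
    show z.1 + 3 * m - (z.1 - 3 * m) = 6 * m by ring] at e3
  rw [show z.2 - m - (z.2 - 3 * m) = 2 * m by ring,
    show z.1 + 3 * m - (z.1 - 3 * m) = 6 * m by ring] at e4
  have hdual := hh_dual (q := 1/2) (w := 2 * m) (h := 6 * m) (by omega) (by omega)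
  have hrsw : (1/2:ℝ)^47 ≤ hh (1/2) (6 * m + 1) (2 * m - 1) :=
    rsw (n := m - 1) (by omega) (by omega) (by omega) (by omega)
  have e5 : (1:ℝ) - 1/2 = 1/2 := by norm_num
  rw [e5] at hdual
  have hval : (1/2:ℝ)^47 ≤ 1 - hh (1/2) (2 * m) (6 * m) := by linarith
  have i1 := Pr_harris_dd ok (LRc_incr S (z.1 + m) (z.1 + 3 * m) (z.2 - 3 * m) (z.2 + 3 * m))
    (LRc_incr S (z.1 - 3 * m) (z.1 - m) (z.2 - 3 * m) (z.2 + 3 * m))
  have i2 := Pr_harris_dd ok (TBc_incr S (z.1 - 3 * m) (z.1 + 3 * m) (z.2 + m) (z.2 + 3 * m))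
    (TBc_incr S (z.1 - 3 * m) (z.1 + 3 * m) (z.2 - 3 * m) (z.2 - m))
  rw [e1, e2] at i1
  rw [e3, e4] at i2
  have c1 : IncrE S (fun F => LRc (z.1 + m) (z.1 + 3 * m) (z.2 - 3 * m) (z.2 + 3 * m) F ∨
      LRc (z.1 - 3 * m) (z.1 - m) (z.2 - 3 * m) (z.2 + 3 * m) F) :=
    fun F G hFG _ hF => hF.imp (LRc.mono hFG) (LRc.mono hFG)
  have c2 : IncrE S (fun F => TBc (z.1 - 3 * m) (z.1 + 3 * m) (z.2 + m) (z.2 + 3 * m) F ∨
      TBc (z.1 - 3 * m) (z.1 + 3 * m) (z.2 - 3 * m) (z.2 - m) F) :=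
    fun F G hFG _ hF => hF.imp (TBc.mono hFG) (TBc.mono hFG)
  have i3 := Pr_harris_dd ok c1 c2
  rw [← Pr_not, ← Pr_not] at i3
  have j1 : Pr (fun _ => (1/2:ℝ)) S
      (fun F => ¬ (LRc (z.1 + m) (z.1 + 3 * m) (z.2 - 3 * m) (z.2 + 3 * m) F ∨
      LRc (z.1 - 3 * m) (z.1 - m) (z.2 - 3 * m) (z.2 + 3 * m) F)) =
      Pr (fun _ => (1/2:ℝ)) S
        (fun F => ¬ LRc (z.1 + m) (z.1 + 3 * m) (z.2 - 3 * m) (z.2 + 3 * m) F ∧
      ¬ LRc (z.1 - 3 * m) (z.1 - m) (z.2 - 3 * m) (z.2 + 3 * m) F) :=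
    Pr_congr (fun F _ => not_or)
  have j2 : Pr (fun _ => (1/2:ℝ)) S
      (fun F => ¬ (TBc (z.1 - 3 * m) (z.1 + 3 * m) (z.2 + m) (z.2 + 3 * m) F ∨
      TBc (z.1 - 3 * m) (z.1 + 3 * m) (z.2 - 3 * m) (z.2 - m) F)) =
      Pr (fun _ => (1/2:ℝ)) S
        (fun F => ¬ TBc (z.1 - 3 * m) (z.1 + 3 * m) (z.2 + m) (z.2 + 3 * m) F ∧
      ¬ TBc (z.1 - 3 * m) (z.1 + 3 * m) (z.2 - 3 * m) (z.2 - m) F) :=
    Pr_congr (fun F _ => not_or)
  rw [j1, j2] at i3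
  set w : ℝ := (1/2:ℝ)^47 with hz
  have hz0 : 0 < w := by rw [hz]; positivity
  have k1 : w * w ≤ (1 - hh (1/2) (2 * m) (6 * m)) * (1 - hh (1/2) (2 * m) (6 * m)) :=
    mul_le_mul hval hval hz0.le (hz0.le.trans hval)
  have k2 : (w * w) * (w * w) ≤ _ := mul_le_mul (k1.trans i1) (k1.trans i2) (by positivity)
    ((by positivity : 0 ≤ w * w).trans (k1.trans i1))
  calc (1/2:ℝ)^188 = (w * w) * (w * w) := by rw [hz]; norm_num
    _ ≤ _ := k2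
    _ ≤ _ := i3

/-- The event of the block. -/
def Gd (z : Vtx) (a M : ℕ) (F : Finset Edg) : Prop :=
  (M ≤ nRA z a (↑F) ∧ (CL (z.1 - 14 * a) (z.1 + 14 * a) z.2 a F ∧
    CU (z.1 - 14 * a) (z.1 + 14 * a) z.2 a (↑F))) ∧ BlkZ z (16 * a) (48 * a) F

theorem VV_ctr {z v : Vtx} {a : ℕ} (h : v ∈ ctr z a) :
    VV (z.1 - 14 * a) (z.1 + 14 * a) z.2 a v := by
  rw [mem_ctr'] at h
  unfold VV
  omega

theorem SB_sub_bx {z : Vtx} {a : ℕ} : SB (z.1 - 14 * a) (z.1 + 14 * a) z.2 a ⊆ bx z (16 * a) := by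
  rintro ⟨x, y, _ | _⟩ h
  · simp only [SB, bx, mem_RE_false] at h ⊢; omega
  · simp only [SB, bx, mem_RE_true] at h ⊢; omega

theorem NB_sub_bx {z : Vtx} {a : ℕ} : NB z a ⊆ bx z (16 * a) := by
  rintro ⟨x, y, _ | _⟩ h
  · simp only [NB, bx, mem_RE_false] at h ⊢; omega
  · simp only [NB, bx, mem_RE_true] at h ⊢; omega

theorem nRA_loc {z : Vtx} {a : ℕ} (ha : 1 ≤ a) {S : Finset Edg} (hS : NB z a ⊆ S)
    (F : Finset Edg) : nRA z a (↑F : Set Edg) = nRA z a (↑(F ∩ S) : Set Edg) := by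
  classical
  unfold nRA
  congr 1
  apply Finset.filter_congr
  intro v hv
  rw [Finset.coe_inter]
  exact ra_inter _ _ (by exact_mod_cast (BA_sub_NB ha hv).trans hS)

theorem CL_loc {X1 X2 y0 : ℤ} {a : ℕ} {S : Finset Edg} (hS : SL X1 X2 y0 a ⊆ S)
    (F : Finset Edg) : CL X1 X2 y0 a F ↔ CL X1 X2 y0 a (F ∩ S) := LRc_local hS

theorem CU_loc {X1 X2 y0 : ℤ} {a : ℕ} {S : Finset Edg} (hS : dE (SU X1 X2 y0 a) ⊆ ↑S)
    (F : Finset Edg) : CU X1 X2 y0 a (↑F) ↔ CU X1 X2 y0 a (↑(F ∩ S)) := by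
  have : dE (SU X1 X2 y0 a) \ (↑(F ∩ S) : Set Edg) = dE (SU X1 X2 y0 a) \ ↑F := by
    ext e
    rw [Finset.coe_inter]
    constructor
    · rintro ⟨k1, k2⟩
      exact ⟨k1, fun k3 => k2 ⟨k3, hS k1⟩⟩
    · rintro ⟨k1, k2⟩
      exact ⟨k1, fun k3 => k2 k3.1⟩
  unfold CU
  rw [this]

theorem bx_mono {z : Vtx} {k K : ℤ} (h : k ≤ K) : bx z k ⊆ bx z K :=
  bx_sub (by omega) (by omega) (by omega) (by omega)

/-- The event of the block depends on the edges of the block. -/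
theorem Gd_local {z : Vtx} {a M : ℕ} (ha : 1 ≤ a) (F : Finset Edg) :
    Gd z a M F ↔ Gd z a M (F ∩ bx z (48 * a)) := by
  have h1 : bx z (16 * a) ⊆ bx z (48 * a) := bx_mono (by omega)
  unfold Gd
  rw [nRA_loc ha (NB_sub_bx.trans h1) F, CL_loc (SL_sub.trans (SB_sub_bx.trans h1)) F,
    CU_loc ((dSU_sub ha).trans (Finset.coe_subset.2 (SB_sub_bx.trans h1))) F,
    BlkZ_local (S := bx z (48 * a)) (by omega) (by omega) Finset.sdiff_subset F]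

/-- The block event has positive probability. -/
theorem pr_Gd {c C : ℝ} (hc : 0 < c) (hC : 0 < C) (hL : LowA c (1/4)) (hU : TwoUp C (1/4)) :
    ∃ c' : ℝ, 0 < c' ∧ ∀ (z : Vtx) (a : ℕ) (S : Finset Edg), 1 ≤ a → bx z (48 * a) ⊆ S →
      c' ≤ Pr (fun _ => (1/2:ℝ)) S (Gd z a ⌈c' * (a:ℝ) ^ (7/4:ℝ)⌉₊) := by
  classical
  obtain ⟨c₂, hc₂, hn⟩ := nra_prob (c := c) (C := C) (s := 1/4) (t := 1/4) hc hC (by norm_num)
    (by norm_num) (by norm_num) le_rfl hL hU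
  have hκ := κ0_pos
  refine ⟨min c₂ (κ0 * κ0 * c₂ * (1/2)^188), by positivity, fun z a S ha hS => ?_⟩
  set c' : ℝ := min c₂ (κ0 * κ0 * c₂ * (1/2)^188) with hc'
  have ha' : (1 : ℤ) ≤ a := by exact_mod_cast ha
  have haR : (1:ℝ) ≤ a := by exact_mod_cast ha
  have hY : (0:ℝ) < (a:ℝ) ^ (7/4:ℝ) := Real.rpow_pos_of_pos (by linarith) _
  set M : ℕ := ⌈c' * (a:ℝ) ^ (7/4:ℝ)⌉₊ with hM
  have h1 : bx z (16 * a) ⊆ bx z (48 * a) := bx_mono (by omega)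
  have h16 : bx z (16 * a) ⊆ S := h1.trans hS
  have han : anZ z (16 * a) (48 * a) ⊆ S := Finset.sdiff_subset.trans hS
  set N : Finset Edg → Prop := fun F => M ≤ nRA z a (↑F) with hN
  have key := strip_harris (X1 := z.1 - 14 * a) (X2 := z.1 + 14 * a) (y0 := z.2) ha (by omega)
    (by omega) (SB_sub_bx.trans h16) (N := N) (by
      rintro F G - - h h1
      exact h1.trans (Tr760.nRA_mono fun v hv h3 => h v (VV_ctr hv) h3))
  have h2 : c₂ ≤ Pr (fun _ => (1/2:ℝ)) S N := by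
    have h3 := hn z a ha
    rw [show (-(2 * (1/4:ℝ) - 2 * (1/4))) = 0 by norm_num, Real.rpow_zero, mul_one] at h3
    have h5 : Pr (fun _ => (1/2:ℝ)) S N = Pr (fun _ => (1/2:ℝ)) (NB z a) N := by
      apply Pr_local (NB_sub_bx.trans h16)
      intro F _
      show M ≤ nRA z a (↑F) ↔ M ≤ nRA z a (↑(F ∩ NB z a))
      rw [nRA_loc ha (Finset.Subset.refl _) F]
    rw [h5]
    refine h3.trans (Pr_mono ok2 ?_)
    intro F _ h4
    show M ≤ nRA z a (↑F)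
    rw [hM, Nat.ceil_le]
    refine le_trans ?_ h4
    rw [show (2 - 1/4 : ℝ) = 7/4 by norm_num]
    exact mul_le_mul_of_nonneg_right (min_le_left _ _) hY.le
  have h3 : κ0 * κ0 * c₂ ≤ κ0 * κ0 * Pr (fun _ => (1/2:ℝ)) S N :=
    mul_le_mul_of_nonneg_left h2 (by positivity)
  have hind : Pr (fun _ => (1/2:ℝ)) S (Gd z a M) =
      Pr (fun _ => (1/2:ℝ)) S (fun F => N F ∧ (CL (z.1 - 14 * a) (z.1 + 14 * a) z.2 a F ∧
        CU (z.1 - 14 * a) (z.1 + 14 * a) z.2 a (↑F))) *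
      Pr (fun _ => (1/2:ℝ)) S (BlkZ z (16 * a) (48 * a)) := by
    apply Pr_indep (A := fun F => N F ∧ (CL (z.1 - 14 * a) (z.1 + 14 * a) z.2 a F ∧
        CU (z.1 - 14 * a) (z.1 + 14 * a) z.2 a (↑F))) (B := BlkZ z (16 * a) (48 * a))
      h16 han Finset.disjoint_sdiff
    · intro F _
      show (M ≤ nRA z a (↑F) ∧ _) ↔ (M ≤ nRA z a (↑(F ∩ bx z (16 * a))) ∧ _)
      rw [nRA_loc ha NB_sub_bx F, CL_loc (SL_sub.trans SB_sub_bx) F,
        CU_loc ((dSU_sub ha).trans (Finset.coe_subset.2 SB_sub_bx)) F]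
    · intro F _
      exact BlkZ_local (by omega) (by omega) (Finset.Subset.refl _) F
  rw [hind]
  have hb := pr_BlkZ (z := z) (m := 16 * a) (by omega) (S := S) (by
    rw [show (3 * (16 * (a:ℤ))) = 48 * a by ring]; exact han)
  rw [show (3 * (16 * (a:ℤ))) = 48 * a by ring] at hb
  have h4 := mul_le_mul (h3.trans key) hb (by positivity)
    ((by positivity : 0 ≤ κ0 * κ0 * c₂).trans (h3.trans key))
  exact (min_le_right _ _).trans h4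

/-- On the block event there is a long loop inside the block. -/
theorem loop_of_Gd {z : Vtx} {a M : ℕ} (ha : 1 ≤ a) (hM : 1 ≤ M) {G : Set Edg} {F : Finset Edg}
    (hGF : ∀ e ∈ bx z (48 * a), e ∈ G ↔ e ∈ F) (h : Gd z a M F) :
    ∃ σ : St, σ.1 ∈ ctr z a ∧ Closed G σ ∧ M ≤ (loop G σ).ncard ∧
      ∀ τ ∈ loop G σ, τ.1 ∈ ctr z (48 * a) := by
  classical
  obtain ⟨⟨h1, h2, h3⟩, h4⟩ := h
  obtain ⟨p, q, hpq⟩ := strip_conn ha h2 h3
  set T : Finset Vtx := (ctr z a).filter (fun v => RA v a (↑F)) with hT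
  have hcard : M ≤ T.card := h1
  obtain ⟨v0, hv0⟩ : T.Nonempty := Finset.card_pos.1 (by omega)
  have hsub : bx z (16 * a) ⊆ bx z (48 * a) := bx_mono (by omega)
  have hconn : ∀ v ∈ T, Conn G ((v0, .ne) : St) ((v, .ne) : St) := by
    intro v hv
    rw [hT, Finset.mem_filter] at hv hv0
    obtain ⟨a1, a2⟩ := hpq v (VV_ctr hv.1) hv.2
    obtain ⟨b1, b2⟩ := hpq v0 (VV_ctr hv0.1) hv0.2
    constructor
    · refine (b1.trans a1.symm).mono ?_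
      rintro e ⟨he, he'⟩
      exact (hGF e (hsub (SB_sub_bx he'))).2 he
    · have : DReach (↑(SB (z.1 - 14 * a) (z.1 + 14 * a) z.2 a) \ ↑F) v0 v := b2.trans a2.symm
      refine this.mono ?_
      rintro e ⟨he, he'⟩ he''
      exact he' ((hGF e (hsub (SB_sub_bx he))).1 he'')
  have hv0' := (Finset.mem_filter.1 (hT ▸ hv0)).1
  have hin : ∀ τ : St, Reach G v0 τ.1 → τ.1 ∈ ctr z (48 * a) := by
    intro τ hτ
    by_contra hcon
    refine not_BlkZ (G := G) (F := F) (z := z) (R1 := 16 * a) (R2 := 48 * a) (by omega)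
      (fun e he he' => (hGF e he').1 he) (u := v0) (v := τ.1) ?_ hτ ?_ h4
    · rw [mem_ctr'] at hv0'
      unfold inR
      omega
    · rw [mem_ctr'] at hcon
      push_cast at hcon
      omega
  have hcl : Closed G ((v0, .ne) : St) := by
    apply closed_of_bdd (ctr z (48 * a))
    intro s
    exact hin _ (orb_reach' G ((v0, .ne) : St) s)
  refine ⟨(v0, .ne), hv0', hcl, ?_, ?_⟩
  · have h5 : (↑(T.image (fun v => ((v, Q4.ne) : St))) : Set St) ⊆ loop G (v0, .ne) := by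
      intro τ hτ
      rw [Finset.mem_coe, Finset.mem_image] at hτ
      obtain ⟨v, hv, rfl⟩ := hτ
      exact (mem_loop hcl _).2 (hconn v hv)
    have h6 := Set.ncard_le_ncard h5 (loop_finite hcl)
    rw [Set.ncard_coe_finset, card_ne] at h6
    exact hcard.trans h6
  · intro τ hτ
    exact hin τ (conn_of_mem hτ).1

end Pool.Agent.Y993.LL
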