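import Pool.Agent.Y993.LL.Macro
import Pool.Agent.H984R3.Per.UpPi
import Pool.Agent.H984R3.Per.LowEV
import Pool.Agent.H985R3.TA.Main

/-!
The length of a loop given its extent, and the inputs.
-/

set_option autoImplicit false

namespace Pool.Agent.Y993.LL

open H974 Finset H342P H984P MeasureTheory

/-- The two-arm estimates (starting repository, modules `H984R3`, `H985R3`). -/
theorem inputs : (∃ c : ℝ, 0 < c ∧ LowA c (1/4)) ∧ (∃ C : ℝ, 0 < C ∧ TwoUp C (1/4)) := by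
  refine ⟨?_, ?_⟩
  · obtain ⟨B, m0, κ, hκ, h⟩ := H985T.EV_lower
    obtain ⟨c, hc, h2⟩ := H984P.lowA_of_EV (B := B) (m0 := m0) (s := 1/4) hκ (by norm_num)
      (fun m hm => by
        obtain ⟨ρ, c, s, c', f0, h1, h2, h3⟩ := h m hm
        exact ⟨ρ, c, s, c', f0, h2, h1, h3⟩)
    exact ⟨c, hc, h2⟩
  · obtain ⟨C, hC, h⟩ := H985T.pi2_upper
    exact ⟨C, hC, H984P.twoUp_of_pi2 hC (by norm_num) h⟩

/-- Given that the loop of `σ` has extent at least `n`, its length is of order `n ^ (7/4)`. -/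
theorem cond_law {c C : ℝ} (hc : 0 < c) (hC : 0 < C) (hL : LowA c (1/4)) (hU : TwoUp C (1/4))
    {ε : ℝ} (hε : 0 < ε) : ∃ Λ : ℝ, 0 < Λ ∧ ∀ (σ : St) (n : ℕ), 1 ≤ n →
      μ.real {ω | (∃ τ ∈ loop (opn ω) σ, (n:ℤ) ≤ sd σ.1 τ.1) ∧
        ¬ ((n:ℝ) ^ (7/4:ℝ) / Λ ≤ (loop (opn ω) σ).ncard ∧
          ((loop (opn ω) σ).ncard : ℝ) ≤ Λ * (n:ℝ) ^ (7/4:ℝ))} ≤
      ε * μ.real {ω | ∃ τ ∈ loop (opn ω) σ, (n:ℤ) ≤ sd σ.1 τ.1} := by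
  obtain ⟨k, hk, -, hlow⟩ := low_laws hc hC hL hU
  obtain ⟨K, hK, hup⟩ := len_up hC hU
  obtain ⟨lam, hlam, hc1⟩ := cond_low hc hC hL hU (ε := ε * k / 2) (by positivity)
  set x : ℝ := 2 * K / (ε * k) with hx
  have hx0 : 0 < x := by positivity
  set Λ : ℝ := max (1 / lam) (x ^ (7:ℝ)) with hΛ
  have hΛ0 : 0 < Λ := lt_of_lt_of_le (by positivity : 0 < 1 / lam) (le_max_left _ _)
  refine ⟨Λ, hΛ0, fun σ n hn => ?_⟩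
  have hnR : (1:ℝ) ≤ n := by exact_mod_cast hn
  have hn0 : (0:ℝ) < n := by linarith
  have hpn : (0:ℝ) < (n:ℝ) ^ (7/4:ℝ) := by positivity
  have h1 := hc1 σ n hn
  have h2 := hlow σ n hn
  have hlen1 : 1 ≤ ⌈Λ * (n:ℝ) ^ (7/4:ℝ)⌉₊ := Nat.one_le_ceil_iff.2 (by positivity)
  have h3 := hup σ ⌈Λ * (n:ℝ) ^ (7/4:ℝ)⌉₊ hlen1
  have h4 : (⌈Λ * (n:ℝ) ^ (7/4:ℝ)⌉₊ : ℝ) ^ (-(1/7:ℝ)) ≤ x⁻¹ * (n:ℝ) ^ (-(1/4:ℝ)) := by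
    have e1 : x ^ (7:ℝ) * (n:ℝ) ^ (7/4:ℝ) ≤ ⌈Λ * (n:ℝ) ^ (7/4:ℝ)⌉₊ :=
      (mul_le_mul_of_nonneg_right (le_max_right _ _) hpn.le).trans (Nat.le_ceil _)
    refine (rpow_neg_le (by positivity) e1 (by norm_num)).trans (le_of_eq ?_)
    rw [Real.mul_rpow (by positivity) hpn.le, ← Real.rpow_mul hx0.le, ← Real.rpow_mul hn0.le]
    norm_num
    left
    exact Real.rpow_neg_one x
  have h5 : K * (⌈Λ * (n:ℝ) ^ (7/4:ℝ)⌉₊ : ℝ) ^ (-(1/7:ℝ)) ≤ ε * k / 2 * (n:ℝ) ^ (-(1/4:ℝ)) := by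
    refine (mul_le_mul_of_nonneg_left h4 hK.le).trans (le_of_eq ?_)
    rw [hx]
    field_simp
  have hcov : {ω | (∃ τ ∈ loop (opn ω) σ, (n:ℤ) ≤ sd σ.1 τ.1) ∧
        ¬ ((n:ℝ) ^ (7/4:ℝ) / Λ ≤ (loop (opn ω) σ).ncard ∧
          ((loop (opn ω) σ).ncard : ℝ) ≤ Λ * (n:ℝ) ^ (7/4:ℝ))} ⊆
      {ω | (∃ τ ∈ loop (opn ω) σ, (n:ℤ) ≤ sd σ.1 τ.1) ∧
        ((loop (opn ω) σ).ncard : ℝ) < lam * (n:ℝ) ^ (7/4:ℝ)} ∪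
      {ω | ⌈Λ * (n:ℝ) ^ (7/4:ℝ)⌉₊ ≤ (loop (opn ω) σ).ncard} := by
    rintro ω ⟨he, hnot⟩
    rw [not_and_or, not_le, not_le] at hnot
    rcases hnot with h6 | h6
    · left
      refine ⟨he, lt_of_lt_of_le h6 ?_⟩
      rw [div_le_iff₀ hΛ0]
      have e2 : 1 ≤ lam * Λ := by
        calc (1:ℝ) = lam * (1 / lam) := by field_simp
          _ ≤ _ := mul_le_mul_of_nonneg_left (le_max_left _ _) hlam.le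
      nlinarith
    · right
      exact Nat.ceil_le.2 h6.le
  refine (measureReal_mono hcov).trans ((measureReal_union_le _ _).trans ?_)
  nlinarith

/-- The main theorem. -/
theorem main : ∃ c C : ℝ, 0 < c ∧ 0 < C ∧
    (∀ᵐ ω ∂(bondLaw hlf), ∀ σ : St, 0 < Function.minimalPeriod (nxt (opn ω)) σ ∧
      Function.minimalPeriod (nxt (opn ω)) σ = (loop (opn ω) σ).ncard) ∧
    (∀ (σ : St) (ℓ : ℕ), 1 ≤ ℓ →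
      c * (ℓ:ℝ) ^ (-(1/7:ℝ)) ≤ (bondLaw hlf).real {ω | ℓ ≤ (loop (opn ω) σ).ncard} ∧
      (bondLaw hlf).real {ω | ℓ ≤ (loop (opn ω) σ).ncard} ≤ C * (ℓ:ℝ) ^ (-(1/7:ℝ))) ∧
    (∀ (σ : St) (n : ℕ), 1 ≤ n →
      c * (n:ℝ) ^ (-(1/4:ℝ)) ≤
        (bondLaw hlf).real {ω | ∃ τ ∈ loop (opn ω) σ, (n:ℤ) ≤ sd σ.1 τ.1} ∧
      (bondLaw hlf).real {ω | ∃ τ ∈ loop (opn ω) σ, (n:ℤ) ≤ sd σ.1 τ.1} ≤
        C * (n:ℝ) ^ (-(1/4:ℝ))) ∧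
    (∀ (σ : St) (n : ℕ), 1 ≤ n →
      c * (n:ℝ) ^ (3/2:ℝ) ≤ ∑ τ ∈ cst σ.1 n, (bondLaw hlf).real {ω | τ ∈ loop (opn ω) σ} ∧
      ∑ τ ∈ cst σ.1 n, (bondLaw hlf).real {ω | τ ∈ loop (opn ω) σ} ≤ C * (n:ℝ) ^ (3/2:ℝ)) ∧
    (∀ ε : ℝ, 0 < ε → ∃ Λ : ℝ, 0 < Λ ∧ ∀ (σ : St) (n : ℕ), 1 ≤ n →
      (bondLaw hlf).real {ω | (∃ τ ∈ loop (opn ω) σ, (n:ℤ) ≤ sd σ.1 τ.1) ∧
        ¬ ((n:ℝ) ^ (7/4:ℝ) / Λ ≤ (loop (opn ω) σ).ncard ∧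
          ((loop (opn ω) σ).ncard : ℝ) ≤ Λ * (n:ℝ) ^ (7/4:ℝ))} ≤
      ε * (bondLaw hlf).real {ω | ∃ τ ∈ loop (opn ω) σ, (n:ℤ) ≤ sd σ.1 τ.1}) ∧
    (∀ n ℓ : ℕ, 1 ≤ n → 1 ≤ ℓ → ∫ ω, (cntL n ℓ (opn ω) : ℝ) ∂(bondLaw hlf) ≤
      C * ((n:ℝ) ^ 2 * (ℓ:ℝ) ^ (-(8/7:ℝ)))) ∧
    (∀ n ℓ : ℕ, 1 ≤ ℓ → (ℓ:ℝ) ≤ c * (n:ℝ) ^ (7/4:ℝ) →
      c * ((n:ℝ) ^ 2 * (ℓ:ℝ) ^ (-(8/7:ℝ))) ≤ ∫ ω, (cntL n ℓ (opn ω) : ℝ) ∂(bondLaw hlf) ∧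
      (bondLaw hlf).real {ω | (cntL n ℓ (opn ω) : ℝ) ≤ c * ((n:ℝ) ^ 2 * (ℓ:ℝ) ^ (-(8/7:ℝ)))} ≤
        Real.exp (-(c * ((n:ℝ) ^ 2 * (ℓ:ℝ) ^ (-(8/7:ℝ)))))) ∧
    (∀ δ ε : ℝ, 0 < δ → δ ≤ 1 → 0 < ε → ∃ Λ : ℝ, 0 < Λ ∧ ∃ n0 : ℕ, ∀ n : ℕ, n0 ≤ n →
      1 - ε ≤ (bondLaw hlf).real {ω |
        (∀ (σ : St) (t : ℕ), sd (0, 0) σ.1 ≤ n → δ * n ≤ sd σ.1 (orb (opn ω) σ t).1 →
          (n:ℝ) ^ (7/4:ℝ) / Λ ≤ t) ∧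
        ({σ : St | sd (0, 0) σ.1 ≤ n ∧ ∃ τ ∈ loop (opn ω) σ, δ * n ≤ sd σ.1 τ.1}.ncard : ℝ) ≤
          Λ * (n:ℝ) ^ (7/4:ℝ)}) := by
  obtain ⟨⟨c0, hc0, hL⟩, ⟨C0, hC0, hU⟩⟩ := inputs
  obtain ⟨K1, hK1, h1⟩ := len_up hC0 hU
  obtain ⟨k2, hk2, h2, h3⟩ := low_laws hc0 hC0 hL hU
  obtain ⟨K4, hK4, h4⟩ := ext_up hC0 hU
  obtain ⟨K5, hK5, h5⟩ := sum2_up hC0 hU
  obtain ⟨k6, hk6, h6⟩ := sum2_low hc0 hC0 hL hU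
  obtain ⟨k7, K7, hk7, hK7, h7, h8⟩ := count_laws hc0 hC0 hL hU
  set c : ℝ := min k2 (min k6 k7) with hc
  set C : ℝ := max K1 (max K4 (max K5 K7)) with hC
  have c2 : c ≤ k2 := min_le_left _ _
  have c6 : c ≤ k6 := (min_le_right _ _).trans (min_le_left _ _)
  have c7 : c ≤ k7 := (min_le_right _ _).trans (min_le_right _ _)
  have C1 : K1 ≤ C := le_max_left _ _
  have C4 : K4 ≤ C := (le_max_left _ _).trans (le_max_right _ _)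
  have C5 : K5 ≤ C := (le_max_left _ _).trans ((le_max_right _ _).trans (le_max_right _ _))
  have C7 : K7 ≤ C := (le_max_right _ _).trans ((le_max_right _ _).trans (le_max_right _ _))
  have hp : ∀ (m : ℕ) (s : ℝ), (0:ℝ) ≤ (m:ℝ) ^ s := fun m s =>
    Real.rpow_nonneg (Nat.cast_nonneg _) _
  refine ⟨c, C, by positivity, lt_of_lt_of_le hK1 C1, ?_, ?_, ?_, ?_, ?_, ?_, ?_, ?_⟩
  · filter_upwards [closed_all_ae (by norm_num) hU] with ω hω σ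
    refine ⟨?_, period_eq (hω σ)⟩
    obtain ⟨p, hp1, hp2⟩ := hω σ
    exact Function.minimalPeriod_pos_of_mem_periodicPts ⟨p, hp1, hp2⟩
  · intro σ ℓ hℓ
    exact ⟨(mul_le_mul_of_nonneg_right c2 (hp _ _)).trans (h2 σ ℓ hℓ),
      (h1 σ ℓ hℓ).trans (mul_le_mul_of_nonneg_right C1 (hp _ _))⟩
  · intro σ n hn
    exact ⟨(mul_le_mul_of_nonneg_right c2 (hp _ _)).trans (h3 σ n hn),
      (h4 σ n hn).trans (mul_le_mul_of_nonneg_right C4 (hp _ _))⟩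
  · intro σ n hn
    exact ⟨(mul_le_mul_of_nonneg_right c6 (hp _ _)).trans (h6 σ n hn),
      (h5 σ n hn).trans (mul_le_mul_of_nonneg_right C5 (hp _ _))⟩
  · intro ε hε
    exact cond_law hc0 hC0 hL hU hε
  · intro n ℓ hn hℓ
    refine (h7 n ℓ hn hℓ).trans (mul_le_mul_of_nonneg_right C7 ?_)
    exact mul_nonneg (sq_nonneg _) (hp _ _)
  · intro n ℓ hℓ hn
    obtain ⟨h9, h10⟩ := h8 n ℓ hℓ (hn.trans (mul_le_mul_of_nonneg_right c7 (hp _ _)))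
    have hX : 0 ≤ (n:ℝ) ^ 2 * (ℓ:ℝ) ^ (-(8/7:ℝ)) := mul_nonneg (sq_nonneg _) (hp _ _)
    have h11 := mul_le_mul_of_nonneg_right c7 hX
    refine ⟨h11.trans h9, ?_⟩
    refine (measureReal_mono ?_).trans (h10.trans (Real.exp_le_exp.2 (by linarith)))
    intro ω hω
    exact (show (cntL n ℓ (opn ω) : ℝ) ≤ _ from hω).trans h11
  · intro δ ε hδ hδ1 hε
    obtain ⟨lam, hlam, n1, h9⟩ := macro_low hc0 hC0 hL hU hδ hδ1 (ε := ε / 2) (by positivity)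
    obtain ⟨Λ, hΛ, n2, h10⟩ := macro_up hC0 hU hδ hδ1 (ε := ε / 2) (by positivity)
    refine ⟨max (1 / lam) Λ, lt_of_lt_of_le hΛ (le_max_right _ _), max n1 n2, fun n hn => ?_⟩
    have h11 := h9 n ((le_max_left _ _).trans hn)
    have h12 := h10 n ((le_max_right _ _).trans hn)
    have hcov : (Set.univ : Set (sqLattice.edgeSet → Bool)) ⊆ {ω |
        (∀ (σ : St) (t : ℕ), sd (0, 0) σ.1 ≤ n → δ * n ≤ sd σ.1 (orb (opn ω) σ t).1 →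
          (n:ℝ) ^ (7/4:ℝ) / (max (1 / lam) Λ) ≤ t) ∧
        ({σ : St | sd (0, 0) σ.1 ≤ n ∧ ∃ τ ∈ loop (opn ω) σ, δ * n ≤ sd σ.1 τ.1}.ncard : ℝ) ≤
          (max (1 / lam) Λ) * (n:ℝ) ^ (7/4:ℝ)} ∪
      ({ω | ∃ (σ : St) (t : ℕ), sd (0, 0) σ.1 ≤ n ∧ δ * n ≤ sd σ.1 (orb (opn ω) σ t).1 ∧
        (t:ℝ) < lam * (n:ℝ) ^ (7/4:ℝ)} ∪
      {ω | Λ * (n:ℝ) ^ (7/4:ℝ) < ({σ : St | sd (0, 0) σ.1 ≤ n ∧
        ∃ τ ∈ loop (opn ω) σ, δ * n ≤ sd σ.1 τ.1}.ncard : ℝ)}) := by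
      intro ω _
      by_cases hA : ∃ (σ : St) (t : ℕ), sd (0, 0) σ.1 ≤ n ∧ δ * n ≤ sd σ.1 (orb (opn ω) σ t).1 ∧
        (t:ℝ) < lam * (n:ℝ) ^ (7/4:ℝ)
      · exact Or.inr (Or.inl hA)
      by_cases hB : Λ * (n:ℝ) ^ (7/4:ℝ) < ({σ : St | sd (0, 0) σ.1 ≤ n ∧
        ∃ τ ∈ loop (opn ω) σ, δ * n ≤ sd σ.1 τ.1}.ncard : ℝ)
      · exact Or.inr (Or.inr hB)
      left
      push Not at hA hB
      refine ⟨fun σ t e1 e2 => ?_, hB.trans (mul_le_mul_of_nonneg_right (le_max_right _ _)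
        (hp _ _))⟩
      refine le_trans ?_ (hA σ t e1 e2)
      rw [div_le_iff₀ (lt_of_lt_of_le hΛ (le_max_right _ _))]
      have e2 : 1 ≤ lam * max (1 / lam) Λ := by
        calc (1:ℝ) = lam * (1 / lam) := by field_simp
          _ ≤ _ := mul_le_mul_of_nonneg_left (le_max_left _ _) hlam.le
      have e3 := hp n (7/4)
      nlinarith
    have h13 : (1:ℝ) = μ.real (Set.univ : Set (sqLattice.edgeSet → Bool)) := by simp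
    have h14 := measureReal_mono (μ := μ) hcov
    have h15 := h14.trans ((measureReal_union_le _ _).trans
      (add_le_add_right (measureReal_union_le _ _) _))
    rw [← h13] at h15
    linarith

end Pool.Agent.Y993.LL
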