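import Pool.Agent.Y993.LL.Blocks

/-!
The number of long loops in a box.
-/

set_option autoImplicit false

namespace Pool.Agent.Y993.LL

open H974 Finset H342P H984P MeasureTheory

/-- The loops contained in the box `[-n, n]²`. -/
def loops (n : ℕ) (F : Set Edg) : Set (Set St) :=
  {A | ∃ σ : St, A = loop F σ ∧ ∀ τ ∈ A, τ.1 ∈ ctr (0, 0) n}

/-- The number of loops with at least `ℓ` states contained in the box `[-n, n]²`. -/
noncomputable def cntL (n ℓ : ℕ) (F : Set Edg) : ℕ := {A ∈ loops n F | ℓ ≤ A.ncard}.ncard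

/-- the loop of `σ` is contained in the box -/
def InBox (n : ℕ) (F : Set Edg) (σ : St) : Prop := ∀ τ ∈ loop F σ, τ.1 ∈ ctr (0, 0) n

theorem InBox.closed {n : ℕ} {F : Set Edg} {σ : St} (h : InBox n F σ) : Closed F σ :=
  closed_of_bdd (ctr (0, 0) n) fun s => h _ ⟨s, rfl⟩

theorem ae_bx {n : ℕ} {τ : St} (h : τ.1 ∈ ctr (0, 0) n) : ae τ ∈ bx (0, 0) (n + 1) := by
  obtain ⟨⟨x, y⟩, q⟩ := τ
  rw [mem_ctr'] at h
  simp only at h
  unfold bx
  cases q
  · rw [ae_ne, mem_RE_true]; omega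
  · rw [ae_nw, mem_RE_false]; omega
  · rw [ae_sw, mem_RE_true]; omega
  · rw [ae_se, mem_RE_false]; omega

theorem loop_congr {n : ℕ} {F G : Set Edg} (hFG : ∀ e ∈ bx (0, 0) (n + 1), (e ∈ F ↔ e ∈ G))
    {σ : St} (h : InBox n F σ) : loop G σ = loop F σ := by
  have key : ∀ s, orb G σ s = orb F σ s := by
    intro s
    apply orb_congr (T := s) _ le_rfl
    intro e he
    rw [mem_Exm] at he
    obtain ⟨t, -, rfl⟩ := he
    exact hFG _ (ae_bx (h _ ⟨t, rfl⟩))
  ext τ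
  constructor
  · rintro ⟨s, rfl⟩
    exact ⟨s, (key s).symm⟩
  · rintro ⟨s, rfl⟩
    exact ⟨s, key s⟩

theorem InBox_congr {n : ℕ} {F G : Set Edg} (hFG : ∀ e ∈ bx (0, 0) (n + 1), (e ∈ F ↔ e ∈ G))
    {σ : St} (h : InBox n F σ) : InBox n G σ := by
  intro τ hτ
  rw [loop_congr hFG h] at hτ
  exact h τ hτ

theorem loops_sub {n : ℕ} {F G : Set Edg} (hFG : ∀ e ∈ bx (0, 0) (n + 1), (e ∈ F ↔ e ∈ G)) :
    loops n F ⊆ loops n G := by
  rintro A ⟨σ, rfl, h⟩
  exact ⟨σ, (loop_congr hFG h).symm, h⟩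

theorem loops_congr {n : ℕ} {F G : Set Edg} (hFG : ∀ e ∈ bx (0, 0) (n + 1), (e ∈ F ↔ e ∈ G)) :
    loops n F = loops n G :=
  Set.Subset.antisymm (loops_sub hFG) (loops_sub fun e he => (hFG e he).symm)

theorem cntL_congr {n ℓ : ℕ} {F G : Set Edg}
    (hFG : ∀ e ∈ bx (0, 0) (n + 1), (e ∈ F ↔ e ∈ G)) : cntL n ℓ F = cntL n ℓ G := by
  unfold cntL
  rw [loops_congr hFG]

theorem FF_agree {S : Finset Edg} {n : ℕ} (hS : bx (0, 0) (n + 1) ⊆ S)
    (ω : sqLattice.edgeSet → Bool) :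
    ∀ e ∈ bx (0, 0) (n + 1), (e ∈ opn ω ↔ e ∈ (↑(FF S ω) : Set Edg)) := by
  intro e he
  rw [Finset.mem_coe, mem_FF]
  exact ⟨fun h => ⟨hS he, h⟩, fun h => h.2⟩

theorem cntL_FF (n ℓ : ℕ) (ω : sqLattice.edgeSet → Bool) :
    cntL n ℓ (opn ω) = cntL n ℓ (↑(FF (bx (0, 0) (n + 1)) ω)) :=
  cntL_congr (FF_agree (Finset.Subset.refl _) ω)

theorem loops_finite (n : ℕ) (F : Set Edg) : (loops n F).Finite := by
  refine ((cst (0, 0) n).finite_toSet.finite_subsets).subset ?_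
  rintro A ⟨σ, rfl, h⟩
  intro τ hτ
  exact mem_cst.2 (h τ hτ)

/-- Every loop is counted at least `ℓ` times. -/
theorem cntL_le (n ℓ : ℕ) (F : Set Edg) :
    (ℓ:ℝ) * cntL n ℓ F ≤ ∑ σ ∈ cst (0, 0) n, ind (InBox n F σ ∧ ℓ ≤ (loop F σ).ncard) := by
  classical
  rw [sum_ind]
  set T : Finset St := (cst (0, 0) n).filter (fun σ => InBox n F σ ∧ ℓ ≤ (loop F σ).ncard)
    with hT
  have h1 : {A ∈ loops n F | ℓ ≤ A.ncard} = ↑(T.image (loop F)) := by
    ext A
    rw [Finset.mem_coe, Finset.mem_image]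
    constructor
    · rintro ⟨⟨σ, rfl, h⟩, h2⟩
      exact ⟨σ, Finset.mem_filter.2 ⟨mem_cst.2 (h σ (self_mem_loop F σ)), h, h2⟩, rfl⟩
    · rintro ⟨σ, hσ, rfl⟩
      obtain ⟨-, h, h2⟩ := Finset.mem_filter.1 hσ
      exact ⟨⟨σ, rfl, h⟩, h2⟩
  have h2 : ℓ * (T.image (loop F)).card ≤ T.card := by
    rw [Finset.card_eq_sum_card_image (loop F) T, mul_comm, ← smul_eq_mul]
    apply Finset.card_nsmul_le_sum
    intro A hA
    rw [Finset.mem_image] at hA
    obtain ⟨σ, hσ, rfl⟩ := hA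
    obtain ⟨-, h, h3⟩ := Finset.mem_filter.1 hσ
    refine h3.trans ?_
    rw [← Set.ncard_coe_finset]
    apply Set.ncard_le_ncard _ (Finset.finite_toSet _)
    intro τ hτ
    obtain ⟨e1, -⟩ := loop_eq h.closed hτ
    rw [Finset.mem_coe, Finset.mem_filter, hT, Finset.mem_filter]
    refine ⟨⟨mem_cst.2 (h τ hτ), ?_, ?_⟩, e1⟩
    · intro ρ hρ
      rw [e1] at hρ
      exact h ρ hρ
    · rw [e1]; exact h3
  unfold cntL
  rw [h1, Set.ncard_coe_finset]
  exact_mod_cast h2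

/-! ### Expectations on the infinite lattice -/

theorem int_FF (S : Finset Edg) (f : Finset Edg → ℝ) :
    ∫ ω, f (FF S ω) ∂μ = Ex (fun _ => (1/2:ℝ)) S f := by
  classical
  have h1 : ∀ ω : sqLattice.edgeSet → Bool, f (FF S ω) =
      ∑ T ∈ S.powerset, Set.indicator {ω : sqLattice.edgeSet → Bool | FF S ω = T}
        (fun _ => f T) ω := by
    intro ω
    rw [Finset.sum_eq_single (FF S ω)]
    · rw [Set.indicator_of_mem (show ω ∈ {ω' | FF S ω' = FF S ω} from rfl)]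
    · intro T _ hT
      rw [Set.indicator_of_notMem]
      intro h
      exact hT (show FF S ω = T from h).symm
    · intro h
      exact absurd (Finset.mem_powerset.2 (Finset.filter_subset _ _)) h
  simp_rw [h1]
  rw [integral_finsetSum]
  · unfold Ex
    apply Finset.sum_congr rfl
    intro T hT
    rw [integral_indicator_const _ (meas_FF S T), law_eq hlf (Finset.mem_powerset.1 hT),
      smul_eq_mul]
    rfl
  · intro T _
    exact (integrable_const _).indicator (meas_FF S T)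

/-- The mean number of loops, upper bound. -/
theorem mean_upper {n ℓ : ℕ} (hℓ : 1 ≤ ℓ) {B : ℝ}
    (hB : ∀ σ : St, μ.real {ω | ℓ ≤ (loop (opn ω) σ).ncard} ≤ B) :
    ∫ ω, (cntL n ℓ (opn ω) : ℝ) ∂μ ≤ 4 * (2 * n + 1) ^ 2 * B / ℓ := by
  have hℓR : (0:ℝ) < ℓ := by exact_mod_cast hℓ
  set S : Finset Edg := bx (0, 0) (n + 1) with hS
  have h1 : ∫ ω, (cntL n ℓ (opn ω) : ℝ) ∂μ =
      Ex (fun _ => (1/2:ℝ)) S (fun F => (cntL n ℓ (↑F) : ℝ)) := by
    rw [← int_FF]
    apply integral_congr_ae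
    filter_upwards with ω
    rw [cntL_FF]
  rw [h1, le_div_iff₀ hℓR, mul_comm, ← Ex_mul_left]
  refine (Ex_mono ok2 (fun F _ => cntL_le n ℓ (↑F))).trans ?_
  rw [Ex_sum]
  have h2 : ∀ σ ∈ cst (0, 0) n, Ex (fun _ => (1/2:ℝ)) S
      (fun F => ind (InBox n (↑F) σ ∧ ℓ ≤ (loop (↑F) σ).ncard)) ≤ B := by
    intro σ _
    have h5 := law_eq2 S (fun F => InBox n (↑F) σ ∧ ℓ ≤ (loop (↑F) σ).ncard)
    have h6 : {ω : sqLattice.edgeSet → Bool | InBox n (↑(FF S ω)) σ ∧
        ℓ ≤ (loop (↑(FF S ω)) σ).ncard} ⊆ {ω | ℓ ≤ (loop (opn ω) σ).ncard} := by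
      rintro ω ⟨h3, h4⟩
      show ℓ ≤ (loop (opn ω) σ).ncard
      rw [loop_congr (fun e he => ((FF_agree (Finset.Subset.refl _) ω) e he).symm) h3]
      exact h4
    exact (le_of_eq h5.symm).trans ((measureReal_mono h6).trans (hB σ))
  refine (Finset.sum_le_sum h2).trans ?_
  rw [Finset.sum_const, nsmul_eq_mul]
  unfold cst
  rw [Finset.card_product, card_ctr, Finset.card_univ]
  have hcard : Fintype.card Q4 = 4 := rfl
  rw [hcard]
  push_cast
  apply le_of_eq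
  ring

/-! ### Disjoint blocks (`Ex_indep_prod` and `chernoff` by helper244, `Pool.Agent.Y244.PC`) -/

theorem Ex_indep_prod {E : Type*} [DecidableEq E] {p : E → ℝ} {U : Finset E} {ι : Type*}
    (I : Finset ι) (f : ι → Finset E → ℝ) (S : ι → Finset E) (hS : ∀ i ∈ I, S i ⊆ U)
    (hd : ∀ i ∈ I, ∀ j ∈ I, i ≠ j → Disjoint (S i) (S j))
    (hl : ∀ i ∈ I, ∀ F, f i F = f i (F ∩ S i)) :
    Ex p U (fun F => ∏ i ∈ I, f i F) = ∏ i ∈ I, Ex p U (f i) := by
  classical
  induction I using Finset.induction_on with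
  | empty =>
    simp only [Finset.prod_empty]
    exact Ex_const p U 1
  | insert a I ha ih =>
    rw [Finset.prod_insert ha, ← ih (fun i hi => hS i (Finset.mem_insert_of_mem hi))
      (fun i hi j hj => hd i (Finset.mem_insert_of_mem hi) j (Finset.mem_insert_of_mem hj))
      (fun i hi => hl i (Finset.mem_insert_of_mem hi)),
      ← Ex_mul_indep (S := S a) (T := I.biUnion S) (hS a (Finset.mem_insert_self _ _))]
    · apply Ex_congr
      intro F _
      rw [Finset.prod_insert ha]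
    · intro e he
      rw [Finset.mem_biUnion] at he
      obtain ⟨i, hi, he⟩ := he
      exact hS i (Finset.mem_insert_of_mem hi) he
    · rw [Finset.disjoint_biUnion_right]
      intro i hi
      apply hd a (Finset.mem_insert_self _ _) i (Finset.mem_insert_of_mem hi)
      rintro rfl
      exact ha hi
    · intro F _
      exact hl a (Finset.mem_insert_self _ _) F
    · intro F _
      apply Finset.prod_congr rfl
      intro i hi
      rw [hl i (Finset.mem_insert_of_mem hi) F,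
        hl i (Finset.mem_insert_of_mem hi) (F ∩ I.biUnion S)]
      have e : F ∩ I.biUnion S ∩ S i = F ∩ S i := by
        rw [Finset.inter_assoc]
        congr 1
        rw [Finset.inter_eq_right]
        exact Finset.subset_biUnion_of_mem S hi
      rw [e]

/-- a simple Chernoff bound -/
theorem chernoff {E : Type*} [DecidableEq E] {p : E → ℝ} (hp : Ok p) {U : Finset E} {ι : Type*}
    (I : Finset ι) (A : ι → Finset E → Prop) (S : ι → Finset E) (hS : ∀ i ∈ I, S i ⊆ U)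
    (hd : ∀ i ∈ I, ∀ j ∈ I, i ≠ j → Disjoint (S i) (S j))
    (hl : ∀ i ∈ I, ∀ F, A i F ↔ A i (F ∩ S i)) {c : ℝ} (hA : ∀ i ∈ I, c ≤ Pr p U (A i)) :
    Pr p U (fun F => ∑ i ∈ I, ind (A i F) ≤ c / 4 * I.card) ≤ Real.exp (-(c / 4 * I.card)) := by
  have h1 : ∀ F, ind (∑ i ∈ I, ind (A i F) ≤ c / 4 * I.card) ≤
      Real.exp (c / 4 * I.card) * ∏ i ∈ I, (1 - 1 / 2 * ind (A i F)) := by
    intro F
    have hterm : ∀ i ∈ I, Real.exp (-ind (A i F)) ≤ 1 - 1 / 2 * ind (A i F) := by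
      intro i _
      by_cases h : A i F
      · rw [ind_of h]
        have h3 : Real.exp (-1) = 1 / Real.exp 1 := by rw [Real.exp_neg, one_div]
        rw [h3]
        have h4 : 1 / Real.exp 1 ≤ 1 / 2 := by
          apply one_div_le_one_div_of_le (by norm_num)
          have := Real.add_one_le_exp (1 : ℝ)
          linarith
        linarith
      · rw [ind_not_of h]
        simp
    have hprod : Real.exp (-∑ i ∈ I, ind (A i F)) ≤ ∏ i ∈ I, (1 - 1 / 2 * ind (A i F)) := by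
      rw [← Finset.sum_neg_distrib, Real.exp_sum]
      exact Finset.prod_le_prod (fun i _ => (Real.exp_pos _).le) hterm
    by_cases h : ∑ i ∈ I, ind (A i F) ≤ c / 4 * I.card
    · rw [ind_of h]
      calc (1 : ℝ) ≤ Real.exp (c / 4 * I.card) * Real.exp (-∑ i ∈ I, ind (A i F)) := by
            rw [← Real.exp_add]
            apply Real.one_le_exp
            linarith
        _ ≤ _ := mul_le_mul_of_nonneg_left hprod (Real.exp_pos _).le
    · rw [ind_not_of h]
      exact mul_nonneg (Real.exp_pos _).le ((Real.exp_pos _).le.trans hprod)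
  have h2 : Pr p U (fun F => ∑ i ∈ I, ind (A i F) ≤ c / 4 * I.card) ≤
      Real.exp (c / 4 * I.card) * ∏ i ∈ I, Ex p U (fun F => 1 - 1 / 2 * ind (A i F)) := by
    unfold Pr
    refine (Ex_mono hp (fun F _ => h1 F)).trans (le_of_eq ?_)
    rw [Ex_mul_left, Ex_indep_prod I (fun i F => 1 - 1 / 2 * ind (A i F)) S hS hd]
    intro i hi F
    show 1 - 1 / 2 * ind (A i F) = 1 - 1 / 2 * ind (A i (F ∩ S i))
    rw [ind_congr (hl i hi F)]
  have h3 : ∀ i ∈ I, Ex p U (fun F => 1 - 1 / 2 * ind (A i F)) ≤ Real.exp (-(c / 2)) := by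
    intro i hi
    rw [Ex_sub, Ex_const, Ex_mul_left]
    have h4 : Ex p U (fun F => ind (A i F)) = Pr p U (A i) := rfl
    rw [h4]
    have h5 := hA i hi
    have h6 := Real.add_one_le_exp (-(c / 2))
    linarith
  have h4 : ∀ i ∈ I, 0 ≤ Ex p U (fun F => 1 - 1 / 2 * ind (A i F)) := by
    intro i _
    apply Ex_nonneg hp
    intro F _
    have := ind_le_one (A i F)
    linarith
  calc Pr p U (fun F => ∑ i ∈ I, ind (A i F) ≤ c / 4 * I.card)
      ≤ Real.exp (c / 4 * I.card) * ∏ i ∈ I, Ex p U (fun F => 1 - 1 / 2 * ind (A i F)) := h2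
    _ ≤ Real.exp (c / 4 * I.card) * ∏ i ∈ I, Real.exp (-(c / 2)) := by
        apply mul_le_mul_of_nonneg_left _ (Real.exp_pos _).le
        exact Finset.prod_le_prod h4 h3
    _ = Real.exp (-(c / 4 * I.card)) := by
        rw [Finset.prod_const, ← Real.exp_nat_mul, ← Real.exp_add]
        congr 1
        ring

/-- centre of a block -/
def ctb (n a : ℕ) (i : ℕ × ℕ) : Vtx :=
  (-(n:ℤ) + 50 * a * (2 * i.1 + 1), -(n:ℤ) + 50 * a * (2 * i.2 + 1))

theorem ctb_in {n a K i : ℕ} (hK : 50 * a * K ≤ n) (hi : i < K) :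
    -(n:ℤ) + 50 * a ≤ -(n:ℤ) + 50 * a * (2 * i + 1) ∧
    -(n:ℤ) + 50 * a * (2 * i + 1) ≤ n - 50 * a := by
  have h1 : (i:ℤ) + 1 ≤ K := by exact_mod_cast hi
  have h2 : (50:ℤ) * a * K ≤ n := by exact_mod_cast hK
  have h3 : (0:ℤ) ≤ 50 * a := by positivity
  have h4 : (0:ℤ) ≤ i := by positivity
  have h5 := mul_le_mul_of_nonneg_left h1 h3
  have h6 := mul_nonneg h3 h4
  constructor
  · nlinarith
  · nlinarith

theorem ctb_sep {n a i j : ℕ} (h : i ≠ j) : 100 * (a:ℤ) ≤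
    |(-(n:ℤ) + 50 * a * (2 * i + 1)) - (-(n:ℤ) + 50 * a * (2 * j + 1))| := by
  have h0 : (0:ℤ) ≤ 100 * a := by positivity
  rcases Nat.lt_or_gt_of_ne h with h1 | h1
  · have h2 : (i:ℤ) + 1 ≤ j := by exact_mod_cast h1
    have h3 := mul_le_mul_of_nonneg_left h2 h0
    rw [le_abs]
    right
    nlinarith
  · have h2 : (j:ℤ) + 1 ≤ i := by exact_mod_cast h1
    have h3 := mul_le_mul_of_nonneg_left h2 h0
    rw [le_abs]
    left
    nlinarith

theorem block_disj {z z' : Vtx} {a : ℕ} (ha : 1 ≤ a)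
    (h : 100 * (a:ℤ) ≤ |z.1 - z'.1| ∨ 100 * (a:ℤ) ≤ |z.2 - z'.2|) :
    Disjoint (bx z (48 * a)) (bx z' (48 * a)) := by
  have ha' : (1 : ℤ) ≤ a := by exact_mod_cast ha
  unfold bx
  rw [Finset.disjoint_left]
  rintro ⟨x, y, b⟩ h1 h2
  rcases h with hd | hd
  · cases b
    · rw [mem_RE_false] at h1 h2; rw [le_abs] at hd; omega
    · rw [mem_RE_true] at h1 h2; rw [le_abs] at hd; omega
  · cases b
    · rw [mem_RE_false] at h1 h2; rw [le_abs] at hd; omega
    · rw [mem_RE_true] at h1 h2; rw [le_abs] at hd; omega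

theorem ctb_ne {n a : ℕ} {q q' : ℕ × ℕ} (h : q ≠ q') :
    100 * (a:ℤ) ≤ |(ctb n a q).1 - (ctb n a q').1| ∨
      100 * (a:ℤ) ≤ |(ctb n a q).2 - (ctb n a q').2| := by
  by_cases h1 : q.1 = q'.1
  · have h2 : q.2 ≠ q'.2 := fun h3 => h (Prod.ext h1 h3)
    exact Or.inr (ctb_sep h2)
  · exact Or.inl (ctb_sep h1)

theorem block_in {n a K : ℕ} (hK : 50 * a * K ≤ n) {q : ℕ × ℕ}
    (hq : q ∈ range K ×ˢ range K) : bx (ctb n a q) (48 * a) ⊆ bx (0, 0) (n + 1) ∧
    ∀ v, v ∈ ctr (ctb n a q) (48 * a) → v ∈ ctr (0, 0) n := by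
  rw [Finset.mem_product, Finset.mem_range, Finset.mem_range] at hq
  obtain ⟨h1, h2⟩ := ctb_in hK hq.1
  obtain ⟨h3, h4⟩ := ctb_in hK hq.2
  constructor
  · apply bx_sub <;> unfold ctb <;> simp only <;> omega
  · intro v hv
    rw [mem_ctr'] at hv ⊢
    unfold ctb at hv
    push_cast at hv
    simp only at hv ⊢
    omega

/-- The good blocks give distinct long loops. -/
theorem cntL_ge {n a K M : ℕ} (ha : 1 ≤ a) (hM : 1 ≤ M) (hK : 50 * a * K ≤ n)
    (F : Finset Edg) :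
    ∑ q ∈ range K ×ˢ range K, ind (Gd (ctb n a q) a M F) ≤ (cntL n M (↑F) : ℝ) := by
  classical
  rw [sum_ind]
  set J := (range K ×ˢ range K).filter (fun q => Gd (ctb n a q) a M F) with hJ
  have hex : ∀ q : ℕ × ℕ, ∃ σ : St, q ∈ J → (σ.1 ∈ ctr (ctb n a q) a ∧ Closed (↑F) σ ∧
      M ≤ (loop (↑F) σ).ncard ∧ ∀ τ ∈ loop (↑F : Set Edg) σ, τ.1 ∈ ctr (ctb n a q) (48 * a)) := by
    intro q
    by_cases hq : q ∈ J
    · obtain ⟨σ, hσ⟩ := loop_of_Gd (G := (↑F : Set Edg)) ha hM (fun e _ => Iff.rfl)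
        (Finset.mem_filter.1 hq).2
      exact ⟨σ, fun _ => hσ⟩
    · exact ⟨((0, 0), .ne), fun h => absurd h hq⟩
  choose f hf using hex
  have hinj : Set.InjOn (fun q => loop (↑F : Set Edg) (f q)) ↑J := by
    intro q hq q' hq' heq
    by_contra hne
    have h1 := (hf q hq).2.2.2 (f q) (self_mem_loop _ _)
    have h2 : (f q).1 ∈ ctr (ctb n a q') (48 * a) := by
      apply (hf q' hq').2.2.2
      have : loop (↑F : Set Edg) (f q) = loop (↑F : Set Edg) (f q') := heq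
      rw [← this]
      exact self_mem_loop _ _
    have h3 := ctb_ne (n := n) (a := a) hne
    have ha' : (1 : ℤ) ≤ a := by exact_mod_cast ha
    rw [mem_ctr'] at h1 h2
    push_cast at h1 h2
    rcases h3 with h3 | h3
    · rw [le_abs] at h3; omega
    · rw [le_abs] at h3; omega
  have h1 : J.card = (J.image (fun q => loop (↑F : Set Edg) (f q))).card :=
    (Finset.card_image_of_injOn hinj).symm
  rw [h1]
  unfold cntL
  rw [← Set.ncard_coe_finset]
  have h2 : (↑(J.image (fun q => loop (↑F : Set Edg) (f q))) : Set (Set St)) ⊆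
      {A ∈ loops n (↑F) | M ≤ A.ncard} := by
    intro A hA
    rw [Finset.mem_coe, Finset.mem_image] at hA
    obtain ⟨q, hq, rfl⟩ := hA
    obtain ⟨-, -, h3, h4⟩ := hf q hq
    exact ⟨⟨f q, rfl, fun τ hτ => (block_in hK (Finset.mem_filter.1 hq).1).2 _ (h4 τ hτ)⟩, h3⟩
  exact_mod_cast Set.ncard_le_ncard h2 ((loops_finite n _).subset (Set.sep_subset _ _))

/-- The mean number of loops, lower bound, and a deviation bound. -/
theorem mean_lower {c : ℝ} {n a K M : ℕ} (ha : 1 ≤ a) (hM : 1 ≤ M) (hK : 50 * a * K ≤ n)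
    (hc : ∀ (z : Vtx) (S : Finset Edg), bx z (48 * a) ⊆ S →
      c ≤ Pr (fun _ => (1/2:ℝ)) S (Gd z a M)) :
    c * K ^ 2 ≤ ∫ ω, (cntL n M (opn ω) : ℝ) ∂μ ∧
    μ.real {ω | (cntL n M (opn ω) : ℝ) ≤ c / 4 * K ^ 2} ≤ Real.exp (-(c / 4 * K ^ 2)) := by
  classical
  set S : Finset Edg := bx (0, 0) (n + 1) with hS
  set I : Finset (ℕ × ℕ) := range K ×ˢ range K with hI
  have hcard : (I.card : ℝ) = (K:ℝ) ^ 2 := by
    rw [hI, Finset.card_product, Finset.card_range]
    push_cast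
    ring
  constructor
  · have h1 : ∫ ω, (cntL n M (opn ω) : ℝ) ∂μ =
        Ex (fun _ => (1/2:ℝ)) S (fun F => (cntL n M (↑F) : ℝ)) := by
      rw [← int_FF]
      apply integral_congr_ae
      filter_upwards with ω
      rw [cntL_FF]
    rw [h1]
    refine le_trans ?_ (Ex_mono ok2 (fun F _ => cntL_ge ha hM hK F))
    rw [Ex_sum]
    have h2 : ∑ q ∈ I, c ≤ ∑ q ∈ I, Ex (fun _ => (1/2:ℝ)) S
        (fun F => ind (Gd (ctb n a q) a M F)) :=
      Finset.sum_le_sum fun q hq => hc (ctb n a q) S (block_in hK hq).1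
    refine le_trans (le_of_eq ?_) h2
    rw [Finset.sum_const, nsmul_eq_mul, hcard]
    ring
  · have hch := chernoff ok2 (U := S) I (fun q => Gd (ctb n a q) a M)
      (fun q => bx (ctb n a q) (48 * a)) (fun q hq => (block_in hK hq).1)
      (fun q _ q' _ hne => block_disj ha (ctb_ne hne))
      (fun q _ F => Gd_local ha F) (c := c) (fun q hq => hc (ctb n a q) S (block_in hK hq).1)
    rw [hcard] at hch
    refine (law_le (S := S) (A := fun F => ∑ q ∈ I, ind (Gd (ctb n a q) a M F) ≤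
      c / 4 * (K:ℝ) ^ 2) ?_).trans hch
    intro ω hω
    have h3 : (cntL n M (opn ω) : ℝ) ≤ c / 4 * K ^ 2 := hω
    rw [cntL_FF] at h3
    exact (cntL_ge ha hM hK _).trans h3

end Pool.Agent.Y993.LL
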