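import Pool.Agent.Y993.LL.Count

/-!
Choice of the scales.
-/

set_option autoImplicit false

namespace Pool.Agent.Y993.LL

open H974 Finset H342P H984P MeasureTheory

/-- sup distance -/
def sd (u v : Vtx) : ℤ := max |u.1 - v.1| |u.2 - v.2|

theorem far_iff {u v : Vtx} {m : ℤ} : Far u m v ↔ m ≤ sd u v := by
  unfold sd Far
  rw [le_max_iff, le_abs, le_abs]
  omega

theorem ctr_iff {u v : Vtx} {a : ℕ} : v ∈ ctr u a ↔ sd u v ≤ a := by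
  constructor
  · intro h
    obtain ⟨h1, h2⟩ := abs_ctr h
    exact max_le h1 h2
  · intro h
    rw [mem_ctr']
    have h1 := (le_max_left _ _).trans h
    have h2 := (le_max_right _ _).trans h
    rw [abs_le] at h1 h2
    omega

theorem ceil_bd {x : ℝ} (hx : 1 ≤ x) : 1 ≤ ⌈x⌉₊ ∧ x ≤ ⌈x⌉₊ ∧ (⌈x⌉₊ : ℝ) ≤ 2 * x := by
  refine ⟨Nat.one_le_ceil_iff.2 (by linarith), Nat.le_ceil _, ?_⟩
  have := Nat.ceil_lt_add_one (a := x) (by linarith)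
  linarith

theorem rpow_neg_le {x y s : ℝ} (hx : 0 < x) (hxy : x ≤ y) (hs : 0 ≤ s) : y ^ (-s) ≤ x ^ (-s) :=
  Real.rpow_le_rpow_of_nonpos hx hxy (by linarith)

/-- The law of the length, upper bound. -/
theorem len_up {C : ℝ} (hC : 0 < C) (hU : TwoUp C (1/4)) : ∃ K : ℝ, 0 < K ∧
    ∀ (σ : St) (ℓ : ℕ), 1 ≤ ℓ →
      μ.real {ω | ℓ ≤ (loop (opn ω) σ).ncard} ≤ K * (ℓ:ℝ) ^ (-(1/7:ℝ)) := by
  set A : ℝ := 4 * (25 * (1 + C ^ 2)) * (6 / (1 - 1/4)) ^ 2 with hA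
  have hA0 : 0 < A := by positivity
  refine ⟨C + A * 4, by positivity, fun σ ℓ hℓ => ?_⟩
  have hℓR : (1:ℝ) ≤ ℓ := by exact_mod_cast hℓ
  have hℓ0 : (0:ℝ) < ℓ := by linarith
  set x : ℝ := (ℓ:ℝ) ^ (4/7:ℝ) with hx
  have hx1 : 1 ≤ x := Real.one_le_rpow hℓR (by norm_num)
  obtain ⟨h1, h2, h3⟩ := ceil_bd hx1
  have h := len_upper hC (by norm_num) (by norm_num) hU σ h1 hℓ
  rw [← hA] at h
  refine h.trans ?_
  have e1 : (⌈x⌉₊:ℝ) ^ (-(1/4:ℝ)) ≤ (ℓ:ℝ) ^ (-(1/7:ℝ)) := by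
    refine (rpow_neg_le (by linarith) h2 (by norm_num)).trans (le_of_eq ?_)
    rw [hx, ← Real.rpow_mul hℓ0.le]
    norm_num
  have e2 : (⌈x⌉₊:ℝ) ^ (2 - 2 * (1/4:ℝ)) ≤ 4 * (ℓ:ℝ) ^ (6/7:ℝ) := by
    have e3 : (⌈x⌉₊:ℝ) ^ (2 - 2 * (1/4:ℝ)) ≤ (2 * x) ^ (2 - 2 * (1/4:ℝ)) :=
      Real.rpow_le_rpow (by positivity) h3 (by norm_num)
    rw [Real.mul_rpow (by norm_num) (by linarith)] at e3
    have e4 : (2:ℝ) ^ (2 - 2 * (1/4:ℝ)) ≤ 4 := by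
      have := Real.rpow_le_rpow_of_exponent_le (by norm_num : (1:ℝ) ≤ 2)
        (by norm_num : (2 - 2 * (1/4:ℝ)) ≤ 2)
      norm_num at this ⊢
      exact this
    have e5 : x ^ (2 - 2 * (1/4:ℝ)) = (ℓ:ℝ) ^ (6/7:ℝ) := by
      rw [hx, ← Real.rpow_mul hℓ0.le]
      norm_num
    rw [e5] at e3
    exact e3.trans (mul_le_mul_of_nonneg_right e4 (Real.rpow_nonneg hℓ0.le _))
  have e6 : (ℓ:ℝ) ^ (6/7:ℝ) / ℓ = (ℓ:ℝ) ^ (-(1/7:ℝ)) := by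
    rw [← Real.rpow_sub_one hℓ0.ne']
    norm_num
  have e7 : A * (⌈x⌉₊:ℝ) ^ (2 - 2 * (1/4:ℝ)) / ℓ ≤ A * 4 * (ℓ:ℝ) ^ (-(1/7:ℝ)) := by
    have e9 := div_le_div_of_nonneg_right (mul_le_mul_of_nonneg_left e2 hA0.le) hℓ0.le
    refine e9.trans (le_of_eq ?_)
    rw [← e6]
    ring
  have e8 := mul_le_mul_of_nonneg_left e1 hC.le
  rw [add_mul]
  linarith

/-- the scale of a length -/
theorem scale {c : ℝ} (hc : 0 < c) (hc1 : c ≤ 1) {ℓ : ℕ} (hℓ : 1 ≤ ℓ) :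
    ∃ a : ℕ, 1 ≤ a ∧ (ℓ:ℝ) ≤ c * (a:ℝ) ^ (7/4:ℝ) ∧
      (a:ℝ) ≤ 2 * (1/c) ^ (4/7:ℝ) * (ℓ:ℝ) ^ (4/7:ℝ) := by
  have hℓR : (1:ℝ) ≤ ℓ := by exact_mod_cast hℓ
  have hℓ0 : (0:ℝ) < ℓ := by linarith
  have h1c : 1 ≤ 1 / c := by rw [le_div_iff₀ hc]; linarith
  set x : ℝ := (1 / c * ℓ) ^ (4/7:ℝ) with hx
  have hx1 : 1 ≤ x := Real.one_le_rpow (by nlinarith) (by norm_num)
  obtain ⟨h1, h2, h3⟩ := ceil_bd hx1
  refine ⟨⌈x⌉₊, h1, ?_, ?_⟩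
  · have e1 : x ^ (7/4:ℝ) ≤ (⌈x⌉₊:ℝ) ^ (7/4:ℝ) :=
      Real.rpow_le_rpow (by linarith) h2 (by norm_num)
    have e2 : x ^ (7/4:ℝ) = 1 / c * ℓ := by
      rw [hx, ← Real.rpow_mul (by positivity)]
      norm_num
    rw [e2] at e1
    calc (ℓ:ℝ) = c * (1 / c * ℓ) := by field_simp
      _ ≤ _ := mul_le_mul_of_nonneg_left e1 hc.le
  · have h4 : x = (1/c) ^ (4/7:ℝ) * (ℓ:ℝ) ^ (4/7:ℝ) := by
      rw [hx, Real.mul_rpow (by positivity) hℓ0.le]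
    calc (⌈x⌉₊:ℝ) ≤ 2 * x := h3
      _ = _ := by rw [h4]; ring

/-- The law of the length and of the extent, lower bound. -/
theorem low_laws {c C : ℝ} (hc : 0 < c) (hC : 0 < C) (hL : LowA c (1/4)) (hU : TwoUp C (1/4)) :
    ∃ k : ℝ, 0 < k ∧
    (∀ (σ : St) (ℓ : ℕ), 1 ≤ ℓ →
      k * (ℓ:ℝ) ^ (-(1/7:ℝ)) ≤ μ.real {ω | ℓ ≤ (loop (opn ω) σ).ncard}) ∧
    (∀ (σ : St) (n : ℕ), 1 ≤ n →
      k * (n:ℝ) ^ (-(1/4:ℝ)) ≤ μ.real {ω | ∃ τ ∈ loop (opn ω) σ, (n:ℤ) ≤ sd σ.1 τ.1}) := by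
  obtain ⟨c1, hc1, h⟩ := low_inf hc hC hL hU
  set c' : ℝ := min c1 1 with hc'
  have hc'0 : 0 < c' := lt_min hc1 one_pos
  have hc'1 : c' ≤ 1 := min_le_right _ _
  have hcc : c' ≤ c1 := min_le_left _ _
  set D : ℝ := 2 * (1/c') ^ (4/7:ℝ) with hD
  have hD0 : 0 < D := by positivity
  refine ⟨min c' (c' * D ^ (-(1/4:ℝ))), by positivity, ?_, ?_⟩
  · intro σ ℓ hℓ
    have hℓR : (1:ℝ) ≤ ℓ := by exact_mod_cast hℓ
    have hℓ0 : (0:ℝ) < ℓ := by linarith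
    obtain ⟨a, ha, h1, h2⟩ := scale hc'0 hc'1 hℓ
    have haR : (1:ℝ) ≤ a := by exact_mod_cast ha
    rw [← hD] at h2
    have h3 : μ.real {ω | ∃ T : Finset St,
        (c1 * (a:ℝ) ^ (7/4:ℝ) ≤ T.card) ∧ ∀ τ ∈ T, τ ∈ loop (opn ω) σ ∧
          Far σ.1 (31 * a) τ.1 ∧ ¬ Far σ.1 (34 * a) τ.1} ≤
        μ.real {ω | ℓ ≤ (loop (opn ω) σ).ncard} := by
      unfold Measure.real
      apply ENNReal.toReal_mono (measure_ne_top _ _)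
      apply measure_mono_ae
      filter_upwards [closed_ae (by norm_num) hU σ] with ω hω
      rintro ⟨T, hT, hT2⟩
      show ℓ ≤ (loop (opn ω) σ).ncard
      have h4 : (↑T : Set St) ⊆ loop (opn ω) σ := fun τ hτ => (hT2 τ hτ).1
      have h5 := Set.ncard_le_ncard h4 (loop_finite hω)
      rw [Set.ncard_coe_finset] at h5
      have h6 : (ℓ:ℝ) ≤ T.card := by
        refine h1.trans (le_trans ?_ hT)
        exact mul_le_mul_of_nonneg_right hcc (Real.rpow_nonneg (by linarith) _)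
      have h7 : ℓ ≤ T.card := by exact_mod_cast h6
      exact h7.trans h5
    refine le_trans ?_ ((h σ a ha).trans h3)
    have h4 : (D * (ℓ:ℝ) ^ (4/7:ℝ)) ^ (-(1/4:ℝ)) ≤ (a:ℝ) ^ (-(1/4:ℝ)) :=
      rpow_neg_le (by linarith) h2 (by norm_num)
    rw [Real.mul_rpow hD0.le (by positivity), ← Real.rpow_mul hℓ0.le] at h4
    norm_num at h4
    have hp : (0:ℝ) ≤ (a:ℝ) ^ (-(1/4:ℝ)) := Real.rpow_nonneg (by linarith) _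
    calc min c' (c' * D ^ (-(1/4:ℝ))) * (ℓ:ℝ) ^ (-(1/7:ℝ))
        ≤ (c' * D ^ (-(1/4:ℝ))) * (ℓ:ℝ) ^ (-(1/7:ℝ)) :=
          mul_le_mul_of_nonneg_right (min_le_right _ _) (Real.rpow_nonneg hℓ0.le _)
      _ = c' * (D ^ (-(1/4:ℝ)) * (ℓ:ℝ) ^ (-(1/7:ℝ))) := by ring
      _ ≤ c' * (a:ℝ) ^ (-(1/4:ℝ)) := by
          apply mul_le_mul_of_nonneg_left _ hc'0.le
          norm_num
          exact h4
      _ ≤ c1 * (a:ℝ) ^ (-(1/4:ℝ)) := mul_le_mul_of_nonneg_right hcc hp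
  · intro σ n hn
    have hnR : (1:ℝ) ≤ n := by exact_mod_cast hn
    have hp : (0:ℝ) ≤ (n:ℝ) ^ (-(1/4:ℝ)) := Real.rpow_nonneg (by linarith) _
    have h1 : min c' (c' * D ^ (-(1/4:ℝ))) ≤ c1 := (min_le_left _ _).trans hcc
    refine (mul_le_mul_of_nonneg_right h1 hp).trans ((h σ n hn).trans (measureReal_mono ?_))
    rintro ω ⟨T, hT, hT2⟩
    have h2 : (0:ℝ) < T.card := lt_of_lt_of_le (by positivity) hT
    have h3 : 0 < T.card := by exact_mod_cast h2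
    obtain ⟨τ, hτ⟩ := Finset.card_pos.1 h3
    obtain ⟨h4, h5, -⟩ := hT2 τ hτ
    refine ⟨τ, h4, ?_⟩
    rw [far_iff] at h5
    omega

/-- The law of the extent, upper bound. -/
theorem ext_up {C : ℝ} (hC : 0 < C) (hU : TwoUp C (1/4)) : ∃ K : ℝ, 0 < K ∧
    ∀ (σ : St) (n : ℕ), 1 ≤ n →
      μ.real {ω | ∃ τ ∈ loop (opn ω) σ, (n:ℤ) ≤ sd σ.1 τ.1} ≤ K * (n:ℝ) ^ (-(1/4:ℝ)) := by
  refine ⟨2 * C + 1, by positivity, fun σ n hn => ?_⟩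
  have hnR : (1:ℝ) ≤ n := by exact_mod_cast hn
  have hp : (0:ℝ) ≤ (n:ℝ) ^ (-(1/4:ℝ)) := Real.rpow_nonneg (by linarith) _
  rcases Nat.lt_or_ge n 2 with h1 | h1
  · have h2 : n = 1 := by omega
    subst h2
    have e : ((1:ℕ):ℝ) ^ (-(1/4:ℝ)) = 1 := by norm_num
    rw [e, mul_one]
    exact measureReal_le_one.trans (by linarith)
  · have h2 := law_two hU (u := σ.1) (f := face σ) (k := (n:ℤ) - 1) (by omega) (inc_face σ)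
    have h3 : μ.real {ω | ∃ τ ∈ loop (opn ω) σ, (n:ℤ) ≤ sd σ.1 τ.1} ≤
        μ.real {ω | Two σ.1 (face σ) ((n:ℤ) - 1) (opn ω)} := by
      refine measureReal_mono ?_
      rintro ω ⟨τ, hτ, hd⟩
      apply two_of_conn (by omega) (conn_of_mem hτ)
      rw [far_iff]
      omega
    refine h3.trans (h2.trans ?_)
    have hn2 : (2:ℝ) ≤ n := by exact_mod_cast h1
    have h4 : (((n:ℤ) - 1 : ℤ) : ℝ) ^ (-(1/4:ℝ)) ≤ ((n:ℝ) / 2) ^ (-(1/4:ℝ)) := by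
      apply rpow_neg_le (by linarith) _ (by norm_num)
      push_cast
      linarith
    have h5 : ((n:ℝ) / 2) ^ (-(1/4:ℝ)) ≤ 2 * (n:ℝ) ^ (-(1/4:ℝ)) := by
      rw [Real.div_rpow (by linarith) (by norm_num), Real.rpow_neg (by norm_num : (0:ℝ) ≤ 2),
        div_inv_eq_mul, mul_comm]
      apply mul_le_mul_of_nonneg_right _ hp
      have := Real.rpow_le_rpow_of_exponent_le (by norm_num : (1:ℝ) ≤ 2)
        (by norm_num : (1/4:ℝ) ≤ 1)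
      rwa [Real.rpow_one] at this
    have h6 := mul_le_mul_of_nonneg_left (h4.trans h5) hC.le
    nlinarith

/-- The number of loops. -/
theorem count_laws {c C : ℝ} (hc : 0 < c) (hC : 0 < C) (hL : LowA c (1/4))
    (hU : TwoUp C (1/4)) : ∃ k K : ℝ, 0 < k ∧ 0 < K ∧
    (∀ n ℓ : ℕ, 1 ≤ n → 1 ≤ ℓ →
      ∫ ω, (cntL n ℓ (opn ω) : ℝ) ∂μ ≤ K * ((n:ℝ) ^ 2 * (ℓ:ℝ) ^ (-(8/7:ℝ)))) ∧
    (∀ n ℓ : ℕ, 1 ≤ ℓ → (ℓ:ℝ) ≤ k * (n:ℝ) ^ (7/4:ℝ) →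
      k * ((n:ℝ) ^ 2 * (ℓ:ℝ) ^ (-(8/7:ℝ))) ≤ ∫ ω, (cntL n ℓ (opn ω) : ℝ) ∂μ ∧
      μ.real {ω | (cntL n ℓ (opn ω) : ℝ) ≤ k * ((n:ℝ) ^ 2 * (ℓ:ℝ) ^ (-(8/7:ℝ)))} ≤
        Real.exp (-(k * ((n:ℝ) ^ 2 * (ℓ:ℝ) ^ (-(8/7:ℝ)))))) := by
  obtain ⟨K1, hK1, hup⟩ := len_up hC hU
  obtain ⟨c1, hc1, hgd⟩ := pr_Gd hc hC hL hU
  set c' : ℝ := min c1 1 with hc'
  have hc'0 : 0 < c' := lt_min hc1 one_pos
  have hc'1 : c' ≤ 1 := min_le_right _ _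
  have hcc : c' ≤ c1 := min_le_left _ _
  set D : ℝ := 2 * (1/c') ^ (4/7:ℝ) with hD
  have hD0 : 0 < D := by positivity
  have hD2 : 2 ≤ D := by
    have h1c : 1 ≤ 1 / c' := by rw [le_div_iff₀ hc'0]; linarith
    have := Real.one_le_rpow h1c (by norm_num : (0:ℝ) ≤ 4/7)
    rw [hD]; linarith
  set k : ℝ := min (c' / 4 * (1 / (100 * D)) ^ 2) ((1 / (100 * D)) ^ (7/4:ℝ)) with hk
  have hk0 : 0 < k := by positivity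
  refine ⟨k, 36 * K1, hk0, by positivity, ?_, ?_⟩
  · intro n ℓ hn hℓ
    have hℓR : (1:ℝ) ≤ ℓ := by exact_mod_cast hℓ
    have hℓ0 : (0:ℝ) < ℓ := by linarith
    have hnR : (1:ℝ) ≤ n := by exact_mod_cast hn
    refine (mean_upper hℓ (fun σ => hup σ ℓ hℓ)).trans ?_
    have e6 : (ℓ:ℝ) ^ (-(1/7:ℝ)) / ℓ = (ℓ:ℝ) ^ (-(8/7:ℝ)) := by
      rw [← Real.rpow_sub_one hℓ0.ne']
      norm_num
    have e7 : (2 * (n:ℝ) + 1) ^ 2 ≤ 9 * (n:ℝ) ^ 2 := by nlinarith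
    have e8 : (0:ℝ) ≤ (ℓ:ℝ) ^ (-(8/7:ℝ)) := Real.rpow_nonneg hℓ0.le _
    calc 4 * (2 * (n:ℝ) + 1) ^ 2 * (K1 * (ℓ:ℝ) ^ (-(1/7:ℝ))) / ℓ
        = 4 * K1 * (2 * (n:ℝ) + 1) ^ 2 * ((ℓ:ℝ) ^ (-(1/7:ℝ)) / ℓ) := by ring
      _ = 4 * K1 * (2 * (n:ℝ) + 1) ^ 2 * (ℓ:ℝ) ^ (-(8/7:ℝ)) := by rw [e6]
      _ ≤ 4 * K1 * (9 * (n:ℝ) ^ 2) * (ℓ:ℝ) ^ (-(8/7:ℝ)) := by gcongr
      _ = _ := by ring
  · intro n ℓ hℓ hn
    have hℓR : (1:ℝ) ≤ ℓ := by exact_mod_cast hℓ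
    have hℓ0 : (0:ℝ) < ℓ := by linarith
    obtain ⟨a, ha, h1, h2⟩ := scale hc'0 hc'1 hℓ
    rw [← hD] at h2
    have haR : (1:ℝ) ≤ a := by exact_mod_cast ha
    -- the box contains at least one block
    have hn0 : (0:ℝ) ≤ n := Nat.cast_nonneg n
    have hna : 100 * (D * (ℓ:ℝ) ^ (4/7:ℝ)) ≤ n := by
      have e1 : (ℓ:ℝ) ≤ (1 / (100 * D)) ^ (7/4:ℝ) * (n:ℝ) ^ (7/4:ℝ) :=
        hn.trans (mul_le_mul_of_nonneg_right (min_le_right _ _) (Real.rpow_nonneg hn0 _))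
      rw [← Real.mul_rpow (by positivity) hn0] at e1
      have e2 : (ℓ:ℝ) ^ (4/7:ℝ) ≤ ((1 / (100 * D) * n) ^ (7/4:ℝ)) ^ (4/7:ℝ) :=
        Real.rpow_le_rpow hℓ0.le e1 (by norm_num)
      rw [← Real.rpow_mul (by positivity)] at e2
      norm_num at e2
      calc 100 * (D * (ℓ:ℝ) ^ (4/7:ℝ)) ≤ 100 * (D * (D⁻¹ * (1/100) * n)) := by gcongr
        _ = n := by field_simp
    have hna2 : 100 * (a:ℝ) ≤ n := by linarith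
    have hna3 : 100 * a ≤ n := by exact_mod_cast hna2
    obtain ⟨K, hK⟩ : ∃ K : ℕ, K = n / (50 * a) := ⟨_, rfl⟩
    have hKn : 50 * a * K ≤ n := by rw [hK]; exact Nat.mul_div_le n (50 * a)
    have hK2 : (n:ℝ) ≤ 100 * a * K := by
      have e1 : n < 50 * a * (K + 1) := by rw [hK]; exact Nat.lt_mul_div_succ n (by omega)
      have e2 : 1 ≤ K := by
        rw [hK, Nat.le_div_iff_mul_le (by omega)]
        omega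
      have e3 : n ≤ 100 * a * K := by nlinarith
      exact_mod_cast e3
    have hKd : 1 / (100 * D) * (n / (ℓ:ℝ) ^ (4/7:ℝ)) ≤ K := by
      have hl : (0:ℝ) < (ℓ:ℝ) ^ (4/7:ℝ) := by positivity
      have e1 : (n:ℝ) ≤ 100 * (D * (ℓ:ℝ) ^ (4/7:ℝ)) * K := by
        refine hK2.trans ?_
        gcongr
      rw [div_mul_div_comm, one_mul, div_le_iff₀ (by positivity)]
      linarith
    have hKsq : (1 / (100 * D)) ^ 2 * ((n:ℝ) ^ 2 * (ℓ:ℝ) ^ (-(8/7:ℝ))) ≤ (K:ℝ) ^ 2 := by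
      have e1 : ((n:ℝ) ^ 2 * (ℓ:ℝ) ^ (-(8/7:ℝ))) = (n / (ℓ:ℝ) ^ (4/7:ℝ)) ^ 2 := by
        have e0 : ((ℓ:ℝ) ^ (4/7:ℝ)) ^ 2 = (ℓ:ℝ) ^ (8/7:ℝ) := by
          rw [← Real.rpow_natCast ((ℓ:ℝ) ^ (4/7:ℝ)), ← Real.rpow_mul hℓ0.le]
          norm_num
        rw [div_pow, e0, Real.rpow_neg hℓ0.le]
        exact (div_eq_mul_inv _ _).symm
      rw [e1, ← mul_pow]
      exact pow_le_pow_left₀ (by positivity) hKd 2
    have hM : ℓ ≤ ⌈c1 * (a:ℝ) ^ (7/4:ℝ)⌉₊ := by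
      have e1 : (ℓ:ℝ) ≤ ⌈c1 * (a:ℝ) ^ (7/4:ℝ)⌉₊ := by
        refine h1.trans (le_trans ?_ (Nat.le_ceil _))
        exact mul_le_mul_of_nonneg_right hcc (Real.rpow_nonneg (by linarith) _)
      exact_mod_cast e1
    have hG : ∀ (z : Vtx) (S : Finset Edg), bx z (48 * a) ⊆ S →
        c' ≤ Pr (fun _ => (1/2:ℝ)) S (Gd z a ℓ) := by
      intro z S hS
      refine hcc.trans ((hgd z a S ha hS).trans (Pr_mono ok2 ?_))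
      rintro F - ⟨⟨e1, e2⟩, e3⟩
      exact ⟨⟨hM.trans e1, e2⟩, e3⟩
    obtain ⟨m1, m2⟩ := mean_lower ha hℓ hKn hG
    set L : ℝ := (n:ℝ) ^ 2 * (ℓ:ℝ) ^ (-(8/7:ℝ)) with hLd
    have hL0 : 0 ≤ L := by positivity
    have hkL : k * L ≤ c' / 4 * K ^ 2 := by
      calc k * L ≤ (c' / 4 * (1 / (100 * D)) ^ 2) * L :=
            mul_le_mul_of_nonneg_right (min_le_left _ _) hL0
        _ = c' / 4 * ((1 / (100 * D)) ^ 2 * L) := by ring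
        _ ≤ _ := mul_le_mul_of_nonneg_left hKsq (by positivity)
    constructor
    · refine le_trans ?_ m1
      have : (0:ℝ) ≤ c' * K ^ 2 := by positivity
      linarith
    · refine le_trans (measureReal_mono ?_) (m2.trans (Real.exp_le_exp.2 (by linarith)))
      intro ω hω
      have : (cntL n ℓ (opn ω) : ℝ) ≤ k * L := hω
      exact this.trans hkL

end Pool.Agent.Y993.LL
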