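import Pool.Agent.H984R3.Per.Pot
import Pool.Agent.H984R3.Per.Basic

/-!
Interface loops: elementary properties.
-/

set_option autoImplicit false

namespace Pool.Agent.Y993.LL

open H974 Finset H342P H984P

/-- The set of states visited by the interface which starts at `σ`. -/
def loop (F : Set Edg) (σ : St) : Set St := {τ | ∃ s, orb F σ s = τ}

/-- The interface through `σ` is a closed loop. -/
def Closed (F : Set Edg) (σ : St) : Prop := ∃ p, 0 < p ∧ orb F σ p = σ

theorem self_mem_loop (F : Set Edg) (σ : St) : σ ∈ loop F σ := ⟨0, rfl⟩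

theorem loop_inv {F : Set Edg} {σ : St} (h : Closed F σ) (τ : St) :
    τ ∈ loop F σ ↔ nxt F τ ∈ loop F σ := by
  constructor
  · rintro ⟨t, rfl⟩
    exact ⟨t + 1, orb_succ _ _ _⟩
  · rintro ⟨t, ht⟩
    obtain ⟨p, hp, hp2⟩ := h
    cases t with
    | succ t =>
      rw [orb_succ] at ht
      exact ⟨t, (nxt_bij _).1 ht⟩
    | zero =>
      obtain ⟨p, rfl⟩ : ∃ p', p = p' + 1 := ⟨p - 1, by omega⟩
      rw [orb_zero] at ht
      rw [orb_succ] at hp2
      exact ⟨p, (nxt_bij _).1 (hp2.trans ht)⟩

theorem const_reach {F : Set Edg} {h : Vtx → ZMod 2} (hF : ∀ e ∈ F, h (src e) = h (tgt e))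
    {u v : Vtx} (hr : Reach F u v) : h u = h v := by
  induction hr with
  | refl => rfl
  | tail _ hs ih =>
    rw [ih]
    obtain ⟨e, he, h1 | h1⟩ := hs
    · rw [← h1.1, ← h1.2]; exact hF e he
    · rw [← h1.1, ← h1.2]; exact (hF e he).symm

theorem const_dreach {F : Set Edg} {h : Vtx → ZMod 2} (hF : ∀ e ∈ F, h (dsrc e) = h (dtgt e))
    {u v : Vtx} (hr : DReach F u v) : h u = h v := by
  induction hr with
  | refl => rfl
  | tail _ hs ih =>
    rw [ih]
    obtain ⟨e, he, h1 | h1⟩ := hs
    · rw [← h1.1, ← h1.2]; exact hF e he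
    · rw [← h1.1, ← h1.2]; exact (hF e he).symm

theorem orb_reach' (F : Set Edg) (σ : St) (s : ℕ) : Reach F σ.1 (orb F σ s).1 := by
  have := orb_reach (F := F) (W := Set.univ) (σ := σ) (T := s) (fun _ _ => Set.mem_univ _) le_rfl
  rwa [Set.inter_univ] at this

theorem orb_dreach' (F : Set Edg) (σ : St) (s : ℕ) :
    DReach Fᶜ (face σ) (face (orb F σ s)) := by
  have := orb_dreach (F := F) (W := Set.univ) (σ := σ) (T := s) (fun _ _ => Set.mem_univ _) le_rfl
  rwa [← Set.compl_eq_univ_diff] at this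

/-- The loop of `σ` consists of the states whose vertex is in the open cluster of the vertex of
`σ` and whose face is in the dual cluster of the face of `σ`. -/
theorem mem_loop {F : Set Edg} {σ : St} (h : Closed F σ) (τ : St) :
    τ ∈ loop F σ ↔ Reach F σ.1 τ.1 ∧ DReach Fᶜ (face σ) (face τ) := by
  constructor
  · rintro ⟨s, rfl⟩
    exact ⟨orb_reach' F σ s, orb_dreach' F σ s⟩
  · rintro ⟨h1, h2⟩
    obtain ⟨hv, hf, hp, hv1, hf1⟩ := pot_of_inv F (loop F σ) (loop_inv h)
    have e1 := const_reach hv1 h1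
    have e2 := const_dreach (F := Fᶜ) (h := hf) (fun e he => hf1 e he) h2
    have e3 := hp σ
    have e4 := hp τ
    rw [← e1, ← e2, e3] at e4
    by_contra hcon
    rw [b2_of (self_mem_loop F σ), b2_not_of hcon] at e4
    exact absurd e4 (by decide)

theorem loop_eq {F : Set Edg} {σ τ : St} (h : Closed F σ) (hτ : τ ∈ loop F σ) :
    loop F τ = loop F σ ∧ Closed F τ := by
  obtain ⟨s, rfl⟩ := hτ
  obtain ⟨p, hp, hp2⟩ := h
  have hmul : ∀ k : ℕ, orb F σ (k * p) = σ := by
    intro k
    induction k with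
    | zero => simp
    | succ k ih => rw [Nat.succ_mul, orb_add, hp2, ih]
  have hc : Closed F (orb F σ s) := by
    refine ⟨p, hp, ?_⟩
    rw [← orb_add, Nat.add_comm, orb_add, hp2]
  refine ⟨?_, hc⟩
  ext τ
  constructor
  · rintro ⟨t, rfl⟩
    exact ⟨t + s, by rw [orb_add]⟩
  · rintro ⟨t, rfl⟩
    refine ⟨t + (s * p - s), ?_⟩
    rw [← orb_add]
    have h1 : t + (s * p - s) + s = t + s * p := by
      have : s ≤ s * p := Nat.le_mul_of_pos_right s hp
      omega
    rw [h1, orb_add, hmul]

/-- The loop is finite. -/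
theorem loop_finite {F : Set Edg} {σ : St} (h : Closed F σ) : (loop F σ).Finite := by
  obtain ⟨p, hp, hp2⟩ := h
  refine (((Finset.range p).image (orb F σ)).finite_toSet).subset ?_
  have hmul : ∀ k : ℕ, orb F σ (k * p) = σ := by
    intro k
    induction k with
    | zero => simp
    | succ k ih => rw [Nat.succ_mul, orb_add, hp2, ih]
  rintro _ ⟨s, rfl⟩
  rw [Finset.mem_coe, Finset.mem_image]
  refine ⟨s % p, Finset.mem_range.2 (Nat.mod_lt _ hp), ?_⟩
  conv_rhs => rw [← Nat.mod_add_div s p, Nat.mul_comm p, orb_add, hmul]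

/-- A state of an orbit which stays in a finite set returns. -/
theorem closed_of_bdd {F : Set Edg} {σ : St} (B : Finset Vtx) (h : ∀ s, (orb F σ s).1 ∈ B) :
    Closed F σ := by
  classical
  have hmem : ∀ s, orb F σ s ∈ B ×ˢ (Finset.univ : Finset Q4) := by
    intro s
    rw [Finset.mem_product]
    exact ⟨h s, Finset.mem_univ _⟩
  obtain ⟨i, -, j, -, hij, he⟩ := (Set.infinite_univ (α := ℕ)).exists_ne_map_eq_of_mapsTo
    (fun s _ => hmem s : Set.MapsTo (fun s => orb F σ s) Set.univ
      ((B ×ˢ (Finset.univ : Finset Q4) : Finset St) : Set St)) (Finset.finite_toSet _)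
  have key : ∀ i j : ℕ, i < j → orb F σ i = orb F σ j → ∃ p, 0 < p ∧ orb F σ p = σ := by
    intro i j hij he
    refine ⟨j - i, by omega, ?_⟩
    have h1 : (nxt F)^[i] ((nxt F)^[j - i] σ) = (nxt F)^[i] σ := by
      rw [← Function.iterate_add_apply]
      have : i + (j - i) = j := by omega
      rw [this]
      exact he.symm
    exact ((nxt_bij F).injective.iterate i) h1
  rcases Nat.lt_or_gt_of_ne hij with h1 | h1
  · exact key i j h1 he
  · exact key j i h1 he.symm

/-- The number of states of the loop is the number of steps after which it closes for the first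
time. -/
theorem period_eq {F : Set Edg} {σ : St} (h : Closed F σ) :
    Function.minimalPeriod (nxt F) σ = (loop F σ).ncard := by
  classical
  have hper : σ ∈ Function.periodicPts (nxt F) := by
    obtain ⟨p, hp, hp2⟩ := h
    exact ⟨p, hp, hp2⟩
  have hpos := Function.minimalPeriod_pos_of_mem_periodicPts hper
  have h1 : loop F σ = ↑((Finset.range (Function.minimalPeriod (nxt F) σ)).image (orb F σ)) := by
    ext τ
    rw [Finset.mem_coe, Finset.mem_image]
    constructor
    · rintro ⟨s, rfl⟩
      refine ⟨s % Function.minimalPeriod (nxt F) σ, Finset.mem_range.2 (Nat.mod_lt _ hpos), ?_⟩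
      exact Function.iterate_mod_minimalPeriod_eq
    · rintro ⟨s, -, rfl⟩
      exact ⟨s, rfl⟩
  rw [h1, Set.ncard_coe_finset, Finset.card_image_of_injOn, Finset.card_range]
  intro i hi j hj hij
  rw [Finset.coe_range, Set.mem_Iio] at hi hj
  exact Function.iterate_injOn_Iio_minimalPeriod hi hj hij

end Pool.Agent.Y993.LL
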