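import Pool.Agent.Y993.LL.Strip
import Pool.Agent.H984R3.Per.Rot

/-!
Lower bound for the probability that the loop through a given state is long.
-/

set_option autoImplicit false

namespace Pool.Agent.Y993.LL

open H974 Finset H342P H984P MeasureTheory

/-- At least `M` states at distance between `n` and `n'` are connected to `σ` inside `S`. -/
def Lng (S F : Finset Edg) (σ : St) (M : ℕ) (n n' : ℤ) : Prop :=
  ∃ T : Finset St, M ≤ T.card ∧ ∀ τ ∈ T, (Far σ.1 n τ.1 ∧ ¬ Far σ.1 n' τ.1) ∧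
    Reach (↑F) σ.1 τ.1 ∧ DReach (↑(S \ F)) (face σ) (face τ)

theorem card_ne (T : Finset Vtx) : (T.image (fun v => ((v, Q4.ne) : St))).card = T.card := by
  apply Finset.card_image_of_injective
  intro u v h
  exact (Prod.mk.inj h).1

/-- the box of the construction -/
noncomputable def S60 (a : ℕ) : Finset Edg := RE (-(60 * a : ℤ)) (60 * a) (-(60 * a : ℤ)) (60 * a)

theorem far_ctr {a : ℕ} (ha : 1 ≤ a) {v : Vtx} (hv : v ∈ ctr (32 * a, 0) a) :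
    Far (0, 0) (31 * a) v ∧ ¬ Far (0, 0) (34 * a) v := by
  rw [mem_ctr'] at hv
  unfold Far
  simp only at hv ⊢
  omega

/-- lower bound for `((0,0), ne)` -/
theorem low_ne {c C : ℝ} (hc : 0 < c) (hC : 0 < C) (hL : LowA c (1/4)) (hU : TwoUp C (1/4)) :
    ∃ c' : ℝ, 0 < c' ∧ ∀ a : ℕ, 1 ≤ a →
      c' * (a:ℝ) ^ (-(1/4:ℝ)) ≤ Pr (fun _ => (1/2:ℝ)) (S60 a)
        (fun F => Lng (S60 a) F ((0, 0), .ne) ⌈c' * (a:ℝ) ^ (7/4:ℝ)⌉₊ (31 * a) (34 * a)) := by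
  classical
  obtain ⟨c₂, hc₂, hn⟩ := nra_prob (c := c) (C := C) (s := 1/4) (t := 1/4) hc hC (by norm_num)
    (by norm_num) (by norm_num) le_rfl hL hU
  have hκ := κ0_pos
  refine ⟨min c₂ (κ0 * κ0 * (c * c₂)), by positivity, fun a ha => ?_⟩
  set c' : ℝ := min c₂ (κ0 * κ0 * (c * c₂)) with hc'
  have ha' : (1 : ℤ) ≤ a := by exact_mod_cast ha
  have haR : (1:ℝ) ≤ a := by exact_mod_cast ha
  have hX : (0:ℝ) < (a:ℝ) ^ (-(1/4:ℝ)) := Real.rpow_pos_of_pos (by linarith) _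
  have hY : (0:ℝ) < (a:ℝ) ^ (7/4:ℝ) := Real.rpow_pos_of_pos (by linarith) _
  set M : ℕ := ⌈c' * (a:ℝ) ^ (7/4:ℝ)⌉₊ with hM
  -- geometry
  have hSB : SB (-(13 * a : ℤ)) (46 * a) 0 a ⊆ S60 a := by
    rintro ⟨x, y, _ | _⟩ h
    · simp only [SB, S60, mem_RE_false] at h ⊢; omega
    · simp only [SB, S60, mem_RE_true] at h ⊢; omega
  have hNB : NB (32 * a, 0) a ⊆ S60 a := by
    rintro ⟨x, y, _ | _⟩ h
    · simp only [NB, S60, mem_RE_false] at h ⊢; omega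
    · simp only [NB, S60, mem_RE_true] at h ⊢; omega
  have hBA : BA (0, 0) a ⊆ S60 a := by
    rintro ⟨x, y, _ | _⟩ h
    · simp only [BA, S60, mem_RE_false] at h ⊢; omega
    · simp only [BA, S60, mem_RE_true] at h ⊢; omega
  have hdis : Disjoint (BA (0, 0) a) (NB (32 * a, 0) a) := by
    rw [Finset.disjoint_left]
    rintro ⟨x, y, _ | _⟩ h1 h2
    · simp only [BA, NB, mem_RE_false] at h1 h2; omega
    · simp only [BA, NB, mem_RE_true] at h1 h2; omega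
  have hVO : VV (-(13 * a : ℤ)) (46 * a) 0 a (0, 0) := by unfold VV; simp only; omega
  have hVz : ∀ v ∈ ctr (32 * a, 0) a, VV (-(13 * a : ℤ)) (46 * a) 0 a v := by
    intro v hv
    rw [mem_ctr'] at hv
    unfold VV
    simp only at hv
    omega
  set N : Finset Edg → Prop := fun F => RA (0, 0) a (↑F) ∧ M ≤ nRA (32 * a, 0) a (↑F) with hN
  have key := strip_harris (X1 := -(13 * a : ℤ)) (X2 := 46 * a) (y0 := 0) ha (by omega) (by omega)
    hSB (N := N) (by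
      rintro F G - - h ⟨h1, h2⟩
      exact ⟨h _ hVO h1, h2.trans (Tr760.nRA_mono fun v hv h3 => h v (hVz v hv) h3)⟩)
  -- probability of N
  have hloc : ∀ F : Finset Edg, nRA (32 * a, 0) a (↑F : Set Edg) =
      nRA (32 * a, 0) a (↑(F ∩ NB (32 * a, 0) a) : Set Edg) := by
    intro F
    unfold nRA
    congr 1
    apply Finset.filter_congr
    intro v hv
    rw [Finset.coe_inter]
    exact ra_inter _ _ (by exact_mod_cast BA_sub_NB ha hv)
  have hPN : Pr (fun _ => (1/2:ℝ)) (S60 a) N =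
      Pr (fun _ => (1/2:ℝ)) (BA (0, 0) a) (fun F => RA (0, 0) a (↑F)) *
      Pr (fun _ => (1/2:ℝ)) (NB (32 * a, 0) a) (fun F => M ≤ nRA (32 * a, 0) a (↑F)) := by
    rw [hN, Pr_indep hBA hNB hdis (A := fun F => RA (0, 0) a (↑F))
      (B := fun F => M ≤ nRA (32 * a, 0) a (↑F))]
    · congr 1
      · exact pr_ra_local hBA
      · apply Pr_local hNB
        intro F _
        rw [hloc F]
    · intro F _
      rw [Finset.coe_inter]
      exact ra_inter _ _ (subset_refl _)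
    · intro F _
      rw [hloc F]
  have h1 : c * (a:ℝ) ^ (-(1/4:ℝ)) ≤
      Pr (fun _ => (1/2:ℝ)) (BA (0, 0) a) (fun F => RA (0, 0) a (↑F)) := by
    refine (hL a ha).trans (le_of_eq ?_)
    apply pr_ra_local
    rintro ⟨x, y, _ | _⟩ h
    · simp only [BA, mem_RE_false] at h ⊢; push_cast; omega
    · simp only [BA, mem_RE_true] at h ⊢; push_cast; omega
  have h2 : c₂ ≤ Pr (fun _ => (1/2:ℝ)) (NB (32 * a, 0) a)
      (fun F => M ≤ nRA (32 * a, 0) a (↑F)) := by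
    have h3 := hn (32 * a, 0) a ha
    rw [show (-(2 * (1/4:ℝ) - 2 * (1/4))) = 0 by norm_num, Real.rpow_zero, mul_one] at h3
    refine h3.trans (Pr_mono ok2 ?_)
    intro F _ h4
    rw [hM, Nat.ceil_le]
    refine le_trans ?_ h4
    rw [show (2 - 1/4 : ℝ) = 7/4 by norm_num]
    exact mul_le_mul_of_nonneg_right (min_le_left _ _) hY.le
  have h3 : κ0 * κ0 * (c * c₂) * (a:ℝ) ^ (-(1/4:ℝ)) ≤
      κ0 * κ0 * Pr (fun _ => (1/2:ℝ)) (S60 a) N := by
    rw [hPN]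
    have h4 := mul_le_mul h1 h2 hc₂.le ((mul_pos hc hX).le.trans h1)
    calc κ0 * κ0 * (c * c₂) * (a:ℝ) ^ (-(1/4:ℝ)) =
        κ0 * κ0 * (c * (a:ℝ) ^ (-(1/4:ℝ)) * c₂) := by ring
      _ ≤ _ := mul_le_mul_of_nonneg_left h4 (by positivity)
  have h0 : c' * (a:ℝ) ^ (-(1/4:ℝ)) ≤ κ0 * κ0 * (c * c₂) * (a:ℝ) ^ (-(1/4:ℝ)) :=
    mul_le_mul_of_nonneg_right (min_le_right _ _) hX.le
  refine h0.trans (h3.trans (key.trans (Pr_mono ok2 ?_)))
  rintro F hF ⟨⟨hO, hn2⟩, hCL, hCU⟩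
  obtain ⟨p, q, hpq⟩ := strip_conn ha hCL hCU
  obtain ⟨o1, o2⟩ := hpq _ hVO hO
  refine ⟨((ctr (32 * a, 0) a).filter (fun v => RA v a (↑F))).image
    (fun v => ((v, Q4.ne) : St)), ?_, ?_⟩
  · rw [card_ne]
    exact hn2
  · intro τ hτ
    rw [Finset.mem_image] at hτ
    obtain ⟨v, hv, rfl⟩ := hτ
    rw [Finset.mem_filter] at hv
    obtain ⟨v1, v2⟩ := hpq v (hVz v hv.1) hv.2
    refine ⟨far_ctr ha hv.1, ?_, ?_⟩
    · exact (o1.trans v1.symm).mono Set.inter_subset_left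
    · have : DReach (↑(SB (-(13 * a : ℤ)) (46 * a) 0 a) \ ↑F) (0, 0) v := o2.trans v2.symm
      refine this.mono ?_
      rintro e ⟨he, he'⟩
      rw [Finset.coe_sdiff]
      exact ⟨hSB he, he'⟩

/-! ### symmetries -/

theorem dreach_rM {G : Finset Edg} {f g : Vtx} (h : DReach (↑G : Set Edg) f g) :
    DReach (↑(rM G) : Set Edg) (rF f) (rF g) := by
  induction h with
  | refl => exact DReach.refl _ _
  | tail _ hs ih =>
    refine ih.trans (DAdj.reach ?_)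
    obtain ⟨e, he, hc⟩ := hs
    refine ⟨rE e, ?_, ?_⟩
    · rw [Finset.mem_coe, p14_mem]
      exact he
    · rcases p14_dends e with ⟨h1, h2⟩ | ⟨h1, h2⟩ <;> rcases hc with ⟨h3, h4⟩ | ⟨h3, h4⟩ <;>
        rw [h1, h2, h3, h4] <;> simp

theorem rM_sdiff (S F : Finset Edg) : rM (S \ F) = rM S \ rM F := by
  ext e
  rw [Finset.mem_sdiff, p14_mem', p14_mem', p14_mem', Finset.mem_sdiff]

theorem far_rV {u w : Vtx} {m : ℤ} : Far (rV u) m (rV w) ↔ Far u m w := by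
  unfold Far
  simp only [rV, Equiv.coe_fn_mk]
  omega

theorem rQ_inj : Function.Injective rQ := by
  intro x y h
  cases x <;> cases y <;> simp_all [rQ]

theorem rS_inj : Function.Injective rS := by
  intro σ τ h
  unfold rS at h
  have h1 := (Prod.mk.inj h).1
  have h2 := (Prod.mk.inj h).2
  exact Prod.ext (rV.injective h1) (rQ_inj h2)

theorem Lng_rot {S F : Finset Edg} {σ : St} {M : ℕ} {n n' : ℤ} (h : Lng S F σ M n n') :
    Lng (rM S) (rM F) (rS σ) M n n' := by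
  classical
  obtain ⟨T, hT, h2⟩ := h
  refine ⟨T.image rS, ?_, ?_⟩
  · rw [Finset.card_image_of_injective _ rS_inj]
    exact hT
  · intro τ hτ
    rw [Finset.mem_image] at hτ
    obtain ⟨ρ, hρ, rfl⟩ := hτ
    obtain ⟨⟨h3, h4⟩, h5, h6⟩ := h2 ρ hρ
    refine ⟨⟨far_rV.2 h3, fun h => h4 (far_rV.1 h)⟩, rot_reach.2 h5, ?_⟩
    rw [rot_face, rot_face, ← rM_sdiff]
    exact dreach_rM h6

theorem pr_Lng_rot (S : Finset Edg) (σ : St) (M : ℕ) (n n' : ℤ) :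
    Pr (fun _ => (1/2:ℝ)) S (fun F => Lng S F σ M n n') ≤
      Pr (fun _ => (1/2:ℝ)) (rM S) (fun F => Lng (rM S) F (rS σ) M n n') := by
  rw [rot_pr]
  exact Pr_mono ok2 fun F _ h => Lng_rot h

/-- translation of a state -/
def tS (s t : ℤ) (σ : St) : St := ((σ.1.1 + s, σ.1.2 + t), σ.2)

theorem tS_inj (s t : ℤ) : Function.Injective (tS s t) := by
  rintro ⟨⟨x, y⟩, q⟩ ⟨⟨x', y'⟩, q'⟩ h
  unfold tS at h
  simp only [Prod.mk.injEq, add_left_inj] at h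
  simp only [Prod.mk.injEq]
  exact h

theorem tS_face (s t : ℤ) (σ : St) : face (tS s t σ) = (trl s t).ψ (face σ) := by
  obtain ⟨⟨x, y⟩, q⟩ := σ
  cases q <;> (apply Prod.ext <;> simp only [tS, face, trl_ψ] <;> omega)

theorem Lng_trl {S F : Finset Edg} {σ : St} {M : ℕ} {n n' : ℤ} (s t : ℤ)
    (h : Lng S F σ M n n') :
    Lng ((trl s t).mp S) ((trl s t).mp F) (tS s t σ) M n n' := by
  classical
  obtain ⟨T, hT, h2⟩ := h
  refine ⟨T.image (tS s t), ?_, ?_⟩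
  · rw [Finset.card_image_of_injective _ (tS_inj s t)]
    exact hT
  · intro τ hτ
    rw [Finset.mem_image] at hτ
    obtain ⟨ρ, hρ, rfl⟩ := hτ
    obtain ⟨⟨h3, h4⟩, h5, h6⟩ := h2 ρ hρ
    refine ⟨⟨?_, ?_⟩, ?_, ?_⟩
    · unfold Far tS at *; simp only at *; omega
    · unfold Far tS at *; simp only at *; omega
    · rw [LSym.coe_mp]
      exact (trl s t).reach h5
    · rw [tS_face, tS_face, ← LSym.mp_sdiff, LSym.coe_mp]
      exact dreach_trl h6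

theorem pr_Lng_trl (S : Finset Edg) (σ : St) (M : ℕ) (n n' : ℤ) (s t : ℤ) :
    Pr (fun _ => (1/2:ℝ)) S (fun F => Lng S F σ M n n') ≤
      Pr (fun _ => (1/2:ℝ)) ((trl s t).mp S)
        (fun F => Lng ((trl s t).mp S) F (tS s t σ) M n n') := by
  rw [LSym.pr]
  exact Pr_mono ok2 fun F _ h => Lng_trl s t h

theorem rM_S60 (a : ℕ) : rM (S60 a) = S60 a := by
  unfold S60
  rw [rot_RE, neg_neg]

/-- The lower bound for all states. -/
theorem low_all {c' : ℝ} {a : ℕ} {M : ℕ} {n n' : ℤ}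
    (h : c' ≤ Pr (fun _ => (1/2:ℝ)) (S60 a) (fun F => Lng (S60 a) F ((0, 0), .ne) M n n'))
    (σ : St) : ∃ S : Finset Edg, c' ≤ Pr (fun _ => (1/2:ℝ)) S (fun F => Lng S F σ M n n') := by
  have h1 := h.trans (pr_Lng_rot _ _ _ _ _)
  rw [rM_S60] at h1
  have h2 := h1.trans (pr_Lng_rot _ _ _ _ _)
  rw [rM_S60] at h2
  have h3 := h2.trans (pr_Lng_rot _ _ _ _ _)
  rw [rM_S60] at h3
  obtain ⟨⟨x, y⟩, q⟩ := σ
  cases q
  · exact ⟨_, by simpa [tS] using h.trans (pr_Lng_trl _ _ _ _ _ x y)⟩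
  · exact ⟨_, by simpa [tS, rS, rV, rQ] using h1.trans (pr_Lng_trl _ _ _ _ _ x y)⟩
  · exact ⟨_, by simpa [tS, rS, rV, rQ] using h2.trans (pr_Lng_trl _ _ _ _ _ x y)⟩
  · exact ⟨_, by simpa [tS, rS, rV, rQ] using h3.trans (pr_Lng_trl _ _ _ _ _ x y)⟩

theorem conn_of_fin {S : Finset Edg} {ω : sqLattice.edgeSet → Bool} {σ τ : St}
    (h1 : Reach (↑(FF S ω)) σ.1 τ.1) (h2 : DReach (↑(S \ FF S ω)) (face σ) (face τ)) :
    Conn (opn ω) σ τ := by
  refine ⟨h1.mono ?_, h2.mono ?_⟩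
  · rw [FF_coe]; exact Set.inter_subset_left
  · intro e he
    rw [Finset.mem_coe, Finset.mem_sdiff, mem_FF] at he
    intro h3
    exact he.2 ⟨he.1, h3⟩

/-- The lower bound on the infinite lattice. -/
theorem low_inf {c C : ℝ} (hc : 0 < c) (hC : 0 < C) (hL : LowA c (1/4)) (hU : TwoUp C (1/4)) :
    ∃ c' : ℝ, 0 < c' ∧ ∀ (σ : St) (a : ℕ), 1 ≤ a →
      c' * (a:ℝ) ^ (-(1/4:ℝ)) ≤ μ.real {ω | ∃ T : Finset St,
        (c' * (a:ℝ) ^ (7/4:ℝ) ≤ T.card) ∧ ∀ τ ∈ T, τ ∈ loop (opn ω) σ ∧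
          Far σ.1 (31 * a) τ.1 ∧ ¬ Far σ.1 (34 * a) τ.1} := by
  obtain ⟨c', hc', h⟩ := low_ne hc hC hL hU
  refine ⟨c', hc', fun σ a ha => ?_⟩
  obtain ⟨S, hS⟩ := low_all (h a ha) σ
  refine hS.trans (le_law ?_)
  filter_upwards [closed_ae (by norm_num) hU σ] with ω hω
  rintro ⟨T, hT, hT2⟩
  refine ⟨T, (Nat.le_ceil _).trans (by exact_mod_cast hT), fun τ hτ => ?_⟩
  obtain ⟨h1, h2, h3⟩ := hT2 τ hτ
  exact ⟨(mem_loop hω τ).2 (conn_of_fin h2 h3), h1⟩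

end Pool.Agent.Y993.LL
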