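import Pool.Agent.Y993.LL.Sum2
import Pool.Agent.H984R3.Per.FinalSharp

/-!
Macroscopic loops.
-/

set_option autoImplicit false

namespace Pool.Agent.Y993.LL

open H974 Finset H342P H984P MeasureTheory

/-! ### translations -/

theorem tS_ae (s t : ℤ) (σ : St) : ae (tS s t σ) = (trl s t).φ (ae σ) := by
  obtain ⟨⟨x, y⟩, c⟩ := σ
  cases c <;> simp only [tS, H984P.ae, trl_φ] <;> (congr 1 <;> ring_nf)

theorem tS_mv (s t : ℤ) (σ : St) : mv (tS s t σ) = tS s t (mv σ) := by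
  obtain ⟨⟨x, y⟩, c⟩ := σ
  cases c <;> simp only [tS, mv] <;> (congr 2 <;> ring_nf)

theorem tS_rt (s t : ℤ) (σ : St) : rt (tS s t σ) = tS s t (rt σ) := by
  obtain ⟨⟨x, y⟩, c⟩ := σ
  cases c <;> rfl

theorem trl_mem (s t : ℤ) {F : Finset Edg} {e : Edg} :
    (trl s t).φ e ∈ (trl s t).mp F ↔ e ∈ F := by
  rw [LSym.mem_mp, Equiv.symm_apply_apply]

theorem tS_nxt (s t : ℤ) (F : Finset Edg) (σ : St) :
    nxt (↑((trl s t).mp F)) (tS s t σ) = tS s t (nxt (↑F) σ) := by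
  by_cases h : ae σ ∈ (↑F : Set Edg)
  · have h1 : ae (tS s t σ) ∈ (↑((trl s t).mp F) : Set Edg) := by
      rw [tS_ae, Finset.mem_coe, trl_mem]
      exact h
    rw [nxt_open h, nxt_open h1, tS_mv]
  · have h1 : ae (tS s t σ) ∉ (↑((trl s t).mp F) : Set Edg) := by
      rw [tS_ae, Finset.mem_coe, trl_mem]
      exact h
    rw [nxt_closed h, nxt_closed h1, tS_rt]

theorem tS_orb (s t : ℤ) (F : Finset Edg) (σ : St) (m : ℕ) :
    orb (↑((trl s t).mp F)) (tS s t σ) m = tS s t (orb (↑F) σ m) := by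
  induction m with
  | zero => rfl
  | succ m ih => rw [orb_succ, orb_succ, ih, tS_nxt]

/-- a fast subpath in the box of radius `n` around `u` -/
def Fast (u : Vtx) (n M : ℕ) (R : ℤ) (F : Set Edg) : Prop :=
  ∃ (σ : St) (t : ℕ), σ.1 ∈ ctr u n ∧ Far σ.1 R (orb F σ t).1 ∧ t < M

theorem ae_near {w : St} {v : Vtx} {R : ℤ} (h : ¬ Far v R w.1) : ae w ∈ bx v R := by
  unfold Far at h
  push Not at h
  obtain ⟨⟨x, y⟩, q⟩ := w
  unfold bx
  simp only at h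
  cases q
  · rw [ae_ne, mem_RE_true]; omega
  · rw [ae_nw, mem_RE_false]; omega
  · rw [ae_sw, mem_RE_true]; omega
  · rw [ae_se, mem_RE_false]; omega

/-- A fast subpath is determined by the edges near its starting point. -/
theorem fast_congr {F G : Set Edg} {σ : St} {R : ℤ} {M : ℕ}
    (hFG : ∀ e ∈ bx σ.1 R, (e ∈ F ↔ e ∈ G)) (h : ∃ t, Far σ.1 R (orb F σ t).1 ∧ t < M) :
    ∃ t, Far σ.1 R (orb G σ t).1 ∧ t < M := by
  classical
  obtain ⟨t, hf, hM⟩ := h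
  have hex : ∃ t, Far σ.1 R (orb F σ t).1 := ⟨t, hf⟩
  have ht0 : Nat.find hex ≤ t := Nat.find_min' hex hf
  have hcong : orb G σ (Nat.find hex) = orb F σ (Nat.find hex) := by
    refine orb_congr (T := Nat.find hex) ?_ le_rfl
    intro e he
    rw [mem_Exm] at he
    obtain ⟨s, hs, rfl⟩ := he
    exact hFG _ (ae_near (Nat.find_min hex hs))
  refine ⟨Nat.find hex, ?_, by omega⟩
  rw [hcong]
  exact Nat.find_spec hex

theorem FF_mem {S : Finset Edg} {ω : sqLattice.edgeSet → Bool} {e : Edg} (he : e ∈ S) :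
    e ∈ opn ω ↔ e ∈ (↑(FF S ω) : Set Edg) := by
  rw [Finset.mem_coe, mem_FF]
  exact ⟨fun h => ⟨he, h⟩, fun h => h.2⟩

theorem bx_ctr {u v : Vtx} {n : ℕ} {R K : ℤ} (hv : v ∈ ctr u n) (h : n + R ≤ K) :
    bx v R ⊆ bx u K := by
  rw [mem_ctr'] at hv
  exact bx_sub (by omega) (by omega) (by omega) (by omega)

/-- localisation of a fast subpath -/
theorem Fast_FF {u : Vtx} {n M : ℕ} {R : ℤ} (hR : R ≤ n) {ω : sqLattice.edgeSet → Bool}
    (h : Fast u n M R (opn ω)) : Fast u n M R (↑(FF (bx u (5 * n)) ω)) := by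
  obtain ⟨σ, t, hσ, hf, hM⟩ := h
  obtain ⟨t', h1, h2⟩ := fast_congr (G := (↑(FF (bx u (5 * n)) ω) : Set Edg))
    (fun e he => FF_mem (bx_ctr hσ (by omega) he)) ⟨t, hf, hM⟩
  exact ⟨σ, t', hσ, h1, h2⟩

theorem pr_Fast {u : Vtx} {n M a : ℕ} {R : ℤ} (h : 3 * R + 60 * a ≤ 4 * n) :
    Pr (fun _ => (1/2:ℝ)) (bx u (5 * n)) (fun F => Fast u n M R (↑F)) ≤
      Pr (fun _ => (1/2:ℝ)) (RE 0 (10 * n : ℕ) 0 (10 * n : ℕ)) (fun F => ∃ (σ : St) (t : ℕ),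
      inR (3 * R + 60 * a) ((10 * n : ℕ) - 3 * R - 60 * a) (3 * R + 60 * a)
        ((10 * n : ℕ) - 3 * R - 60 * a) σ.1 ∧
      Far σ.1 R (orb (↑F) σ t).1 ∧ t < M) := by
  have e1 : bx u (5 * n) = (trl (u.1 - 5 * n) (u.2 - 5 * n)).mp
      (RE 0 (10 * n : ℕ) 0 (10 * n : ℕ)) := by
    rw [trl_RE]
    unfold bx
    congr 1 <;> push_cast <;> ring
  rw [e1, LSym.pr]
  apply Pr_mono ok2
  rintro F hF ⟨σ, t, h1, h2, h3⟩
  have h5 : tS (u.1 - 5 * n) (u.2 - 5 * n) (tS (5 * n - u.1) (5 * n - u.2) σ) = σ := by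
    obtain ⟨⟨x, y⟩, q⟩ := σ
    unfold tS
    simp only [Prod.mk.injEq, and_true]
    constructor <;> ring
  refine ⟨tS (5 * n - u.1) (5 * n - u.2) σ, t, ?_, ?_, h3⟩
  · rw [mem_ctr'] at h1
    unfold inR tS
    push_cast
    omega
  · rw [← h5, tS_orb] at h2
    generalize orb (↑F) (tS (5 * n - u.1) (5 * n - u.2) σ) t = w at h2 ⊢
    unfold Far at h2 ⊢
    simp only [tS] at h2 ⊢
    omega

/-- No macroscopic sub-path is fast, finite volume version. -/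
theorem fast_small {c C : ℝ} (hc : 0 < c) (hC : 0 < C) (hL : LowA c (1/4)) (hU : TwoUp C (1/4))
    {δ ε : ℝ} (hδ : 0 < δ) (hδ1 : δ ≤ 1) (hε : 0 < ε) :
    ∃ lam : ℝ, 0 < lam ∧ ∃ n0 : ℕ, ∀ n : ℕ, n0 ≤ n → ∃ (M : ℕ) (R : ℤ), 1 ≤ R ∧ (R:ℝ) ≤ δ * n ∧
      lam * (n:ℝ) ^ (7/4:ℝ) ≤ M ∧
      ∀ u : Vtx, Pr (fun _ => (1/2:ℝ)) (bx u (5 * n)) (fun F => Fast u n M R (↑F)) ≤ ε := by
  obtain ⟨c₀, hc₀, htr⟩ := trial
  obtain ⟨c₂, hc₂, hn⟩ := nra_prob (c := c) (C := C) (s := 1/4) (t := 1/4) hc hC (by norm_num)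
    (by norm_num) (by norm_num) le_rfl hL hU
  set c₁ : ℝ := min c₀ 1 with hc₁
  have hc₁0 : 0 < c₁ := lt_min hc₀ one_pos
  have htr' : ∀ (S k F0 : Finset Edg) (A y0 X Y : ℤ) (T a M : ℕ),
    1 ≤ a → F0 ⊆ S → k ⊆ S → Strand (↑F0 : Set Edg) A y0 X Y T → A ≤ X - 9 * a →
    Bl X Y a ⊆ S → ((A - 1, y0, true) : Edg) ∈ k → Exm (↑F0) (st0 A y0) T ⊆ k →
    (∀ e ∈ k, e ∈ Bl X Y a → e ∈ Exm (↑F0) (st0 A y0) T) →
    c₁ * Pr (fun _ => (1/2:ℝ)) (NB (X + 32 * a, Y) a)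
        (fun G => M ≤ nRA (X + 32 * a, Y) a (↑G)) ≤
      Pr (fun _ => (1/2:ℝ)) (S \ k) (fun G => M ≤ cnt (st0 A y0)
        (↑(Exm (↑F0) (st0 A y0) T ∪ Bl X Y a)) (↑((F0 ∩ k) ∪ G)) (ctr (X + 32 * a, Y) a)) := by
    intro S k F0 A y0 X Y T a M h0 h1 h2 h3 h4 h5 h6 h7 h8
    refine le_trans ?_ (htr S k F0 A y0 X Y T a M h0 h1 h2 h3 h4 h5 h6 h7 h8)
    exact mul_le_mul_of_nonneg_right (min_le_left _ _) (Pr_nonneg ok2 _ _)
  have hexp : ∀ a : ℕ, ((a:ℝ)) ^ (-(2 * (1/4:ℝ) - 2 * (1/4))) = 1 := by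
    intro a
    rw [show (-(2 * (1/4:ℝ) - 2 * (1/4))) = 0 by norm_num, Real.rpow_zero]
  obtain ⟨δ0, hδ0⟩ : ∃ δ0 : ℝ, δ0 = c₁ * c₂ := ⟨_, rfl⟩
  have hδ0pos : 0 < δ0 := by rw [hδ0]; positivity
  have hδ01 : δ0 ≤ 1 := by
    have f1 := hn (0, 0) 1 le_rfl
    have f2 := Pr_le_one ok2 (NB (0, 0) 1)
      (fun G => c₂ * ((1:ℕ):ℝ) ^ (2 - (1/4:ℝ)) ≤ (nRA (0, 0) 1 (↑G) : ℝ))
    rw [hexp 1, mul_one] at f1
    have f3 : c₁ ≤ 1 := min_le_right _ _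
    calc δ0 = c₁ * c₂ := hδ0
      _ ≤ 1 * 1 := mul_le_mul f3 (f1.trans f2) (by positivity) zero_le_one
      _ = 1 := one_mul 1
  obtain ⟨C', hC', hlow⟩ := low_steps
  obtain ⟨D, hD⟩ : ∃ D : ℕ, D = ⌈400 / δ⌉₊ := ⟨_, rfl⟩
  have hDδ : 400 / δ ≤ D := by rw [hD]; exact Nat.le_ceil _
  have h400 : (400:ℝ) ≤ 400 / δ := by
    rw [le_div_iff₀ hδ]; linarith
  have hD400 : (400:ℝ) ≤ D := h400.trans hDδ
  have hDδ2 : 400 ≤ D * δ := by rwa [div_le_iff₀ hδ] at hDδ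
  have hDpos : 0 < D := by
    have : (0:ℝ) < D := by linarith
    exact_mod_cast this
  obtain ⟨K', hK'pos, hK'⟩ := fs_small2 (C' * (21 * D) ^ 2 * 4) (q := 1 - δ0) (by linarith)
    (by linarith) hε
  obtain ⟨K, hK⟩ : ∃ K, K = K' + 1 := ⟨_, rfl⟩
  have hKpos : 1 ≤ K := by omega
  have hKR : (1:ℝ) ≤ K := by exact_mod_cast hKpos
  have hDK : 0 < D * K := by positivity
  refine ⟨c₂ * (1 / (2 * (D * K))) ^ (7/4:ℝ), by positivity, 10 * (D * K), fun n hn0 => ?_⟩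
  have hnR : (10:ℝ) * (D * K) ≤ n := by exact_mod_cast hn0
  have hnpos : (0:ℝ) < n := by
    have : (0:ℝ) < 10 * (D * K) := by positivity
    linarith
  obtain ⟨a, ha⟩ : ∃ a : ℕ, a = n / (D * K) := ⟨_, rfl⟩
  obtain ⟨haa, hab⟩ := fs_div hDK (show 2 * (D * K) ≤ n by omega)
  rw [← ha] at haa hab
  push_cast at haa hab
  have ha10 : 10 ≤ a := by
    rw [ha, Nat.le_div_iff_mul_le hDK]
    omega
  have haR : (10:ℝ) ≤ a := by exact_mod_cast ha10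
  have haK : (a:ℝ) * (D * K) ≤ n := by
    rw [le_div_iff₀ (by positivity)] at hab; exact hab
  obtain ⟨R, hR⟩ : ∃ R : ℤ, R = 121 * a * K + a + 2 := ⟨_, rfl⟩
  have hRR : (R:ℝ) = 121 * a * K + a + 2 := by rw [hR]; push_cast; ring
  have haaK : (a:ℝ) ≤ a * K := by nlinarith
  have hR124 : (R:ℝ) ≤ 124 * (a * K) := by rw [hRR]; nlinarith
  have haKn : 400 * ((a:ℝ) * K) ≤ n := by
    have : 400 * ((a:ℝ) * K) ≤ D * (a * K) := by gcongr
    linarith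
  have hRδ : (R:ℝ) ≤ δ * n := by
    have h1 : 400 * ((a:ℝ) * K) ≤ (D * δ) * (a * K) := by gcongr
    have h2 : (D * δ) * ((a:ℝ) * K) ≤ δ * n := by
      calc (D * δ) * ((a:ℝ) * K) = δ * (a * (D * K)) := by ring
        _ ≤ δ * n := mul_le_mul_of_nonneg_left haK hδ.le
    linarith [mul_nonneg (Nat.cast_nonneg (α := ℝ) a) (Nat.cast_nonneg (α := ℝ) K)]
  have h4n : 3 * R + 60 * a ≤ 4 * n := by
    have : ((3 * R + 60 * a : ℤ) : ℝ) ≤ ((4 * n : ℤ) : ℝ) := by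
      push_cast
      linarith
    exact_mod_cast this
  obtain ⟨M, hM⟩ : ∃ M : ℕ, M = ⌈c₂ * (a:ℝ) ^ (2 - (1/4:ℝ))⌉₊ := ⟨_, rfl⟩
  have hall : AllOk (10 * n) a M δ0 := by
    rw [hM]
    refine fl_ok htr' hc₁0.le hn (by omega) ?_
    rw [hexp a, mul_one, hδ0]
  have hfast := hlow (10 * n) a K M δ0 R (by omega) hKpos hδ0pos.le hδ01 hall (le_of_eq hR.symm)
  have hMn : c₂ * (1 / (2 * (D * K))) ^ (7/4 : ℝ) * (n:ℝ) ^ (7/4 : ℝ) ≤ (M : ℝ) := by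
    have f1 : c₂ * (a:ℝ) ^ (2 - (1/4:ℝ)) ≤ (M : ℝ) := by rw [hM]; exact Nat.le_ceil _
    rw [show (2 - (1/4:ℝ)) = 7/4 by norm_num] at f1
    have f2 : ((1 / (2 * ((D:ℝ) * K))) * n) ^ (7/4 : ℝ) ≤ (a:ℝ) ^ (7/4 : ℝ) := by
      apply Real.rpow_le_rpow (by positivity) _ (by norm_num)
      refine le_trans (le_of_eq ?_) haa
      ring
    rw [Real.mul_rpow (by positivity) hnpos.le] at f2
    have f3 := mul_le_mul_of_nonneg_left f2 hc₂.le
    linarith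
  have hR1 : 1 ≤ R := by
    have : (0:ℤ) ≤ 121 * a * K := by positivity
    omega
  refine ⟨M, R, hR1, hRδ, hMn, fun u => ?_⟩
  refine (pr_Fast h4n).trans (hfast.trans (le_trans ?_ hK'))
  have f1 : ((10 * n : ℕ):ℝ) / a ≤ 20 * (D * K) := by
    rw [div_le_iff₀ (by linarith)]
    rw [div_le_iff₀ (by positivity)] at haa
    push_cast
    linarith
  have f2 : (1:ℝ) ≤ D * K := by exact_mod_cast hDK
  have f3 : (((10 * n : ℕ):ℝ) / a + 1) ^ 2 ≤ (21 * (D * K)) ^ 2 := by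
    apply pow_le_pow_left₀ (by positivity)
    linarith
  have f4 : (0:ℝ) ≤ (1 - δ0) ^ (K - 1) := pow_nonneg (by linarith) _
  have f5 : K - 1 = K' := by omega
  have f6 : (K:ℝ) ≤ 2 * K' := by
    rw [hK]; push_cast
    have : (1:ℝ) ≤ K' := by exact_mod_cast hK'pos
    linarith
  calc C' * (((10 * n : ℕ):ℝ) / a + 1) ^ 2 * (1 - δ0) ^ (K - 1)
      ≤ C' * (21 * (D * K)) ^ 2 * (1 - δ0) ^ (K - 1) := by gcongr
    _ = C' * (21 * D) ^ 2 * (K:ℝ) ^ 2 * (1 - δ0) ^ (K - 1) := by ring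
    _ ≤ C' * (21 * D) ^ 2 * (2 * (K':ℝ)) ^ 2 * (1 - δ0) ^ (K - 1) := by gcongr
    _ = _ := by rw [f5]; ring

/-- No macroscopic sub-path is fast. -/
theorem macro_low {c C : ℝ} (hc : 0 < c) (hC : 0 < C) (hL : LowA c (1/4)) (hU : TwoUp C (1/4))
    {δ ε : ℝ} (hδ : 0 < δ) (hδ1 : δ ≤ 1) (hε : 0 < ε) :
    ∃ lam : ℝ, 0 < lam ∧ ∃ n0 : ℕ, ∀ n : ℕ, n0 ≤ n →
      μ.real {ω | ∃ (σ : St) (t : ℕ), sd (0, 0) σ.1 ≤ n ∧ δ * n ≤ sd σ.1 (orb (opn ω) σ t).1 ∧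
        (t:ℝ) < lam * (n:ℝ) ^ (7/4:ℝ)} ≤ ε := by
  obtain ⟨lam, hlam, n0, h⟩ := fast_small hc hC hL hU hδ hδ1 hε
  refine ⟨lam, hlam, n0, fun n hn => ?_⟩
  obtain ⟨M, R, hR1, hR, hM, hp⟩ := h n hn
  have hRn : R ≤ n := by
    have h0 : (0:ℝ) ≤ n := Nat.cast_nonneg n
    have : (R:ℝ) ≤ n := by nlinarith
    exact_mod_cast this
  refine le_trans (law_le (S := bx (0, 0) (5 * n)) (A := fun F => Fast (0, 0) n M R (↑F)) ?_)
    (hp (0, 0))
  rintro ω ⟨σ, t, h1, h2, h3⟩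
  apply Fast_FF hRn
  refine ⟨σ, t, ctr_iff.2 h1, ?_, ?_⟩
  · rw [far_iff]
    have : (R:ℝ) ≤ sd σ.1 (orb (opn ω) σ t).1 := hR.trans h2
    exact_mod_cast this
  · have : (t:ℝ) < M := lt_of_lt_of_le h3 hM
    exact_mod_cast this

theorem sd_step (u : Vtx) (F : Set Edg) (σ : St) : sd u (nxt F σ).1 ≤ sd u σ.1 + 1 := by
  obtain ⟨h1, h2⟩ := nxt_fst F σ
  unfold sd
  rw [abs_le] at h1 h2
  apply max_le
  · rw [abs_le]
    have := (abs_le.1 (le_max_left |u.1 - σ.1.1| |u.2 - σ.1.2|))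
    omega
  · rw [abs_le]
    have := (abs_le.1 (le_max_right |u.1 - σ.1.1| |u.2 - σ.1.2|))
    omega

theorem sd_tri (u v w : Vtx) : sd u w ≤ sd u v + sd v w := by
  unfold sd
  apply max_le
  · calc |u.1 - w.1| ≤ |u.1 - v.1| + |v.1 - w.1| := abs_sub_le _ _ _
      _ ≤ _ := add_le_add (le_max_left _ _) (le_max_left _ _)
  · calc |u.2 - w.2| ≤ |u.2 - v.2| + |v.2 - w.2| := abs_sub_le _ _ _
      _ ≤ _ := add_le_add (le_max_right _ _) (le_max_right _ _)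

/-- a fast subpath which starts at distance `h` from `u` -/
def FastAt (u : Vtx) (h : ℤ) (M : ℕ) (R : ℤ) (F : Set Edg) : Prop :=
  ∃ σ : St, sd u σ.1 = h ∧ ∃ t : ℕ, Far σ.1 R (orb F σ t).1 ∧ t < M

/-- A short loop with large extent contains a fast subpath far from its starting point. -/
theorem fastAt_of_short {F : Set Edg} {σ : St} (hcl : Closed F σ) {n h : ℤ} {M : ℕ} {R : ℤ}
    (hh : 0 ≤ h) (hhn : h ≤ n) (hR : R ≤ n - h) {τ : St} (hτ : τ ∈ loop F σ)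
    (hd : n ≤ sd σ.1 τ.1) (hM : (loop F σ).ncard ≤ M) : FastAt σ.1 h M R F := by
  classical
  have hper : σ ∈ Function.periodicPts (nxt F) := by
    obtain ⟨p, hp, hp2⟩ := hcl
    exact ⟨p, hp, hp2⟩
  have hpos := Function.minimalPeriod_pos_of_mem_periodicPts hper
  obtain ⟨t0, rfl⟩ := hτ
  obtain ⟨t1, ht1, ht1'⟩ : ∃ t1, t1 < Function.minimalPeriod (nxt F) σ ∧
      orb F σ t1 = orb F σ t0 :=
    ⟨t0 % Function.minimalPeriod (nxt F) σ, Nat.mod_lt _ hpos,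
      Function.iterate_mod_minimalPeriod_eq⟩
  rw [period_eq hcl] at ht1
  rw [← ht1'] at hd
  have hex : ∃ s, h ≤ sd σ.1 (orb F σ s).1 := ⟨t1, by omega⟩
  have hs1 : Nat.find hex ≤ t1 := Nat.find_min' hex (by omega)
  have hs2 := Nat.find_spec hex
  have heq : sd σ.1 (orb F σ (Nat.find hex)).1 = h := by
    apply le_antisymm _ hs2
    rcases Nat.eq_zero_or_pos (Nat.find hex) with h0 | h0
    · rw [h0]
      have : sd σ.1 (orb F σ 0).1 = 0 := by simp [sd]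
      omega
    · have h1 := Nat.find_min hex (show Nat.find hex - 1 < Nat.find hex by omega)
      push Not at h1
      have h2 := sd_step σ.1 F (orb F σ (Nat.find hex - 1))
      rw [← orb_succ, show Nat.find hex - 1 + 1 = Nat.find hex by omega] at h2
      omega
  refine ⟨orb F σ (Nat.find hex), heq, t1 - Nat.find hex, ?_, by omega⟩
  rw [← orb_add, Nat.sub_add_cancel hs1, far_iff]
  have := sd_tri σ.1 (orb F σ (Nat.find hex)).1 (orb F σ t1).1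
  omega

/-- Locality of the event `FastAt`. -/
theorem FastAt_local {u : Vtx} {h m : ℤ} {M : ℕ} {R : ℤ} (hm : 0 ≤ m) (hmh : m + R < h) {S : Finset Edg}
    (hS : bx u (h + R) ⊆ S) {F G : Set Edg} (hFG : ∀ e ∈ S \ bx u m, (e ∈ F ↔ e ∈ G))
    (hF : FastAt u h M R F) : FastAt u h M R G := by
  obtain ⟨σ, hσ, h1⟩ := hF
  refine ⟨σ, hσ, fast_congr (fun e he => hFG e ?_) h1⟩
  have h2 : Far u h σ.1 := far_iff.2 (le_of_eq hσ.symm)
  have h3 : ¬ Far u (h + 1) σ.1 := by rw [far_iff]; omega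
  rw [Finset.mem_sdiff]
  constructor
  · apply hS
    refine bx_sub ?_ ?_ ?_ ?_ he <;> (unfold Far at h3; omega)
  · intro h4
    obtain ⟨x, y, b⟩ := e
    unfold bx at he h4
    unfold Far at h2
    cases b
    · rw [mem_RE_false] at he h4; omega
    · rw [mem_RE_true] at he h4; omega

/-- Loops with large extent are not short, conditionally. -/
theorem cond_low {c C : ℝ} (hc : 0 < c) (hC : 0 < C) (hL : LowA c (1/4)) (hU : TwoUp C (1/4))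
    {ε : ℝ} (hε : 0 < ε) :
    ∃ lam : ℝ, 0 < lam ∧ ∀ (σ : St) (n : ℕ), 1 ≤ n →
      μ.real {ω | (∃ τ ∈ loop (opn ω) σ, (n:ℤ) ≤ sd σ.1 τ.1) ∧
        ((loop (opn ω) σ).ncard : ℝ) < lam * (n:ℝ) ^ (7/4:ℝ)} ≤ ε * (n:ℝ) ^ (-(1/4:ℝ)) := by
  obtain ⟨lam, hlam, n0, hfs⟩ := fast_small hc hC hL hU (δ := 1/16) (ε := ε / (16 * C))
    (by norm_num) (by norm_num) (by positivity)
  set N : ℕ := max n0 32 with hN
  have hN1 : (1:ℝ) ≤ N := by
    have : 1 ≤ N := le_trans (by norm_num) (le_max_right _ _)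
    exact_mod_cast this
  refine ⟨min lam (1 / (N:ℝ) ^ (7/4:ℝ)), by positivity, fun σ n hn => ?_⟩
  have hnR : (1:ℝ) ≤ n := by exact_mod_cast hn
  have hp : (0:ℝ) ≤ (n:ℝ) ^ (-(1/4:ℝ)) := Real.rpow_nonneg (by linarith) _
  rcases Nat.lt_or_ge n N with hlt | hge
  · -- small scales
    have h1 : {ω | (∃ τ ∈ loop (opn ω) σ, (n:ℤ) ≤ sd σ.1 τ.1) ∧
        ((loop (opn ω) σ).ncard : ℝ) < min lam (1 / (N:ℝ) ^ (7/4:ℝ)) * (n:ℝ) ^ (7/4:ℝ)} ⊆
        {ω | ¬ Closed (opn ω) σ} := by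
      rintro ω ⟨-, h2⟩
      intro hcl
      have h3 : 0 < (loop (opn ω) σ).ncard :=
        (Set.ncard_pos (loop_finite hcl)).2 ⟨σ, self_mem_loop _ _⟩
      have h4 : (1:ℝ) ≤ (loop (opn ω) σ).ncard := by exact_mod_cast h3
      have h5 : (n:ℝ) ^ (7/4:ℝ) ≤ (N:ℝ) ^ (7/4:ℝ) :=
        Real.rpow_le_rpow (by linarith) (by exact_mod_cast hlt.le) (by norm_num)
      have h6 : min lam (1 / (N:ℝ) ^ (7/4:ℝ)) * (n:ℝ) ^ (7/4:ℝ) ≤ 1 := by
        calc _ ≤ 1 / (N:ℝ) ^ (7/4:ℝ) * (N:ℝ) ^ (7/4:ℝ) :=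
              mul_le_mul (min_le_right _ _) h5 (by positivity) (by positivity)
          _ = 1 := by field_simp
      linarith
    have h2 : μ.real {ω | ¬ Closed (opn ω) σ} = 0 := by
      rw [measureReal_eq_zero_iff]
      exact closed_ae (by norm_num) hU σ
    refine (measureReal_mono h1).trans ?_
    rw [h2]
    positivity
  · have hn0 : n0 ≤ n := (le_max_left _ _).trans hge
    have hn32 : 32 ≤ n := (le_max_right _ _).trans hge
    obtain ⟨M, R, hR1, hR, hM, hpr⟩ := hfs n hn0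
    set u : Vtx := σ.1 with hu
    obtain ⟨m, hm⟩ : ∃ m : ℕ, m = n / 8 := ⟨_, rfl⟩
    have hm8 : 8 * m ≤ n := by omega
    have hm16 : n ≤ 16 * m := by omega
    have hm4 : 4 ≤ m := by omega
    have hRn : 16 * R ≤ n := by
      have : (16:ℝ) * R ≤ n := by linarith
      exact_mod_cast this
    set S : Finset Edg := bx u (5 * n) with hS
    have hbm : bx u m ⊆ S := bx_mono (by omega)
    have hind : Pr (fun _ => (1/2:ℝ)) S (fun F => Two u (face σ) m (↑F) ∧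
        FastAt u (4 * m) M R (↑F)) =
        Pr (fun _ => (1/2:ℝ)) S (fun F => Two u (face σ) m (↑F)) *
        Pr (fun _ => (1/2:ℝ)) S (fun F => FastAt u (4 * m) M R (↑F)) := by
      apply Pr_indep (S := bx u m) (T := S \ bx u m) hbm Finset.sdiff_subset
        Finset.disjoint_sdiff (A := fun F => Two u (face σ) m (↑F))
        (B := fun F => FastAt u (4 * m) M R (↑F))
      · intro F _
        exact two_inter (by omega) F (Finset.Subset.refl _)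
      · intro F _
        constructor
        · apply FastAt_local (m := m) (S := S) (by omega) (by omega) (bx_mono (by omega))
          intro e he
          rw [Finset.coe_inter]
          exact ⟨fun h => ⟨h, he⟩, fun h => h.1⟩
        · apply FastAt_local (m := m) (S := S) (by omega) (by omega) (bx_mono (by omega))
          intro e he
          rw [Finset.coe_inter]
          exact ⟨fun h => h.1, fun h => ⟨h, he⟩⟩
    have h1 : Pr (fun _ => (1/2:ℝ)) S (fun F => Two u (face σ) m (↑F)) ≤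
        C * (m:ℝ) ^ (-(1/4:ℝ)) := by
      have h2 := pr_two (q := 1/2) (u := u) (f := face σ) (m := (m:ℤ)) (by omega) hbm
      rw [h2]
      have := hU m u (face σ) (by omega) (inc_face σ)
      exact_mod_cast this
    have h2 : Pr (fun _ => (1/2:ℝ)) S (fun F => FastAt u (4 * m) M R (↑F)) ≤ ε / (16 * C) := by
      refine le_trans (Pr_mono ok2 ?_) (hpr u)
      rintro F - ⟨ρ, hρ, t, h3, h4⟩
      exact ⟨ρ, t, ctr_iff.2 (by omega), h3, h4⟩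
    have h3 : (m:ℝ) ^ (-(1/4:ℝ)) ≤ 16 * (n:ℝ) ^ (-(1/4:ℝ)) := by
      have hnm : (n:ℝ) / 16 ≤ m := by
        have : (n:ℝ) ≤ 16 * m := by exact_mod_cast hm16
        linarith
      have h4 : (m:ℝ) ^ (-(1/4:ℝ)) ≤ ((n:ℝ) / 16) ^ (-(1/4:ℝ)) :=
        rpow_neg_le (by linarith) hnm (by norm_num)
      rw [Real.div_rpow (by linarith) (by norm_num), Real.rpow_neg (by norm_num : (0:ℝ) ≤ 16),
        div_inv_eq_mul] at h4
      have h5 : (16:ℝ) ^ (1/4:ℝ) ≤ 16 := by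
        have := Real.rpow_le_rpow_of_exponent_le (by norm_num : (1:ℝ) ≤ 16)
          (by norm_num : (1/4:ℝ) ≤ 1)
        rwa [Real.rpow_one] at this
      nlinarith
    have h4 : Pr (fun _ => (1/2:ℝ)) S (fun F => Two u (face σ) m (↑F) ∧
        FastAt u (4 * m) M R (↑F)) ≤ ε * (n:ℝ) ^ (-(1/4:ℝ)) := by
      rw [hind]
      calc _ ≤ (C * (16 * (n:ℝ) ^ (-(1/4:ℝ)))) * (ε / (16 * C)) := by
            apply mul_le_mul (h1.trans (mul_le_mul_of_nonneg_left h3 hC.le)) h2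
              (Pr_nonneg ok2 _ _) (by positivity)
        _ = ε * (n:ℝ) ^ (-(1/4:ℝ)) := by field_simp
    refine le_trans ?_ h4
    rw [← law_eq2]
    unfold Measure.real
    apply ENNReal.toReal_mono (measure_ne_top _ _)
    apply measure_mono_ae
    filter_upwards [closed_ae (by norm_num) hU σ] with ω hω
    rintro ⟨⟨τ, hτ, hd⟩, hlen⟩
    have hlen' : (loop (opn ω) σ).ncard ≤ M := by
      have : ((loop (opn ω) σ).ncard : ℝ) ≤ M := by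
        refine hlen.le.trans (le_trans ?_ hM)
        exact mul_le_mul_of_nonneg_right (min_le_left _ _) (Real.rpow_nonneg (by linarith) _)
      exact_mod_cast this
    have h5 := fastAt_of_short hω (h := 4 * m) (n := n) (R := R) (by omega) (by omega) (by omega)
      hτ hd hlen'
    constructor
    · rw [← two_FF (by omega) hbm ω]
      apply two_of_conn (by omega) (conn_of_mem hτ)
      rw [far_iff]
      have hd' : (n:ℤ) ≤ sd σ.1 τ.1 := hd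
      omega
    · refine FastAt_local (m := m) (S := S) (by omega) (by omega) (bx_mono (by omega)) ?_ h5
      intro e he
      exact FF_mem (Finset.mem_sdiff.1 he).1

/-- The macroscopic loops have together at most `Λ n ^ (7/4)` states in the box. -/
theorem macro_up {C : ℝ} (hC : 0 < C) (hU : TwoUp C (1/4))
    {δ ε : ℝ} (hδ : 0 < δ) (hδ1 : δ ≤ 1) (hε : 0 < ε) :
    ∃ Λ : ℝ, 0 < Λ ∧ ∃ n0 : ℕ, ∀ n : ℕ, n0 ≤ n →
      μ.real {ω | Λ * (n:ℝ) ^ (7/4:ℝ) < ({σ : St | sd (0, 0) σ.1 ≤ n ∧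
        ∃ τ ∈ loop (opn ω) σ, δ * n ≤ sd σ.1 τ.1}.ncard : ℝ)} ≤ ε := by
  classical
  refine ⟨36 * C * (δ / 2) ^ (-(1/4:ℝ)) / ε, by positivity, ⌈4 / δ⌉₊, fun n hn0 => ?_⟩
  have hn4 : 4 / δ ≤ n := (Nat.le_ceil _).trans (by exact_mod_cast hn0)
  have hn4' : 4 ≤ n * δ := by rwa [div_le_iff₀ hδ] at hn4
  have hn1 : (1:ℝ) ≤ n := by nlinarith
  have hn0' : (0:ℝ) < n := by linarith
  obtain ⟨k, hk⟩ : ∃ k : ℕ, k = ⌈δ * n / 2⌉₊ := ⟨_, rfl⟩
  have hk1 : δ * n / 2 ≤ k := by rw [hk]; exact Nat.le_ceil _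
  have hk2 : (k:ℝ) < δ * n / 2 + 1 := by
    rw [hk]; exact Nat.ceil_lt_add_one (by positivity)
  have hk3 : (k:ℝ) + 1 ≤ δ * n := by linarith
  have hk0 : (0:ℤ) < k := by
    have : (0:ℝ) < k := by nlinarith
    exact_mod_cast this
  have hkn : k ≤ n := by
    have : (k:ℝ) ≤ n := by nlinarith
    exact_mod_cast this
  set S : Finset Edg := bx (0, 0) (2 * n) with hS
  set Λ : ℝ := 36 * C * (δ / 2) ^ (-(1/4:ℝ)) / ε with hΛ
  have hΛ0 : 0 < Λ := by positivity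
  have hΛn : 0 < Λ * (n:ℝ) ^ (7/4:ℝ) := by positivity
  have hsub : ∀ σ ∈ cst (0, 0) n, bx σ.1 k ⊆ S := by
    intro σ hσ
    rw [mem_cst, mem_ctr'] at hσ
    simp only at hσ
    apply bx_sub <;> simp only <;> omega
  have h1 : μ.real {ω | Λ * (n:ℝ) ^ (7/4:ℝ) < ({σ : St | sd (0, 0) σ.1 ≤ n ∧
        ∃ τ ∈ loop (opn ω) σ, δ * n ≤ sd σ.1 τ.1}.ncard : ℝ)} ≤
      Pr (fun _ => (1/2:ℝ)) S (fun F => Λ * (n:ℝ) ^ (7/4:ℝ) ≤ ∑ σ ∈ cst (0, 0) n,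
        ind (Two σ.1 (face σ) k (↑F))) := by
    apply law_le
    intro ω hω
    have hω' : Λ * (n:ℝ) ^ (7/4:ℝ) < ({σ : St | sd (0, 0) σ.1 ≤ n ∧
        ∃ τ ∈ loop (opn ω) σ, δ * n ≤ sd σ.1 τ.1}.ncard : ℝ) := hω
    rw [sum_ind]
    refine hω'.le.trans ?_
    rw [← Set.ncard_coe_finset]
    have h2 : {σ : St | sd (0, 0) σ.1 ≤ n ∧ ∃ τ ∈ loop (opn ω) σ, δ * n ≤ sd σ.1 τ.1} ⊆
        ↑((cst (0, 0) n).filter (fun σ => Two σ.1 (face σ) k (↑(FF S ω)))) := by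
      rintro σ ⟨h3, τ, hτ, h4⟩
      have hσ : σ ∈ cst (0, 0) n := mem_cst.2 (ctr_iff.2 h3)
      rw [Finset.mem_coe, Finset.mem_filter]
      refine ⟨hσ, ?_⟩
      rw [← two_FF hk0 (hsub σ hσ) ω]
      apply two_of_conn hk0 (conn_of_mem hτ)
      rw [far_iff]
      have : ((k:ℤ) + 1 : ℝ) ≤ sd σ.1 τ.1 := by
        push_cast
        exact hk3.trans h4
      exact_mod_cast this
    exact_mod_cast Set.ncard_le_ncard h2 (Finset.finite_toSet _)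
  refine h1.trans ((markov (cst (0, 0) n) (fun σ F => Two σ.1 (face σ) k (↑F)) hΛn).trans ?_)
  rw [div_le_iff₀ hΛn]
  have h2 : ∀ σ ∈ cst (0, 0) n, Pr (fun _ => (1/2:ℝ)) S (fun F => Two σ.1 (face σ) k (↑F)) ≤
      C * (k:ℝ) ^ (-(1/4:ℝ)) := by
    intro σ hσ
    rw [pr_two hk0 (hsub σ hσ)]
    have := hU k σ.1 (face σ) hk0 (inc_face σ)
    exact_mod_cast this
  refine (Finset.sum_le_sum h2).trans ?_
  rw [Finset.sum_const, nsmul_eq_mul]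
  unfold cst
  rw [Finset.card_product, card_ctr, Finset.card_univ]
  have hcard : Fintype.card Q4 = 4 := rfl
  rw [hcard]
  push_cast
  have h3 : (k:ℝ) ^ (-(1/4:ℝ)) ≤ (δ / 2) ^ (-(1/4:ℝ)) * (n:ℝ) ^ (-(1/4:ℝ)) := by
    rw [← Real.mul_rpow (by positivity) hn0'.le]
    apply rpow_neg_le (by positivity) _ (by norm_num)
    linarith
  have h4 : (2 * (n:ℝ) + 1) ^ 2 ≤ 9 * (n:ℝ) ^ 2 := by nlinarith
  have h5 : (n:ℝ) ^ 2 * (n:ℝ) ^ (-(1/4:ℝ)) = (n:ℝ) ^ (7/4:ℝ) := by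
    rw [← Real.rpow_natCast, ← Real.rpow_add hn0']
    norm_num
  calc (2 * (n:ℝ) + 1) ^ 2 * 4 * (C * (k:ℝ) ^ (-(1/4:ℝ)))
      ≤ 9 * (n:ℝ) ^ 2 * 4 * (C * ((δ / 2) ^ (-(1/4:ℝ)) * (n:ℝ) ^ (-(1/4:ℝ)))) := by gcongr
    _ = 36 * C * (δ / 2) ^ (-(1/4:ℝ)) * ((n:ℝ) ^ 2 * (n:ℝ) ^ (-(1/4:ℝ))) := by ring
    _ = ε * (Λ * (n:ℝ) ^ (7/4:ℝ)) := by
        rw [h5, hΛ]
        field_simp

end Pool.Agent.Y993.LL
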