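import Pool.Agent.Y993.LL.Upper
import Pool.Agent.H984R3.Per.Trial

/-!
Two crossings of strips connect all the vertices with separated arms.
-/

set_option autoImplicit false

namespace Pool.Agent.Y993.LL

open H974 Finset H342P H984P MeasureTheory

/-- the lower strip -/
noncomputable def SL (X1 X2 y0 : ℤ) (a : ℕ) : Finset Edg := LRE X1 X2 (y0 - 8 * a) (y0 - 4 * a)

/-- the upper strip (dual edges) -/
noncomputable def SU (X1 X2 y0 : ℤ) (a : ℕ) : Finset Edg := LRE X1 X2 (y0 + 4 * a) (y0 + 8 * a)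

/-- open crossing of the lower strip -/
def CL (X1 X2 y0 : ℤ) (a : ℕ) (F : Finset Edg) : Prop := LRc X1 X2 (y0 - 8 * a) (y0 - 4 * a) F

/-- dual crossing of the upper strip -/
def CU (X1 X2 y0 : ℤ) (a : ℕ) (F : Set Edg) : Prop :=
  ∃ y y', (y0 + 4 * a ≤ y ∧ y ≤ y0 + 8 * a) ∧ (y0 + 4 * a ≤ y' ∧ y' ≤ y0 + 8 * a) ∧
    DReach (dE (SU X1 X2 y0 a) \ F) (X1, y) (X2, y')

/-- all the edges used -/
noncomputable def SB (X1 X2 y0 : ℤ) (a : ℕ) : Finset Edg :=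
  RE (X1 - 2 * a) (X2 + 2 * a) (y0 - 15 * a) (y0 + 15 * a)

theorem SL_sub {X1 X2 y0 : ℤ} {a : ℕ} : SL X1 X2 y0 a ⊆ SB X1 X2 y0 a := by
  rintro ⟨x, y, _ | _⟩ h
  · simp only [SL, SB, mem_RE_false, mem_LRE_false] at h ⊢; omega
  · simp only [SL, SB, mem_RE_true, mem_LRE_true] at h ⊢; omega

theorem dSU_sub {X1 X2 y0 : ℤ} {a : ℕ} (ha : 1 ≤ a) : dE (SU X1 X2 y0 a) ⊆ ↑(SB X1 X2 y0 a) := by
  rintro ⟨x, y, _ | _⟩ h
  · simp only [dE, SU, SB, Set.mem_ofPred_eq, dl_f, mem_LRE_true, mem_coe, mem_RE_false] at h ⊢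
    omega
  · simp only [dE, SU, SB, Set.mem_ofPred_eq, dl_t, mem_LRE_false, mem_coe, mem_RE_true] at h ⊢
    omega

/-- the vertices considered -/
def VV (X1 X2 y0 : ℤ) (a : ℕ) (v : Vtx) : Prop :=
  (X1 ≤ v.1 - 12 * a ∧ v.1 + 12 * a ≤ X2) ∧ (y0 - a ≤ v.2 ∧ v.2 ≤ y0 + a)

theorem PR_sub {X1 X2 y0 : ℤ} {a : ℕ} {v : Vtx} (hv : VV X1 X2 y0 a v) (ha : 1 ≤ a) :
    PR v a ⊆ SB X1 X2 y0 a := by
  unfold VV at hv
  rintro ⟨x, y, _ | _⟩ h
  · simp only [PR, SB, mem_RE_false] at h ⊢; omega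
  · simp only [PR, SB, mem_RE_true] at h ⊢; omega

theorem PR_not {X1 X2 y0 : ℤ} {a : ℕ} {v : Vtx} (hv : VV X1 X2 y0 a v) {e : Edg}
    (he : e ∈ PR v a) (h' : dl e ∈ SU X1 X2 y0 a) : False := by
  unfold VV at hv
  obtain ⟨x, y, _ | _⟩ := e
  · simp only [PR, mem_RE_false] at he
    simp only [SU, dl_f, mem_LRE_true] at h'
    omega
  · simp only [PR, mem_RE_true] at he
    simp only [SU, dl_t, mem_LRE_false] at h'
    omega

theorem DR_not {X1 X2 y0 : ℤ} {a : ℕ} {v : Vtx} (hv : VV X1 X2 y0 a v) {e : Edg}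
    (he : dl e ∈ DR v a) (h' : e ∈ SL X1 X2 y0 a) : False := by
  unfold VV at hv
  obtain ⟨x, y, _ | _⟩ := e
  · simp only [DR, dl_f, mem_RE_true] at he
    simp only [SL, mem_LRE_false] at h'
    omega
  · simp only [DR, dl_t, mem_RE_false] at he
    simp only [SL, mem_LRE_true] at h'
    omega

/-- All the vertices with separated arms are connected. -/
theorem strip_conn {X1 X2 y0 : ℤ} {a : ℕ} (ha : 1 ≤ a) {F : Finset Edg}
    (hL : CL X1 X2 y0 a F) (hU : CU X1 X2 y0 a (↑F)) :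
    ∃ p q : Vtx, ∀ v : Vtx, VV X1 X2 y0 a v → RA v a (↑F) →
      Reach (↑F ∩ ↑(SB X1 X2 y0 a)) v p ∧ DReach (↑(SB X1 X2 y0 a) \ ↑F) v q := by
  have ha' : (1 : ℤ) ≤ a := by exact_mod_cast ha
  obtain ⟨y, y', hy, hy', hRL⟩ := hL
  obtain ⟨z, z', hz, hz', hRU⟩ := hU
  refine ⟨(X1, y), (X1, z), ?_⟩
  rintro ⟨v1, v2⟩ hv ⟨⟨w, hw, hRw⟩, ⟨g, hg, hDg⟩⟩
  have hv' := hv
  unfold VV at hv'
  simp only at hv' hw hg
  constructor
  · have e1 : Reach ((↑F : Set Edg) ∩ ↑(SB X1 X2 y0 a)) w (X1, y) := by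
      refine meet_gen (p := v1 - 12 * a) (q := v1 + 12 * a) (c := y0 - 8 * a) (d := y0 - 4 * a)
        (by omega) (by omega) (V := PR (v1, v2) a) (Hh := SL X1 X2 y0 a) (PR_sub hv ha) SL_sub
        ?_ ?_ ?_ ?_ ?_
        hRw.symm (by omega) (by simp only; omega) hRL (by simp only; omega) (by simp only; omega)
      · rintro ⟨x, y, _ | _⟩ h
        · simp only [SB, mem_RE_false] at h ⊢; omega
        · simp only [SB, mem_RE_true] at h ⊢; omega
      · intro x y h; simp only [PR, mem_RE_false] at h; omega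
      · intro x y h; simp only [PR, mem_RE_true] at h; omega
      · intro x y h; simp only [SL, mem_LRE_true] at h; omega
      · intro x y h; simp only [SL, mem_LRE_false] at h; omega
    have e2 : Reach ((↑F : Set Edg) ∩ ↑(SB X1 X2 y0 a)) w (v1, v2) := hRw.symm.mono (by
      rintro e ⟨h0, h⟩
      exact ⟨h0, PR_sub hv ha h⟩)
    exact e2.symm.trans e1
  · set H : Set Edg := dl '' (↑F : Set Edg)ᶜ with hH
    have conv : ∀ V : Finset Edg, dl '' (dE V \ ↑F) ⊆ H ∩ ↑V := by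
      rintro V _ ⟨e, ⟨he1, he2⟩, rfl⟩
      exact ⟨⟨e, he2, rfl⟩, he1⟩
    set S : Finset Edg := RE (X1 - a) (X2 + a) (y0 - 14 * a) (y0 + 14 * a) with hS
    have back : ∀ u w : Vtx, Reach (H ∩ ↑S) u w → DReach (↑(SB X1 X2 y0 a) \ ↑F) u w := by
      intro u w h
      rw [← reach_dl]
      refine h.mono ?_
      rintro _ ⟨⟨⟨x, y, b⟩, he, rfl⟩, he2⟩
      refine ⟨(x, y, b), ⟨?_, he⟩, rfl⟩
      cases b
      · simp only [hS, SB, dl_f, mem_RE_true, mem_coe, mem_RE_false] at he2 ⊢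
        omega
      · simp only [hS, SB, dl_t, mem_RE_true, mem_coe, mem_RE_false] at he2 ⊢
        omega
    have a1 : Reach (H ∩ ↑(DR (v1, v2) a)) (v1, v2) g := (reach_dl.mpr hDg).mono (conv _)
    have a2 : Reach (H ∩ ↑(SU X1 X2 y0 a)) (X1, z) (X2, z') := (reach_dl.mpr hRU).mono (conv _)
    have e1 : Reach (H ∩ ↑S) (v1, v2) (X1, z) := by
      refine meet_gen (p := v1 - 12 * a) (q := v1 + 12 * a) (c := y0 + 4 * a) (d := y0 + 8 * a)
        (by omega) (by omega) (V := DR (v1, v2) a) (Hh := SU X1 X2 y0 a) ?_ ?_ ?_ ?_ ?_ ?_ ?_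
        a1 (by simp only; omega) (by omega) a2 (by simp only; omega) (by simp only; omega)
      · rintro ⟨x, y, _ | _⟩ h
        · simp only [DR, hS, mem_RE_false] at h ⊢; omega
        · simp only [DR, hS, mem_RE_true] at h ⊢; omega
      · rintro ⟨x, y, _ | _⟩ h
        · simp only [SU, hS, mem_RE_false, mem_LRE_false] at h ⊢; omega
        · simp only [SU, hS, mem_RE_true, mem_LRE_true] at h ⊢; omega
      · rintro ⟨x, y, _ | _⟩ h
        · simp only [hS, mem_RE_false] at h ⊢; omega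
        · simp only [hS, mem_RE_true] at h ⊢; omega
      · intro x y h; simp only [DR, mem_RE_false] at h; omega
      · intro x y h; simp only [DR, mem_RE_true] at h; omega
      · intro x y h; simp only [SU, mem_LRE_true] at h; omega
      · intro x y h; simp only [SU, mem_LRE_false] at h; omega
    exact back _ _ e1

/-- the constant of the crossings -/
noncomputable def κ0 : ℝ := (1/2:ℝ)^767

theorem κ0_pos : 0 < κ0 := by unfold κ0; positivity

theorem pr_CL {X1 X2 y0 : ℤ} {a : ℕ} (ha : 1 ≤ a) (h1 : X1 < X2) (h2 : X2 - X1 ≤ 64 * a)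
    {S : Finset Edg} (hS : SL X1 X2 y0 a ⊆ S) :
    κ0 ≤ Pr (fun _ => (1/2:ℝ)) S (CL X1 X2 y0 a) := by
  have ha' : (1 : ℤ) ≤ a := by exact_mod_cast ha
  unfold CL
  rw [pr_LRc _ hS]
  refine (H12S.WH.main (h := 4 * (a:ℤ)) (by omega)).trans ?_
  exact hh_mono (by norm_num) (by norm_num) (by omega) (by omega) (by omega)

theorem CU_iff {X1 X2 y0 : ℤ} {a : ℕ} {S F : Finset Edg} (hS : dE (SU X1 X2 y0 a) ⊆ ↑S) :
    CU X1 X2 y0 a (↑F) ↔ LRc X1 X2 (y0 + 4 * a) (y0 + 8 * a) (dmp (S \ F)) := by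
  unfold CU LRc
  have h : (↑(dmp (S \ F)) : Set Edg) ∩ ↑(LRE X1 X2 (y0 + 4 * a) (y0 + 8 * a)) =
      dl '' (dE (SU X1 X2 y0 a) \ ↑F) := by
    rw [coe_dmp]
    ext e
    constructor
    · rintro ⟨⟨e', he', rfl⟩, h2⟩
      rw [Finset.coe_sdiff] at he'
      exact ⟨e', ⟨h2, he'.2⟩, rfl⟩
    · rintro ⟨e', ⟨h1, h2⟩, rfl⟩
      refine ⟨⟨e', ?_, rfl⟩, h1⟩
      rw [Finset.coe_sdiff]
      exact ⟨hS h1, h2⟩
  rw [h]
  simp only [reach_dl]

theorem pr_CU {X1 X2 y0 : ℤ} {a : ℕ} (ha : 1 ≤ a) (h1 : X1 < X2) (h2 : X2 - X1 ≤ 64 * a)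
    {S : Finset Edg} (hS : dE (SU X1 X2 y0 a) ⊆ ↑S) :
    κ0 ≤ Pr (fun _ => (1/2:ℝ)) S (fun F => CU X1 X2 y0 a (↑F)) := by
  have ha' : (1 : ℤ) ≤ a := by exact_mod_cast ha
  have e0 : Pr (fun _ => (1/2:ℝ)) S (fun F => CU X1 X2 y0 a (↑F)) =
      Pr (fun _ => (1/2:ℝ)) S (fun F => LRc X1 X2 (y0 + 4 * a) (y0 + 8 * a) (dmp (S \ F))) :=
    Pr_congr (fun F _ => CU_iff hS)
  have e := H12S.pr_dual (q := 1/2) S (LRc X1 X2 (y0 + 4 * a) (y0 + 8 * a))
  have e1 : (1:ℝ) - 1/2 = 1/2 := by norm_num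
  rw [e1] at e
  unfold H12S.PQ at e
  rw [e0, e, pr_LRc]
  · refine (H12S.WH.main (h := 4 * (a:ℤ)) (by omega)).trans ?_
    exact hh_mono (by norm_num) (by norm_num) (by omega) (by omega) (by omega)
  · intro e he
    rw [mem_dmp]
    apply hS
    show dl (dl.symm e) ∈ SU X1 X2 y0 a
    rw [Equiv.apply_symm_apply]
    exact he

/-- The two crossings at a constant price. -/
theorem strip_harris {X1 X2 y0 : ℤ} {a : ℕ} (ha : 1 ≤ a) (h1 : X1 < X2) (h2 : X2 - X1 ≤ 64 * a)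
    {S : Finset Edg} (hS : SB X1 X2 y0 a ⊆ S) {N : Finset Edg → Prop}
    (hN : ∀ F G : Finset Edg, F ⊆ S → G ⊆ S →
      (∀ v, VV X1 X2 y0 a v → RA v a (↑F) → RA v a (↑G)) → N F → N G) :
    κ0 * κ0 * Pr (fun _ => (1/2:ℝ)) S N ≤
      Pr (fun _ => (1/2:ℝ)) S (fun F => N F ∧ (CL X1 X2 y0 a F ∧ CU X1 X2 y0 a (↑F))) := by
  classical
  have ha' : (1 : ℤ) ≤ a := by exact_mod_cast ha
  set T1 : Finset Edg := SL X1 X2 y0 a with hT1
  set T2 : Finset Edg := S.filter (fun e => dl e ∈ SU X1 X2 y0 a) with hT2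
  have h1S : T1 ⊆ S := SL_sub.trans hS
  have hdU : dE (SU X1 X2 y0 a) ⊆ ↑S := (dSU_sub ha).trans (by exact_mod_cast hS)
  have mT2 : ∀ e, e ∈ T2 ↔ dl e ∈ SU X1 X2 y0 a := by
    intro e
    rw [hT2, Finset.mem_filter]
    exact ⟨fun h => h.2, fun h => ⟨hdU h, h⟩⟩
  have hdisj : Disjoint T1 T2 := by
    rw [Finset.disjoint_left]
    rintro ⟨x, y, _ | _⟩ k1 k2
    · rw [mT2] at k2
      simp only [hT1, SL, SU, dl_f, mem_LRE_false, mem_LRE_true] at k1 k2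
      omega
    · rw [mT2] at k2
      simp only [hT1, SL, SU, dl_t, mem_LRE_false, mem_LRE_true] at k1 k2
      omega
  have key := harris_signed (p := fun _ : Edg => (1/2:ℝ)) ok2 (S := S) (T₁ := T1) (T₂ := T2)
    h1S (Finset.filter_subset _ _) hdisj (N := N) (f := CL X1 X2 y0 a)
    (g := fun F => CU X1 X2 y0 a (↑F : Set Edg))
    (fun F _ => LRc_local (Finset.Subset.refl _))
    (fun F G hFG h => h.mono hFG)
    (by
      intro F _
      have : dE (SU X1 X2 y0 a) \ (↑(F ∩ T2) : Set Edg) = dE (SU X1 X2 y0 a) \ ↑F := by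
        ext e
        rw [Finset.coe_inter]
        constructor
        · rintro ⟨k1, k2⟩
          exact ⟨k1, fun k3 => k2 ⟨k3, (mT2 e).2 k1⟩⟩
        · rintro ⟨k1, k2⟩
          exact ⟨k1, fun k3 => k2 k3.1⟩
      unfold CU
      rw [this])
    (by
      rintro F G hFG ⟨y, y', k1, k2, k3⟩
      refine ⟨y, y', k1, k2, k3.mono ?_⟩
      rintro e ⟨k4, k5⟩
      exact ⟨k4, fun k6 => k5 (hFG k6)⟩)
    (by
      intro F G hFS hGS hout k1 k2 hNF
      refine hN F G hFS hGS ?_ hNF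
      intro v hv
      apply Tr760.RA_mono
      · intro e he heF
        have hn2 : e ∉ T2 := fun h => PR_not hv he ((mT2 e).1 h)
        by_cases hn1 : e ∈ T1
        · exact (Finset.mem_inter.1 (k1 (Finset.mem_inter.2 ⟨heF, hn1⟩))).1
        · have : e ∈ F \ (T1 ∪ T2) := by
            rw [Finset.mem_sdiff, Finset.mem_union]
            exact ⟨heF, fun h => h.elim hn1 hn2⟩
          rw [hout, Finset.mem_sdiff] at this
          exact this.1
      · intro e he heG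
        have hn1 : e ∉ T1 := fun h => DR_not hv he h
        by_cases hn2 : e ∈ T2
        · exact (Finset.mem_inter.1 (k2 (Finset.mem_inter.2 ⟨heG, hn2⟩))).1
        · have : e ∈ G \ (T1 ∪ T2) := by
            rw [Finset.mem_sdiff, Finset.mem_union]
            exact ⟨heG, fun h => h.elim hn1 hn2⟩
          rw [← hout, Finset.mem_sdiff] at this
          exact this.1)
  refine le_trans ?_ key
  have e1 := pr_CL ha h1 h2 h1S
  have e2 := pr_CU ha h1 h2 hdU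
  have e3 : κ0 * κ0 ≤ Pr (fun _ => (1/2:ℝ)) S (CL X1 X2 y0 a) *
      Pr (fun _ => (1/2:ℝ)) S (fun F => CU X1 X2 y0 a (↑F : Set Edg)) :=
    mul_le_mul e1 e2 κ0_pos.le (κ0_pos.le.trans e1)
  rw [mul_comm]
  exact mul_le_mul_of_nonneg_left e3 (Pr_nonneg ok2 _ _)

end Pool.Agent.Y993.LL
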