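import Pool.Agent.Y993.LL.Final

/-!
The mean length of a loop near a point of the loop.
-/

set_option autoImplicit false

namespace Pool.Agent.Y993.LL

open H974 Finset H342P H984P MeasureTheory

theorem sum2_up {C : ℝ} (hC : 0 < C) (hU : TwoUp C (1/4)) : ∃ K : ℝ, 0 < K ∧
    ∀ (σ : St) (n : ℕ), 1 ≤ n →
      ∑ τ ∈ cst σ.1 n, μ.real {ω | τ ∈ loop (opn ω) σ} ≤ K * (n:ℝ) ^ (3/2:ℝ) := by
  refine ⟨4 * (25 * (1 + C ^ 2)) * (6 / (1 - 1/4)) ^ 2, by positivity, fun σ n hn => ?_⟩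
  have h1 := sum_TT hC (by norm_num) (by norm_num) hU σ hn (Finset.Subset.refl (bx σ.1 (2 * n)))
  rw [show (2 - 2 * (1/4:ℝ)) = 3/2 by norm_num] at h1
  refine le_trans (Finset.sum_le_sum fun τ hτ => ?_) h1
  rw [mem_cst] at hτ
  obtain ⟨e1, e2⟩ := abs_ctr hτ
  refine law_le (S := bx σ.1 (2 * n)) (A := fun F => TT σ τ (↑F)) ?_
  intro ω hω
  exact (TT_FF (K := 2 * n) (Finset.Subset.refl _) (by omega) (by omega) ω).1
    (TT_of_conn (conn_of_mem hω))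

theorem sum2_low {c C : ℝ} (hc : 0 < c) (hC : 0 < C) (hL : LowA c (1/4)) (hU : TwoUp C (1/4)) :
    ∃ k : ℝ, 0 < k ∧ ∀ (σ : St) (n : ℕ), 1 ≤ n →
      k * (n:ℝ) ^ (3/2:ℝ) ≤ ∑ τ ∈ cst σ.1 n, μ.real {ω | τ ∈ loop (opn ω) σ} := by
  classical
  obtain ⟨c', hc', h⟩ := low_ne hc hC hL hU
  refine ⟨min (1 / 34 ^ (3/2:ℝ)) (c' * c' * (1 / 68) ^ (3/2:ℝ)), by positivity, ?_⟩
  intro σ n hn
  have hnR : (1:ℝ) ≤ n := by exact_mod_cast hn
  rcases Nat.lt_or_ge n 34 with h1 | h1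
  · have h2 : (1:ℝ) ≤ ∑ τ ∈ cst σ.1 n, μ.real {ω | τ ∈ loop (opn ω) σ} := by
      have h3 : μ.real {ω | σ ∈ loop (opn ω) σ} = 1 := by
        have : {ω | σ ∈ loop (opn ω) σ} = Set.univ := by
          ext ω
          exact ⟨fun _ => trivial, fun _ => self_mem_loop _ _⟩
        rw [this]
        simp
      rw [← h3]
      refine Finset.single_le_sum (f := fun τ => μ.real {ω | τ ∈ loop (opn ω) σ})
        (fun τ _ => measureReal_nonneg) ?_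
      rw [mem_cst, mem_ctr']
      omega
    refine le_trans ?_ h2
    have h4 : (n:ℝ) ≤ 34 := by exact_mod_cast h1.le
    have h5 : (n:ℝ) ^ (3/2:ℝ) ≤ 34 ^ (3/2:ℝ) := Real.rpow_le_rpow (by linarith) h4 (by norm_num)
    calc _ ≤ 1 / 34 ^ (3/2:ℝ) * (n:ℝ) ^ (3/2:ℝ) :=
          mul_le_mul_of_nonneg_right (min_le_left _ _) (by positivity)
      _ ≤ 1 / 34 ^ (3/2:ℝ) * 34 ^ (3/2:ℝ) := by gcongr
      _ = 1 := by field_simp
  · obtain ⟨a, ha⟩ : ∃ a : ℕ, a = n / 34 := ⟨_, rfl⟩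
    have ha1 : 1 ≤ a := by omega
    have ha2 : 34 * a ≤ n := by omega
    have ha3 : n ≤ 68 * a := by omega
    have haR : (1:ℝ) ≤ a := by exact_mod_cast ha1
    have ha3R : (n:ℝ) ≤ 68 * a := by exact_mod_cast ha3
    obtain ⟨S, hS⟩ := low_all (h a ha1) σ
    set M : ℕ := ⌈c' * (a:ℝ) ^ (7/4:ℝ)⌉₊ with hM
    have hM0 : (0:ℝ) < M := by
      have : 0 < c' * (a:ℝ) ^ (7/4:ℝ) := by positivity
      exact lt_of_lt_of_le this (Nat.le_ceil _)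
    have h2 : Pr (fun _ => (1/2:ℝ)) S (fun F => Lng S F σ M (31 * a) (34 * a)) ≤
        Pr (fun _ => (1/2:ℝ)) S (fun F => (M:ℝ) ≤ ∑ τ ∈ cst σ.1 n,
          ind (Reach (↑F) σ.1 τ.1 ∧ DReach (↑(S \ F)) (face σ) (face τ))) := by
      apply Pr_mono ok2
      rintro F - ⟨T, hT, hT2⟩
      rw [sum_ind]
      have h3 : T ⊆ (cst σ.1 n).filter
          (fun τ => Reach (↑F) σ.1 τ.1 ∧ DReach (↑(S \ F)) (face σ) (face τ)) := by
        intro τ hτ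
        obtain ⟨⟨-, h4⟩, h5⟩ := hT2 τ hτ
        rw [Finset.mem_filter]
        refine ⟨?_, h5⟩
        rw [mem_cst, ctr_iff]
        rw [far_iff] at h4
        omega
      have h4 := hT.trans (Finset.card_le_card h3)
      exact_mod_cast h4
    have h3 := markov (S := S) (cst σ.1 n) (fun τ F => Reach (↑F) σ.1 τ.1 ∧
      DReach (↑(S \ F)) (face σ) (face τ)) hM0
    have h4 := (hS.trans h2).trans h3
    rw [le_div_iff₀ hM0] at h4
    have h5 : ∑ τ ∈ cst σ.1 n, Pr (fun _ => (1/2:ℝ)) S (fun F => Reach (↑F) σ.1 τ.1 ∧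
        DReach (↑(S \ F)) (face σ) (face τ)) ≤
        ∑ τ ∈ cst σ.1 n, μ.real {ω | τ ∈ loop (opn ω) σ} := by
      apply Finset.sum_le_sum
      intro τ _
      apply le_law
      filter_upwards [closed_ae (by norm_num) hU σ] with ω hω
      rintro ⟨h6, h7⟩
      exact (mem_loop hω τ).2 (conn_of_fin h6 h7)
    refine le_trans ?_ (h4.trans h5)
    have h6 : c' * (a:ℝ) ^ (7/4:ℝ) ≤ M := Nat.le_ceil _
    have h7 : (0:ℝ) ≤ c' * (a:ℝ) ^ (-(1/4:ℝ)) := by positivity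
    refine le_trans ?_ (mul_le_mul_of_nonneg_left h6 h7)
    have h8 : (a:ℝ) ^ (-(1/4:ℝ)) * (a:ℝ) ^ (7/4:ℝ) = (a:ℝ) ^ (3/2:ℝ) := by
      rw [← Real.rpow_add (by linarith)]
      norm_num
    have h9 : (1/68:ℝ) ^ (3/2:ℝ) * (n:ℝ) ^ (3/2:ℝ) ≤ (a:ℝ) ^ (3/2:ℝ) := by
      rw [← Real.mul_rpow (by norm_num) (by linarith)]
      apply Real.rpow_le_rpow (by positivity) _ (by norm_num)
      linarith
    calc _ ≤ c' * c' * (1 / 68) ^ (3/2:ℝ) * (n:ℝ) ^ (3/2:ℝ) :=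
          mul_le_mul_of_nonneg_right (min_le_right _ _) (by positivity)
      _ = c' * c' * ((1 / 68) ^ (3/2:ℝ) * (n:ℝ) ^ (3/2:ℝ)) := by ring
      _ ≤ c' * c' * (a:ℝ) ^ (3/2:ℝ) := by gcongr
      _ = _ := by rw [← h8]; ring

end Pool.Agent.Y993.LL
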