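import Pool.Agent.Y993.LL.Loop
import Pool.Agent.H984R3.Per.Second
import Pool.Agent.H974R2.Infinite
import Pool.Agent.H342R2.Per.Loc

/-!
Upper bounds: two arms, pairs of states on the same loop, length of a loop.
-/

set_option autoImplicit false

namespace Pool.Agent.Y993.LL

open H974 Finset H342P H984P MeasureTheory

/-- The vertices of the two states are connected by open edges and their faces by dual edges. -/
def Conn (F : Set Edg) (σ τ : St) : Prop := Reach F σ.1 τ.1 ∧ DReach Fᶜ (face σ) (face τ)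

theorem Conn.symm {F : Set Edg} {σ τ : St} (h : Conn F σ τ) : Conn F τ σ := ⟨h.1.symm, h.2.symm⟩

theorem Conn.trans {F : Set Edg} {σ τ ρ : St} (h : Conn F σ τ) (h' : Conn F τ ρ) : Conn F σ ρ :=
  ⟨h.1.trans h'.1, h.2.trans h'.2⟩

theorem conn_orb (F : Set Edg) (σ : St) (s : ℕ) : Conn F σ (orb F σ s) :=
  ⟨orb_reach' F σ s, orb_dreach' F σ s⟩

theorem conn_of_mem {F : Set Edg} {σ τ : St} (h : τ ∈ loop F σ) : Conn F σ τ := by
  obtain ⟨s, rfl⟩ := h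
  exact conn_orb F σ s

theorem inc_face (σ : St) : Inc σ.1 (face σ) := by
  obtain ⟨⟨x, y⟩, q⟩ := σ
  cases q <;> simp [Inc]

theorem two_of_conn {F : Set Edg} {σ τ : St} {k : ℤ} (hk : 0 < k) (h : Conn F σ τ)
    (hf : Far σ.1 (k + 1) τ.1) : Two σ.1 (face σ) k F := by
  refine ⟨⟨τ.1, ?_, h.1⟩, face τ, ?_, h.2⟩
  · unfold Far at hf ⊢; omega
  · have h1 := inc_face τ
    unfold Inc at h1
    unfold Far at hf
    unfold FarF inF
    omega

theorem far_symm {u v : Vtx} {k : ℤ} (h : Far u k v) : Far v k u := by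
  unfold Far at h ⊢; omega

/-- the law of critical bond percolation -/
noncomputable abbrev μ : Measure (sqLattice.edgeSet → Bool) := bondLaw hlf

theorem ok2 : Ok (fun _ : Edg => (1/2:ℝ)) := fun _ => ⟨by norm_num, by norm_num⟩

theorem law_eq2 (S : Finset Edg) (A : Finset Edg → Prop) :
    μ.real {ω | A (FF S ω)} = Pr (fun _ => (1/2:ℝ)) S A := law_event hlf S A

theorem law_le {S : Finset Edg} {A : Finset Edg → Prop} {E : Set (sqLattice.edgeSet → Bool)}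
    (h : ∀ ω ∈ E, A (FF S ω)) : μ.real E ≤ Pr (fun _ => (1/2:ℝ)) S A := by
  rw [← law_eq2]
  exact measureReal_mono h

theorem le_law {S : Finset Edg} {A : Finset Edg → Prop} {E : Set (sqLattice.edgeSet → Bool)}
    (h : ∀ᵐ ω ∂μ, A (FF S ω) → ω ∈ E) : Pr (fun _ => (1/2:ℝ)) S A ≤ μ.real E := by
  rw [← law_eq2]
  unfold Measure.real
  exact ENNReal.toReal_mono (measure_ne_top _ _) (measure_mono_ae h)

/-- the box of edges of radius `k` around `u` -/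
noncomputable def bx (u : Vtx) (k : ℤ) : Finset Edg := RE (u.1 - k) (u.1 + k) (u.2 - k) (u.2 + k)

theorem two_FF {u f : Vtx} {k : ℤ} (hk : 0 < k) {S : Finset Edg} (hS : bx u k ⊆ S)
    (ω : sqLattice.edgeSet → Bool) : Two u f k (opn ω) ↔ Two u f k (↑(FF S ω)) := by
  rw [two_local hk, two_local hk (↑(FF S ω))]
  have : (opn ω ∩ ↑(RE (u.1 - k) (u.1 + k) (u.2 - k) (u.2 + k)) : Set Edg) =
      ↑(FF S ω) ∩ ↑(RE (u.1 - k) (u.1 + k) (u.2 - k) (u.2 + k)) := by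
    rw [FF_coe, Set.inter_assoc]
    congr 1
    rw [Set.inter_eq_right.2]
    exact_mod_cast hS
  rw [this]

theorem law_two {C t : ℝ} (hU : TwoUp C t) {u f : Vtx} {k : ℤ} (hk : 0 < k) (hf : Inc u f) :
    μ.real {ω | Two u f k (opn ω)} ≤ C * (k:ℝ) ^ (-t) := by
  refine (law_le (S := bx u k) (A := fun F => Two u f k (↑F)) ?_).trans (hU k u f hk hf)
  intro ω hω
  exact (two_FF hk (Finset.Subset.refl _) ω).1 hω

theorem mem_ctr' {z v : Vtx} {a : ℕ} : v ∈ ctr z a ↔ (z.1 - a ≤ v.1 ∧ v.1 ≤ z.1 + a) ∧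
    (z.2 - a ≤ v.2 ∧ v.2 ≤ z.2 + a) := mem_ctr

theorem far_of_not_ctr {z v : Vtx} {a : ℕ} (h : v ∉ ctr z a) : Far z ((a:ℤ) + 1) v := by
  rw [mem_ctr'] at h
  unfold Far
  omega

theorem not_ctr_of_far {z v : Vtx} {a : ℕ} (h : Far z ((a:ℤ) + 1) v) : v ∉ ctr z a := by
  rw [mem_ctr']
  unfold Far at h
  omega

theorem tendsto_rpow_neg {t C : ℝ} (ht : 0 < t) :
    Filter.Tendsto (fun n : ℕ => C * ((n:ℝ) + 1) ^ (-t)) Filter.atTop (nhds 0) := by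
  have h1 : Filter.Tendsto (fun n : ℕ => ((n:ℝ) + 1)) Filter.atTop Filter.atTop :=
    Filter.tendsto_atTop_add_const_right _ _ tendsto_natCast_atTop_atTop
  have h2 := (tendsto_rpow_neg_atTop ht).comp h1
  have h3 := h2.const_mul C
  rw [mul_zero] at h3
  exact h3

/-- Almost surely the interface through `σ` is a closed loop. -/
theorem closed_ae {C t : ℝ} (ht : 0 < t) (hU : TwoUp C t) (σ : St) :
    ∀ᵐ ω ∂μ, Closed (opn ω) σ := by
  have h1 : ∀ k : ℕ, μ.real {ω | ¬ Closed (opn ω) σ} ≤ C * ((k:ℝ) + 1) ^ (-t) := by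
    intro k
    have h2 := law_two hU (u := σ.1) (f := face σ) (k := (k:ℤ) + 1) (by omega) (inc_face σ)
    push_cast at h2
    refine le_trans (measureReal_mono ?_) h2
    intro ω hω
    have hω' : ¬ Closed (opn ω) σ := hω
    by_contra hcon
    apply hω'
    apply closed_of_bdd (ctr σ.1 (k + 1))
    intro s
    by_contra hs
    apply hcon
    have h3 := far_of_not_ctr hs
    push_cast at h3
    exact two_of_conn (by omega) (conn_orb (opn ω) σ s) h3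
  have h2 : μ.real {ω | ¬ Closed (opn ω) σ} ≤ 0 := ge_of_tendsto' (tendsto_rpow_neg ht) h1
  have h3 : μ {ω | ¬ Closed (opn ω) σ} = 0 := by
    have h4 : μ.real {ω | ¬ Closed (opn ω) σ} = 0 := le_antisymm h2 measureReal_nonneg
    exact (measureReal_eq_zero_iff).1 h4
  exact h3

theorem closed_all_ae {C t : ℝ} (ht : 0 < t) (hU : TwoUp C t) :
    ∀ᵐ ω ∂μ, ∀ σ : St, Closed (opn ω) σ := ae_all_iff.2 fun σ => closed_ae ht hU σ

theorem far_of_dist {u v : Vtx} {k : ℤ} (hk : 0 < k)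
    (hd : 2 * k < |u.1 - v.1| ∨ 2 * k < |u.2 - v.2|) : Far u (k + 1) v := by
  unfold Far
  rcases hd with hd | hd <;> rw [lt_abs] at hd <;> omega

/-- the finite volume majorant of `Conn` -/
def TT (σ τ : St) (F : Set Edg) : Prop := ∀ k : ℤ, 0 < k →
  (2 * k < |σ.1.1 - τ.1.1| ∨ 2 * k < |σ.1.2 - τ.1.2|) → Two σ.1 (face σ) k F ∧ Two τ.1 (face τ) k F

theorem TT_of_conn {F : Set Edg} {σ τ : St} (h : Conn F σ τ) : TT σ τ F := by
  intro k hk hd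
  refine ⟨two_of_conn hk h (far_of_dist hk hd), two_of_conn hk h.symm (far_symm
    (far_of_dist hk hd))⟩

theorem bx_sub {u v : Vtx} {k K : ℤ} (h1 : v.1 - K ≤ u.1 - k) (h2 : u.1 + k ≤ v.1 + K)
    (h3 : v.2 - K ≤ u.2 - k) (h4 : u.2 + k ≤ v.2 + K) : bx u k ⊆ bx v K := by
  unfold bx
  rintro ⟨x, y, b⟩ he
  cases b
  · rw [mem_RE_false] at he ⊢; omega
  · rw [mem_RE_true] at he ⊢; omega

theorem TT_FF {σ τ : St} {S : Finset Edg} {K : ℤ} (hS : bx σ.1 K ⊆ S)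
    (h1 : 2 * |σ.1.1 - τ.1.1| ≤ K) (h2 : 2 * |σ.1.2 - τ.1.2| ≤ K)
    (ω : sqLattice.edgeSet → Bool) : TT σ τ (opn ω) ↔ TT σ τ (↑(FF S ω)) := by
  unfold TT
  refine forall_congr' fun k => forall_congr' fun hk => forall_congr' fun hd => ?_
  have e1 := abs_nonneg (σ.1.1 - τ.1.1)
  have e2 := abs_nonneg (σ.1.2 - τ.1.2)
  have e3 := le_abs_self (σ.1.1 - τ.1.1)
  have e4 := neg_abs_le (σ.1.1 - τ.1.1)
  have e5 := le_abs_self (σ.1.2 - τ.1.2)
  have e6 := neg_abs_le (σ.1.2 - τ.1.2)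
  rw [two_FF hk ((bx_sub (by omega) (by omega) (by omega) (by omega)).trans hS),
    two_FF hk ((bx_sub (v := σ.1) (K := K) (by omega) (by omega) (by omega) (by omega)).trans hS)]

theorem pr_pair {C t : ℝ} (hU : TwoUp C t) {σ τ : St} {S : Finset Edg} {k : ℤ}
    (hk : 0 < k) (hσ : bx σ.1 k ⊆ S) (hτ : bx τ.1 k ⊆ S)
    (hd : 2 * k < |σ.1.1 - τ.1.1| ∨ 2 * k < |σ.1.2 - τ.1.2|) :
    Pr (fun _ => (1/2:ℝ)) S (fun F => Two σ.1 (face σ) k (↑F) ∧ Two τ.1 (face τ) k (↑F)) ≤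
      (C * (k:ℝ) ^ (-t)) * (C * (k:ℝ) ^ (-t)) := by
  have hdis : Disjoint (bx σ.1 k) (bx τ.1 k) := by
    unfold bx
    rw [Finset.disjoint_left]
    rintro ⟨x, y, b⟩ h1 h2
    rcases hd with hd | hd
    · cases b
      · rw [mem_RE_false] at h1 h2; rw [lt_abs] at hd; omega
      · rw [mem_RE_true] at h1 h2; rw [lt_abs] at hd; omega
    · cases b
      · rw [mem_RE_false] at h1 h2; rw [lt_abs] at hd; omega
      · rw [mem_RE_true] at h1 h2; rw [lt_abs] at hd; omega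
  rw [Pr_indep hσ hτ hdis
    (fun F _ => two_inter hk F (Finset.Subset.refl _))
    (fun F _ => two_inter hk F (Finset.Subset.refl _)),
    pr_two hk hσ, pr_two hk hτ]
  have h2 := hU k σ.1 (face σ) hk (inc_face σ)
  have h3 := hU k τ.1 (face τ) hk (inc_face τ)
  exact mul_le_mul h2 h3 (Pr_nonneg ok2 _ _) ((Pr_nonneg ok2 _ _).trans h2)

/-- The pair bound. -/
theorem pr_TT {C t : ℝ} (hC : 0 < C) (ht : 0 ≤ t) (ht1 : t < 1) (hU : TwoUp C t)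
    {σ τ : St} {S : Finset Edg} {K : ℤ} (hS : bx σ.1 K ⊆ S)
    (hK1 : 2 * |σ.1.1 - τ.1.1| ≤ K) (hK2 : 2 * |σ.1.2 - τ.1.2| ≤ K) :
    Pr (fun _ => (1/2:ℝ)) S (fun F => TT σ τ (↑F)) ≤
      (25 * (1 + C ^ 2)) * (kr t (σ.1.1 - τ.1.1) * kr t (σ.1.2 - τ.1.2)) := by
  set d : ℤ := max |σ.1.1 - τ.1.1| |σ.1.2 - τ.1.2| with hd
  have hd1 : |σ.1.1 - τ.1.1| ≤ d := le_max_left _ _
  have hd2 : |σ.1.2 - τ.1.2| ≤ d := le_max_right _ _
  have hd0 : 0 ≤ d := (abs_nonneg _).trans hd1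
  have hdR : (0:ℝ) < (d:ℝ) + 1 := by
    have : (0:ℝ) ≤ (d:ℝ) := by exact_mod_cast hd0
    linarith
  have hk1 : ((d:ℝ) + 1) ^ (-t) ≤ kr t (σ.1.1 - τ.1.1) := by
    unfold kr
    apply Real.rpow_le_rpow_of_nonpos _ _ (by linarith)
    · have : (0:ℝ) ≤ ((|σ.1.1 - τ.1.1| : ℤ) : ℝ) := by exact_mod_cast abs_nonneg _
      linarith
    · have : ((|σ.1.1 - τ.1.1| : ℤ) : ℝ) ≤ d := by exact_mod_cast hd1
      linarith
  have hk2 : ((d:ℝ) + 1) ^ (-t) ≤ kr t (σ.1.2 - τ.1.2) := by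
    unfold kr
    apply Real.rpow_le_rpow_of_nonpos _ _ (by linarith)
    · have : (0:ℝ) ≤ ((|σ.1.2 - τ.1.2| : ℤ) : ℝ) := by exact_mod_cast abs_nonneg _
      linarith
    · have : ((|σ.1.2 - τ.1.2| : ℤ) : ℝ) ≤ d := by exact_mod_cast hd2
      linarith
  have hX : (0:ℝ) < ((d:ℝ) + 1) ^ (-t) := Real.rpow_pos_of_pos hdR _
  have hkk : ((d:ℝ) + 1) ^ (-t) * ((d:ℝ) + 1) ^ (-t) ≤
      kr t (σ.1.1 - τ.1.1) * kr t (σ.1.2 - τ.1.2) :=
    mul_le_mul hk1 hk2 hX.le (hX.le.trans hk1)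
  by_cases h3 : d ≤ 2
  · refine (Pr_le_one ok2 _ _).trans ?_
    have h4 : (1:ℝ) / 3 ≤ ((d:ℝ) + 1) ^ (-t) := by
      have h5 : ((d:ℝ) + 1) ≤ 3 := by
        have : (d:ℝ) ≤ 2 := by exact_mod_cast h3
        linarith
      have h6 : (3:ℝ) ^ (-t) ≤ ((d:ℝ) + 1) ^ (-t) :=
        Real.rpow_le_rpow_of_nonpos hdR h5 (by linarith)
      have h7 : (3:ℝ) ^ (-1:ℝ) ≤ (3:ℝ) ^ (-t) :=
        Real.rpow_le_rpow_of_exponent_le (by norm_num) (by linarith)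
      rw [Real.rpow_neg_one] at h7
      linarith
    have h8 : (1:ℝ) / 9 ≤ ((d:ℝ) + 1) ^ (-t) * ((d:ℝ) + 1) ^ (-t) := by nlinarith
    have h9 : (0:ℝ) ≤ C ^ 2 := sq_nonneg _
    nlinarith
  · push Not at h3
    obtain ⟨k, hk⟩ : ∃ k : ℤ, k = (d - 1) / 2 := ⟨_, rfl⟩
    have hk0 : 0 < k := by omega
    have hkd : 2 * k < d := by omega
    have hk5 : d + 1 ≤ 5 * k := by omega
    have hdd : 2 * k < |σ.1.1 - τ.1.1| ∨ 2 * k < |σ.1.2 - τ.1.2| := by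
      rcases max_choice |σ.1.1 - τ.1.1| |σ.1.2 - τ.1.2| with h | h
      · left; rw [← h, ← hd]; exact hkd
      · right; rw [← h, ← hd]; exact hkd
    have hdK : 2 * d ≤ K := by
      rcases max_choice |σ.1.1 - τ.1.1| |σ.1.2 - τ.1.2| with h | h
      · rw [hd, h]; exact hK1
      · rw [hd, h]; exact hK2
    have e3 := le_abs_self (σ.1.1 - τ.1.1)
    have e4 := neg_abs_le (σ.1.1 - τ.1.1)
    have e5 := le_abs_self (σ.1.2 - τ.1.2)
    have e6 := neg_abs_le (σ.1.2 - τ.1.2)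
    have hm : Pr (fun _ => (1/2:ℝ)) S (fun F => TT σ τ (↑F)) ≤
        Pr (fun _ => (1/2:ℝ)) S
          (fun F => Two σ.1 (face σ) k (↑F) ∧ Two τ.1 (face τ) k (↑F)) :=
      Pr_mono ok2 (fun F _ h => h k hk0 hdd)
    refine hm.trans ((pr_pair hU hk0 ((bx_sub (by omega) (by omega) (by omega) (by omega)).trans hS)
      ((bx_sub (v := σ.1) (K := K) (by omega) (by omega) (by omega) (by omega)).trans hS)
      hdd).trans ?_)
    have hkR : (0:ℝ) < (k:ℝ) := by exact_mod_cast hk0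
    have hkt : (k:ℝ) ^ (-t) ≤ 5 * ((d:ℝ) + 1) ^ (-t) := by
      have h4 : ((d:ℝ) + 1) / 5 ≤ k := by
        have : ((d:ℝ) + 1) ≤ 5 * k := by exact_mod_cast hk5
        linarith
      have h5 : (k:ℝ) ^ (-t) ≤ (((d:ℝ) + 1) / 5) ^ (-t) :=
        Real.rpow_le_rpow_of_nonpos (by positivity) h4 (by linarith)
      have h6 : (((d:ℝ) + 1) / 5) ^ (-t) = ((d:ℝ) + 1) ^ (-t) * (5:ℝ) ^ t := by
        rw [Real.div_rpow hdR.le (by norm_num), Real.rpow_neg (by norm_num : (0:ℝ) ≤ 5)]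
        rw [div_inv_eq_mul]
      have h7 : (5:ℝ) ^ t ≤ 5 := by
        have := Real.rpow_le_rpow_of_exponent_le (by norm_num : (1:ℝ) ≤ 5) ht1.le
        rwa [Real.rpow_one] at this
      rw [h6] at h5
      nlinarith
    have hk00 : (0:ℝ) ≤ (k:ℝ) ^ (-t) := Real.rpow_nonneg hkR.le _
    have h8 : (k:ℝ) ^ (-t) * (k:ℝ) ^ (-t) ≤ 25 * (((d:ℝ) + 1) ^ (-t) * ((d:ℝ) + 1) ^ (-t)) := by
      nlinarith
    have h9 : 0 ≤ kr t (σ.1.1 - τ.1.1) * kr t (σ.1.2 - τ.1.2) :=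
      mul_nonneg (kr_nonneg _ _) (kr_nonneg _ _)
    calc C * (k:ℝ) ^ (-t) * (C * (k:ℝ) ^ (-t)) = C ^ 2 * ((k:ℝ) ^ (-t) * (k:ℝ) ^ (-t)) := by ring
      _ ≤ C ^ 2 * (25 * (((d:ℝ) + 1) ^ (-t) * ((d:ℝ) + 1) ^ (-t))) :=
          mul_le_mul_of_nonneg_left h8 (sq_nonneg _)
      _ ≤ C ^ 2 * (25 * (kr t (σ.1.1 - τ.1.1) * kr t (σ.1.2 - τ.1.2))) := by
          apply mul_le_mul_of_nonneg_left _ (sq_nonneg _)
          linarith
      _ ≤ _ := by nlinarith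

/-- The states whose vertex is in the square of radius `a` around `z`. -/
noncomputable def cst (z : Vtx) (a : ℕ) : Finset St := ctr z a ×ˢ (Finset.univ : Finset Q4)

theorem mem_cst {z : Vtx} {a : ℕ} {τ : St} : τ ∈ cst z a ↔ τ.1 ∈ ctr z a := by
  unfold cst
  rw [Finset.mem_product]
  exact ⟨fun h => h.1, fun h => ⟨h, Finset.mem_univ _⟩⟩

theorem abs_ctr {z v : Vtx} {a : ℕ} (h : v ∈ ctr z a) : |z.1 - v.1| ≤ a ∧ |z.2 - v.2| ≤ a := by
  rw [mem_ctr'] at h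
  rw [abs_le, abs_le]
  omega

/-- Summation of the pair bound over a square. -/
theorem sum_TT {C t : ℝ} (hC : 0 < C) (ht : 0 ≤ t) (ht1 : t < 1) (hU : TwoUp C t)
    (σ : St) {a : ℕ} (ha : 1 ≤ a) {S : Finset Edg} (hS : bx σ.1 (2 * a) ⊆ S) :
    ∑ τ ∈ cst σ.1 a, Pr (fun _ => (1/2:ℝ)) S (fun F => TT σ τ (↑F)) ≤
      (4 * (25 * (1 + C ^ 2)) * (6 / (1 - t)) ^ 2) * (a:ℝ) ^ (2 - 2 * t) := by
  have haR : (1:ℝ) ≤ a := by exact_mod_cast ha
  set K : ℝ := 25 * (1 + C ^ 2) with hK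
  have hK0 : 0 < K := by positivity
  set B : ℝ := 6 / (1 - t) * (a:ℝ) ^ (1 - t) with hB
  have hB0 : 0 ≤ B := by
    have : (0:ℝ) < 1 - t := by linarith
    positivity
  have h1 : ∑ τ ∈ cst σ.1 a, Pr (fun _ => (1/2:ℝ)) S (fun F => TT σ τ (↑F)) ≤
      ∑ τ ∈ cst σ.1 a, K * (kr t (σ.1.1 - τ.1.1) * kr t (σ.1.2 - τ.1.2)) := by
    apply Finset.sum_le_sum
    intro τ hτ
    rw [mem_cst] at hτ
    obtain ⟨e1, e2⟩ := abs_ctr hτ
    exact pr_TT hC ht ht1 hU hS (by omega) (by omega)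
  refine h1.trans ?_
  unfold cst
  rw [Finset.sum_product]
  simp only [Finset.sum_const, Finset.card_univ, nsmul_eq_mul]
  have hcard : Fintype.card Q4 = 4 := rfl
  rw [hcard, ← Finset.mul_sum, ← Finset.mul_sum]
  unfold ctr
  rw [Finset.sum_product]
  simp only
  rw [← Finset.sum_mul_sum]
  have h2 := mul_le_mul
    (sum_kr_le ht ht1 ha (u := σ.1.1) (r := σ.1.1) (by omega) (by omega))
    (sum_kr_le ht ht1 ha (u := σ.1.2) (r := σ.1.2) (by omega) (by omega))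
    (Finset.sum_nonneg (fun x _ => kr_nonneg _ _)) hB0
  have h4 : (a:ℝ) ^ (2 - 2 * t) = (a:ℝ) ^ (1 - t) * (a:ℝ) ^ (1 - t) := by
    rw [← Real.rpow_add (by linarith)]
    congr 1
    ring
  rw [h4]
  push_cast
  calc _ ≤ 4 * (K * (6 / (1 - t) * (a:ℝ) ^ (1 - t) * (6 / (1 - t) * (a:ℝ) ^ (1 - t)))) := by
        apply mul_le_mul_of_nonneg_left _ (by norm_num)
        exact mul_le_mul_of_nonneg_left h2 hK0.le
    _ = _ := by ring

/-- Markov's inequality for the number of events that occur. -/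
theorem markov {S : Finset Edg} {ι : Type*} (T : Finset ι) (A : ι → Finset Edg → Prop)
    {ℓ : ℝ} (hℓ : 0 < ℓ) :
    Pr (fun _ => (1/2:ℝ)) S (fun F => ℓ ≤ ∑ i ∈ T, ind (A i F)) ≤
      (∑ i ∈ T, Pr (fun _ => (1/2:ℝ)) S (A i)) / ℓ := by
  rw [le_div_iff₀ hℓ]
  have h1 : Pr (fun _ => (1/2:ℝ)) S (fun F => ℓ ≤ ∑ i ∈ T, ind (A i F)) * ℓ =
      Ex (fun _ => (1/2:ℝ)) S (fun F => ind (ℓ ≤ ∑ i ∈ T, ind (A i F)) * ℓ) := by
    rw [Ex_mul_right]; rfl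
  have h2 : ∑ i ∈ T, Pr (fun _ => (1/2:ℝ)) S (A i) =
      Ex (fun _ => (1/2:ℝ)) S (fun F => ∑ i ∈ T, ind (A i F)) := by
    rw [Ex_sum]; rfl
  rw [h1, h2]
  apply Ex_mono ok2
  intro F _
  by_cases h : ℓ ≤ ∑ i ∈ T, ind (A i F)
  · rw [ind_of h, one_mul]; exact h
  · rw [ind_not_of h, zero_mul]
    exact Finset.sum_nonneg fun i _ => ind_nonneg _

theorem sum_ind {ι : Type*} (T : Finset ι) (P : ι → Prop) [DecidablePred P] :
    ∑ i ∈ T, ind (P i) = ((T.filter P).card : ℝ) := by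
  rw [Finset.card_filter]
  push_cast
  apply Finset.sum_congr rfl
  intro i _
  by_cases h : P i
  · rw [ind_of h, if_pos h]
  · rw [ind_not_of h, if_neg h]

/-- Length of a loop: upper bound. -/
theorem len_upper {C t : ℝ} (hC : 0 < C) (ht : 0 ≤ t) (ht1 : t < 1) (hU : TwoUp C t)
    (σ : St) {a : ℕ} (ha : 1 ≤ a) {ℓ : ℕ} (hℓ : 1 ≤ ℓ) :
    μ.real {ω | ℓ ≤ (loop (opn ω) σ).ncard} ≤ C * (a:ℝ) ^ (-t) +
      (4 * (25 * (1 + C ^ 2)) * (6 / (1 - t)) ^ 2) * (a:ℝ) ^ (2 - 2 * t) / ℓ := by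
  classical
  set S : Finset Edg := bx σ.1 (2 * a) with hS
  have hℓR : (0:ℝ) < ℓ := by exact_mod_cast hℓ
  have hcov : {ω | ℓ ≤ (loop (opn ω) σ).ncard} ⊆ {ω | Two σ.1 (face σ) a (opn ω)} ∪
      {ω | (ℓ:ℝ) ≤ ∑ τ ∈ cst σ.1 a, ind (TT σ τ (↑(FF S ω)))} := by
    intro ω hω
    have hω' : ℓ ≤ (loop (opn ω) σ).ncard := hω
    by_cases h : ∀ τ ∈ loop (opn ω) σ, τ.1 ∈ ctr σ.1 a
    · right
      show (ℓ:ℝ) ≤ ∑ τ ∈ cst σ.1 a, ind (TT σ τ (↑(FF S ω)))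
      rw [sum_ind]
      have h1 : loop (opn ω) σ ⊆ ↑((cst σ.1 a).filter (fun τ => TT σ τ (↑(FF S ω)))) := by
        intro τ hτ
        rw [Finset.mem_coe, Finset.mem_filter]
        refine ⟨mem_cst.2 (h τ hτ), ?_⟩
        obtain ⟨e1, e2⟩ := abs_ctr (h τ hτ)
        exact (TT_FF (K := 2 * a) (Finset.Subset.refl _) (by omega) (by omega) ω).1
          (TT_of_conn (conn_of_mem hτ))
      have h2 := Set.ncard_le_ncard h1 (Finset.finite_toSet _)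
      rw [Set.ncard_coe_finset] at h2
      exact_mod_cast hω'.trans h2
    · left
      push Not at h
      obtain ⟨τ, hτ, hτ2⟩ := h
      exact two_of_conn (by omega) (conn_of_mem hτ) (far_of_not_ctr hτ2)
  refine (measureReal_mono hcov).trans ((measureReal_union_le _ _).trans ?_)
  apply add_le_add
  · have := law_two hU (u := σ.1) (f := face σ) (k := (a:ℤ)) (by omega) (inc_face σ)
    exact_mod_cast this
  · refine (law_le (S := S) (A := fun F => (ℓ:ℝ) ≤ ∑ τ ∈ cst σ.1 a, ind (TT σ τ (↑F))) ?_).trans ?_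
    · intro ω hω; exact hω
    · refine (markov (cst σ.1 a) (fun τ F => TT σ τ (↑F)) hℓR).trans ?_
      exact div_le_div_of_nonneg_right (sum_TT hC ht ht1 hU σ ha (Finset.Subset.refl _)) hℓR.le

end Pool.Agent.Y993.LL
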