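import Pool.Agent.Y993.LL.Final

/-!
Second moment of the number of states near a point with two arms to distance `k`.
-/

set_option autoImplicit false

namespace Pool.Agent.Y993.LL

open H974 Finset H342P H984P MeasureTheory

/-- The number of states at distance at most `5 k` from `z` with two arms to distance `k`. -/
noncomputable def Wk (z : Vtx) (k : ℕ) (F : Finset Edg) : ℝ :=
  ∑ σ ∈ cst z (5 * k), ind (Two σ.1 (face σ) k (↑F))

theorem Wk_nonneg (z : Vtx) (k : ℕ) (F : Finset Edg) : 0 ≤ Wk z k F :=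
  Finset.sum_nonneg fun _ _ => ind_nonneg _

theorem Wk_local {z : Vtx} {k : ℕ} (hk : 1 ≤ k) (F : Finset Edg) :
    Wk z k F = Wk z k (F ∩ bx z (6 * k)) := by
  unfold Wk
  apply Finset.sum_congr rfl
  intro σ hσ
  rw [mem_cst, mem_ctr'] at hσ
  push_cast at hσ
  apply ind_congr
  refine two_inter (by omega) F ?_
  exact bx_sub (by omega) (by omega) (by omega) (by omega)

theorem two_mono {u f : Vtx} {k k' : ℤ} (h : k' ≤ k) (hk : 0 < k') {F : Set Edg}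
    (h2 : Two u f k F) : Two u f k' F := by
  obtain ⟨⟨w, h3, h4⟩, g, h5, h6⟩ := h2
  refine ⟨⟨w, ?_, h4⟩, g, ?_, h6⟩
  · unfold Far at h3 ⊢; omega
  · unfold FarF inF at h5 ⊢; omega

theorem kr_low {t : ℝ} (ht : 0 ≤ t) (ht1 : t ≤ 1) {k : ℕ} (hk : 1 ≤ k) {x : ℤ}
    (hx : |x| ≤ 10 * k) : (k:ℝ) ^ (-t) ≤ 11 * kr t x := by
  have hkR : (1:ℝ) ≤ k := by exact_mod_cast hk
  have h0 : (0:ℝ) ≤ ((|x| : ℤ) : ℝ) := by exact_mod_cast abs_nonneg x
  have h1 : ((|x| : ℤ) : ℝ) + 1 ≤ 11 * k := by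
    have : ((|x| : ℤ) : ℝ) ≤ 10 * k := by exact_mod_cast hx
    linarith
  have h2 : (11 * (k:ℝ)) ^ (-t) ≤ kr t x := by
    unfold kr
    exact Real.rpow_le_rpow_of_nonpos (by linarith) h1 (by linarith)
  rw [Real.mul_rpow (by norm_num) (by linarith)] at h2
  have h3 : (11:ℝ) ^ (-1:ℝ) ≤ 11 ^ (-t) :=
    Real.rpow_le_rpow_of_exponent_le (by norm_num) (by linarith)
  rw [Real.rpow_neg_one] at h3
  have h4 : (0:ℝ) ≤ (k:ℝ) ^ (-t) := Real.rpow_nonneg (by linarith) _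
  have h5 := mul_le_mul_of_nonneg_right h3 h4
  linarith

theorem pr_near {C t : ℝ} (hC : 0 < C) (ht : 0 ≤ t) (ht1 : t < 1) (hU : TwoUp C t) {z : Vtx}
    {k : ℕ} (hk : 1 ≤ k) {S : Finset Edg} (hS : bx z (9 * k) ⊆ S) {σ τ : St}
    (hσ : σ ∈ cst z (5 * k)) (hτ : τ ∈ cst z (5 * k)) :
    Pr (fun _ => (1/2:ℝ)) S
      (fun F => Two σ.1 (face σ) k (↑F) ∧ Two τ.1 (face τ) k (↑F)) ≤
      (121 * (1 + C ^ 2)) * (kr t (σ.1.1 - τ.1.1) * kr t (σ.1.2 - τ.1.2)) := by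
  rw [mem_cst, mem_ctr'] at hσ hτ
  push_cast at hσ hτ
  have h9 : 0 ≤ kr t (σ.1.1 - τ.1.1) * kr t (σ.1.2 - τ.1.2) :=
    mul_nonneg (kr_nonneg _ _) (kr_nonneg _ _)
  have hC2 : 0 ≤ C ^ 2 := sq_nonneg _
  by_cases h : 2 * (k:ℤ) < |σ.1.1 - τ.1.1| ∨ 2 * (k:ℤ) < |σ.1.2 - τ.1.2|
  · refine (pr_pair hU (k := (k:ℤ)) (by omega)
      ((bx_sub (by omega) (by omega) (by omega) (by omega)).trans hS)
      ((bx_sub (by omega) (by omega) (by omega) (by omega)).trans hS) h).trans ?_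
    have e1 : |σ.1.1 - τ.1.1| ≤ 10 * k := by rw [abs_le]; omega
    have e2 : |σ.1.2 - τ.1.2| ≤ 10 * k := by rw [abs_le]; omega
    have h1 := kr_low ht ht1.le hk e1
    have h2 := kr_low ht ht1.le hk e2
    have h0 : (0:ℝ) ≤ (k:ℝ) ^ (-t) := Real.rpow_nonneg (Nat.cast_nonneg _) _
    have h3 : (k:ℝ) ^ (-t) * (k:ℝ) ^ (-t) ≤
        121 * (kr t (σ.1.1 - τ.1.1) * kr t (σ.1.2 - τ.1.2)) := by
      calc _ ≤ (11 * kr t (σ.1.1 - τ.1.1)) * (11 * kr t (σ.1.2 - τ.1.2)) :=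
            mul_le_mul h1 h2 h0 (h0.trans h1)
        _ = _ := by ring
    push_cast
    calc C * (k:ℝ) ^ (-t) * (C * (k:ℝ) ^ (-t)) = C ^ 2 * ((k:ℝ) ^ (-t) * (k:ℝ) ^ (-t)) := by ring
      _ ≤ C ^ 2 * (121 * (kr t (σ.1.1 - τ.1.1) * kr t (σ.1.2 - τ.1.2))) :=
          mul_le_mul_of_nonneg_left h3 hC2
      _ ≤ _ := by nlinarith
  · push Not at h
    have hTT : Pr (fun _ => (1/2:ℝ)) S
        (fun F => Two σ.1 (face σ) k (↑F) ∧ Two τ.1 (face τ) k (↑F)) ≤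
        Pr (fun _ => (1/2:ℝ)) S (fun F => TT σ τ (↑F)) := by
      apply Pr_mono ok2
      rintro F - ⟨h1, h2⟩ k' hk' hd
      have hkk : k' ≤ k := by omega
      exact ⟨two_mono hkk hk' h1, two_mono hkk hk' h2⟩
    refine hTT.trans ((pr_TT hC ht ht1 hU (K := 4 * k)
      ((bx_sub (by omega) (by omega) (by omega) (by omega)).trans hS) (by omega)
      (by omega)).trans ?_)
    apply mul_le_mul_of_nonneg_right _ h9
    nlinarith

theorem Wk_sq {C : ℝ} (hC : 0 < C) (hU : TwoUp C (1/4)) : ∃ K : ℝ, 0 < K ∧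
    ∀ (z : Vtx) (k : ℕ), 1 ≤ k → ∀ S : Finset Edg, bx z (9 * k) ⊆ S →
      Ex (fun _ => (1/2:ℝ)) S (Wk z k) ≤ K * (k:ℝ) ^ (7/4:ℝ) ∧
      Ex (fun _ => (1/2:ℝ)) S (fun F => Wk z k F * Wk z k F) ≤ K * (k:ℝ) ^ (7/2:ℝ) := by
  set K1 : ℝ := 484 * C with hK1
  set K2 : ℝ := 484 * (4 * (121 * (1 + C ^ 2)) * 64 * 5 ^ (3/2:ℝ)) with hK2
  have hK10 : 0 < K1 := by positivity
  have hK20 : 0 < K2 := by positivity
  refine ⟨K1 + K2, by positivity, ?_⟩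
  intro z k hk S hS
  have hkR : (1:ℝ) ≤ k := by exact_mod_cast hk
  have hk0 : (0:ℝ) < k := by linarith
  have hcard : ((cst z (5 * k)).card : ℝ) ≤ 484 * (k:ℝ) ^ 2 := by
    unfold cst
    rw [Finset.card_product, card_ctr, Finset.card_univ]
    have hc : Fintype.card Q4 = 4 := rfl
    rw [hc]
    push_cast
    nlinarith
  have hp : ∀ s : ℝ, (0:ℝ) ≤ (k:ℝ) ^ s := fun s => Real.rpow_nonneg hk0.le _
  constructor
  · unfold Wk
    rw [Ex_sum]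
    have h1 : ∀ σ ∈ cst z (5 * k), Ex (fun _ => (1/2:ℝ)) S
        (fun F => ind (Two σ.1 (face σ) k (↑F))) ≤ C * (k:ℝ) ^ (-(1/4:ℝ)) := by
      intro σ hσ
      rw [mem_cst, mem_ctr'] at hσ
      push_cast at hσ
      have h2 : Pr (fun _ => (1/2:ℝ)) S (fun F => Two σ.1 (face σ) k (↑F)) =
          Pr (fun _ => (1/2:ℝ)) (bx σ.1 k) (fun F => Two σ.1 (face σ) k (↑F)) :=
        pr_two (by omega) ((bx_sub (by omega) (by omega) (by omega) (by omega)).trans hS)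
      have h3 := hU k σ.1 (face σ) (by omega) (inc_face σ)
      refine (le_of_eq h2).trans ?_
      exact_mod_cast h3
    refine (Finset.sum_le_sum h1).trans ?_
    rw [Finset.sum_const, nsmul_eq_mul]
    have h4 : (k:ℝ) ^ 2 * (k:ℝ) ^ (-(1/4:ℝ)) = (k:ℝ) ^ (7/4:ℝ) := by
      rw [← Real.rpow_natCast, ← Real.rpow_add hk0]
      norm_num
    calc _ ≤ 484 * (k:ℝ) ^ 2 * (C * (k:ℝ) ^ (-(1/4:ℝ))) :=
          mul_le_mul_of_nonneg_right hcard (mul_nonneg hC.le (hp _))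
      _ = K1 * ((k:ℝ) ^ 2 * (k:ℝ) ^ (-(1/4:ℝ))) := by rw [hK1]; ring
      _ = K1 * (k:ℝ) ^ (7/4:ℝ) := by rw [h4]
      _ ≤ _ := by
          apply mul_le_mul_of_nonneg_right _ (hp _)
          linarith
  · have h1 : Ex (fun _ => (1/2:ℝ)) S (fun F => Wk z k F * Wk z k F) =
        ∑ σ ∈ cst z (5 * k), ∑ τ ∈ cst z (5 * k), Pr (fun _ => (1/2:ℝ)) S
          (fun F => Two σ.1 (face σ) k (↑F) ∧ Two τ.1 (face τ) k (↑F)) := by
      have h2 : ∀ F : Finset Edg, Wk z k F * Wk z k F =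
          ∑ σ ∈ cst z (5 * k), ∑ τ ∈ cst z (5 * k),
            ind (Two σ.1 (face σ) k (↑F) ∧ Two τ.1 (face τ) k (↑F)) := by
        intro F
        unfold Wk
        rw [Finset.sum_mul_sum]
        apply Finset.sum_congr rfl
        intro σ _
        apply Finset.sum_congr rfl
        intro τ _
        rw [ind_and]
      rw [Ex_congr (fun F _ => h2 F), Ex_sum]
      apply Finset.sum_congr rfl
      intro σ _
      rw [Ex_sum]
      rfl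
    rw [h1]
    have h2 : ∀ σ ∈ cst z (5 * k), ∑ τ ∈ cst z (5 * k), Pr (fun _ => (1/2:ℝ)) S
          (fun F => Two σ.1 (face σ) k (↑F) ∧ Two τ.1 (face τ) k (↑F)) ≤
        (4 * (121 * (1 + C ^ 2)) * 64 * 5 ^ (3/2:ℝ)) * (k:ℝ) ^ (3/2:ℝ) := by
      intro σ hσ
      refine (Finset.sum_le_sum fun τ hτ =>
        pr_near hC (by norm_num) (by norm_num) hU hk hS hσ hτ).trans ?_
      rw [mem_cst, mem_ctr'] at hσ
      unfold cst
      rw [Finset.sum_product]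
      simp only [Finset.sum_const, Finset.card_univ, nsmul_eq_mul]
      have hc : Fintype.card Q4 = 4 := rfl
      rw [hc, ← Finset.mul_sum, ← Finset.mul_sum]
      unfold ctr
      rw [Finset.sum_product]
      simp only
      rw [← Finset.sum_mul_sum]
      have h3 := sum_kr_le (t := 1/4) (by norm_num) (by norm_num) (a := 5 * k) (by omega)
        (u := z.1) (r := σ.1.1) (by omega) (by omega)
      have h4 := sum_kr_le (t := 1/4) (by norm_num) (by norm_num) (a := 5 * k) (by omega)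
        (u := z.2) (r := σ.1.2) (by omega) (by omega)
      have h5 : (0:ℝ) ≤ 6 / (1 - 1/4) * ((5 * k : ℕ):ℝ) ^ (1 - 1/4:ℝ) := by positivity
      have h6 := mul_le_mul h3 h4 (Finset.sum_nonneg (fun x _ => kr_nonneg _ _)) h5
      have h7 : 6 / (1 - 1/4) * ((5 * k : ℕ):ℝ) ^ (1 - 1/4:ℝ) *
          (6 / (1 - 1/4) * ((5 * k : ℕ):ℝ) ^ (1 - 1/4:ℝ)) = 64 * 5 ^ (3/2:ℝ) * (k:ℝ) ^ (3/2:ℝ) := by
        have h8 : ((5 * k : ℕ):ℝ) ^ (1 - 1/4:ℝ) * ((5 * k : ℕ):ℝ) ^ (1 - 1/4:ℝ) =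
            5 ^ (3/2:ℝ) * (k:ℝ) ^ (3/2:ℝ) := by
          push_cast
          rw [← Real.rpow_add (by positivity), ← Real.mul_rpow (by norm_num) hk0.le]
          norm_num
        calc _ = 64 * (((5 * k : ℕ):ℝ) ^ (1 - 1/4:ℝ) * ((5 * k : ℕ):ℝ) ^ (1 - 1/4:ℝ)) := by ring
          _ = _ := by rw [h8]; ring
      rw [h7] at h6
      have h9 : (0:ℝ) ≤ 121 * (1 + C ^ 2) := by positivity
      push_cast at h6 ⊢
      calc _ ≤ 4 * (121 * (1 + C ^ 2) * (64 * 5 ^ (3/2:ℝ) * (k:ℝ) ^ (3/2:ℝ))) := by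
            apply mul_le_mul_of_nonneg_left _ (by norm_num)
            exact mul_le_mul_of_nonneg_left h6 h9
        _ = _ := by ring
    refine (Finset.sum_le_sum h2).trans ?_
    rw [Finset.sum_const, nsmul_eq_mul]
    have h4 : (k:ℝ) ^ 2 * (k:ℝ) ^ (3/2:ℝ) = (k:ℝ) ^ (7/2:ℝ) := by
      rw [← Real.rpow_natCast, ← Real.rpow_add hk0]
      norm_num
    have h5 : (0:ℝ) ≤ (4 * (121 * (1 + C ^ 2)) * 64 * 5 ^ (3/2:ℝ)) * (k:ℝ) ^ (3/2:ℝ) := by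
      positivity
    calc _ ≤ 484 * (k:ℝ) ^ 2 * ((4 * (121 * (1 + C ^ 2)) * 64 * 5 ^ (3/2:ℝ)) *
          (k:ℝ) ^ (3/2:ℝ)) := mul_le_mul_of_nonneg_right hcard h5
      _ = K2 * ((k:ℝ) ^ 2 * (k:ℝ) ^ (3/2:ℝ)) := by rw [hK2]; ring
      _ = K2 * (k:ℝ) ^ (7/2:ℝ) := by rw [h4]
      _ ≤ _ := by
          apply mul_le_mul_of_nonneg_right _ (hp _)
          linarith

end Pool.Agent.Y993.LL
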