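import Pool.Agent.Y993.LL.Zip1

/-!
Chebyshev's inequality for sums of local variables, applied to the local counts.
-/

set_option autoImplicit false

namespace Pool.Agent.Y993.LL

open H974 Finset H342P H984P MeasureTheory

theorem cheb {p : Edg → ℝ} (hp : Ok p) {U : Finset Edg} {ι : Type*} (I : Finset ι)
    (X : ι → Finset Edg → ℝ) (S : ι → Finset Edg) (hS : ∀ i ∈ I, S i ⊆ U)
    (hX : ∀ i F, 0 ≤ X i F) (hl : ∀ i ∈ I, ∀ F, X i F = X i (F ∩ S i)) (D : ℕ)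
    (near : ι → ι → Prop) [∀ i j, Decidable (near i j)]
    (hnear : ∀ i ∈ I, ∀ j ∈ I, ¬ near i j → Disjoint (S i) (S j))
    (hD : ∀ i ∈ I, (I.filter (fun j => near i j)).card ≤ D) {B : ℝ} (hB0 : 0 ≤ B)
    (hB : ∀ i ∈ I, Ex p U (fun F => X i F * X i F) ≤ B) {y : ℝ} (hy : 0 < y) :
    Pr p U (fun F => (∑ i ∈ I, Ex p U (X i)) + y ≤ ∑ i ∈ I, X i F) ≤ D * I.card * B / y ^ 2 := by
  classical
  set m : ℝ := ∑ i ∈ I, Ex p U (X i) with hm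
  have hm1 : Ex p U (fun F => ∑ i ∈ I, X i F) = m := by rw [Ex_sum]
  rw [le_div_iff₀ (by positivity)]
  have h1 : Pr p U (fun F => m + y ≤ ∑ i ∈ I, X i F) * y ^ 2 ≤
      Ex p U (fun F => (∑ i ∈ I, X i F) * (∑ i ∈ I, X i F) - 2 * m * (∑ i ∈ I, X i F) + m ^ 2) := by
    unfold Pr
    rw [← Ex_mul_right]
    apply Ex_mono hp
    intro F _
    by_cases h : m + y ≤ ∑ i ∈ I, X i F
    · rw [ind_of h, one_mul]
      nlinarith
    · rw [ind_not_of h, zero_mul]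
      nlinarith [sq_nonneg ((∑ i ∈ I, X i F) - m)]
  refine h1.trans ?_
  have h2 : Ex p U (fun F => (∑ i ∈ I, X i F) * (∑ i ∈ I, X i F) -
      2 * m * (∑ i ∈ I, X i F) + m ^ 2) =
      Ex p U (fun F => (∑ i ∈ I, X i F) * (∑ i ∈ I, X i F)) - m * m := by
    rw [Ex_add, Ex_sub, Ex_mul_left, Ex_const, hm1]
    ring
  have h3 : Ex p U (fun F => (∑ i ∈ I, X i F) * (∑ i ∈ I, X i F)) =
      ∑ i ∈ I, ∑ j ∈ I, Ex p U (fun F => X i F * X j F) := by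
    rw [Ex_congr (g := fun F => ∑ i ∈ I, ∑ j ∈ I, X i F * X j F)
      (fun F _ => Finset.sum_mul_sum _ _ _ _), Ex_sum]
    exact Finset.sum_congr rfl fun i _ => Ex_sum _ _ _ _
  rw [h2, h3, hm, Finset.sum_mul_sum, ← Finset.sum_sub_distrib]
  have h4 : ∀ i ∈ I, (∑ j ∈ I, Ex p U (fun F => X i F * X j F) -
      ∑ j ∈ I, Ex p U (X i) * Ex p U (X j)) ≤ D * B := by
    intro i hi
    rw [← Finset.sum_sub_distrib]
    have h5 : ∀ j ∈ I, Ex p U (fun F => X i F * X j F) - Ex p U (X i) * Ex p U (X j) ≤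
        if near i j then B else 0 := by
      intro j hj
      split_ifs with h
      · have e1 : Ex p U (fun F => X i F * X j F) ≤
            Ex p U (fun F => 1/2 * (X i F * X i F) + 1/2 * (X j F * X j F)) := by
          apply Ex_mono hp
          intro F _
          nlinarith [sq_nonneg (X i F - X j F)]
        rw [Ex_add, Ex_mul_left, Ex_mul_left] at e1
        have e2 := hB i hi
        have e3 := hB j hj
        have e4 : 0 ≤ Ex p U (X i) * Ex p U (X j) :=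
          mul_nonneg (Ex_nonneg hp fun F _ => hX i F) (Ex_nonneg hp fun F _ => hX j F)
        linarith
      · rw [Ex_mul_indep (hS i hi) (hS j hj) (hnear i hi j hj h) (fun F _ => hl i hi F)
          (fun F _ => hl j hj F)]
        linarith
    refine (Finset.sum_le_sum h5).trans ?_
    rw [← Finset.sum_filter, Finset.sum_const, nsmul_eq_mul]
    exact mul_le_mul_of_nonneg_right (by exact_mod_cast hD i hi) hB0
  refine (Finset.sum_le_sum h4).trans ?_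
  rw [Finset.sum_const, nsmul_eq_mul]
  apply le_of_eq
  ring

/-- the corners of the grid of mesh `k` -/
def zz (k : ℕ) (j : ℤ × ℤ) : Vtx := (k * j.1, k * j.2)

/-- the cells which meet the box `[-n, n]²` -/
noncomputable def JJ (n k : ℕ) : Finset (ℤ × ℤ) :=
  Finset.Icc (-(n / k + 1 : ℤ)) (n / k + 1) ×ˢ Finset.Icc (-(n / k + 1 : ℤ)) (n / k + 1)

theorem JJ_abs {n k : ℕ} (hk : 1 ≤ k) (hkn : k ≤ n) {j : ℤ × ℤ} (hj : j ∈ JJ n k) :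
    (-(2 * n : ℤ) ≤ k * j.1 ∧ k * j.1 ≤ 2 * n) ∧ (-(2 * n : ℤ) ≤ k * j.2 ∧ k * j.2 ≤ 2 * n) := by
  unfold JJ at hj
  rw [Finset.mem_product, Finset.mem_Icc, Finset.mem_Icc] at hj
  obtain ⟨⟨h1, h2⟩, h3, h4⟩ := hj
  have hk0 : (0:ℤ) < k := by exact_mod_cast hk
  have h5 : (k:ℤ) * (n / k) ≤ n := Int.mul_ediv_self_le hk0.ne'
  have h6 : (k:ℤ) ≤ n := by exact_mod_cast hkn
  refine ⟨⟨?_, ?_⟩, ?_, ?_⟩ <;> nlinarith

theorem card_JJ {n k : ℕ} (hk : 1 ≤ k) (hkn : k ≤ n) :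
    ((JJ n k).card : ℝ) ≤ 25 * ((n:ℝ) / k) ^ 2 := by
  have hkR : (1:ℝ) ≤ k := by exact_mod_cast hk
  have hknR : (k:ℝ) ≤ n := by exact_mod_cast hkn
  have h1 : (Finset.Icc (-(n / k + 1 : ℤ)) (n / k + 1)).card = 2 * (n / k) + 3 := by
    rw [Int.card_Icc]
    have : ((n:ℤ) / k) = ((n / k : ℕ) : ℤ) := by push_cast; rfl
    rw [this]
    omega
  unfold JJ
  rw [Finset.card_product, h1]
  push_cast
  have h2 : ((n / k : ℕ) : ℝ) ≤ (n:ℝ) / k := Nat.cast_div_le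
  have h3 : 1 ≤ (n:ℝ) / k := by rw [le_div_iff₀ (by linarith)]; linarith
  have h4 : (0:ℝ) ≤ ((n / k : ℕ) : ℝ) := Nat.cast_nonneg _
  have h5 : 2 * ((n / k : ℕ) : ℝ) + 3 ≤ 5 * ((n:ℝ) / k) := by linarith
  calc (2 * ((n / k : ℕ) : ℝ) + 3) * (2 * ((n / k : ℕ) : ℝ) + 3)
      ≤ (5 * ((n:ℝ) / k)) * (5 * ((n:ℝ) / k)) := by
        apply mul_le_mul h5 h5 (by positivity) (by positivity)
    _ = _ := by ring

/-- the number of disjoint sets of size `ℓ` which fit -/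
noncomputable def Xk (ℓ k : ℕ) (j : ℤ × ℤ) (F : Finset Edg) : ℝ :=
  ((⌊Wk (zz k j) k F / ℓ⌋₊ : ℕ) : ℝ)

theorem Xk_nonneg (ℓ k : ℕ) (j : ℤ × ℤ) (F : Finset Edg) : 0 ≤ Xk ℓ k j F := Nat.cast_nonneg _

theorem Xk_le (ℓ k : ℕ) (j : ℤ × ℤ) (F : Finset Edg) : Xk ℓ k j F ≤ Wk (zz k j) k F / ℓ :=
  Nat.floor_le (div_nonneg (Wk_nonneg _ _ _) (Nat.cast_nonneg _))

theorem Xk_sq (ℓ k : ℕ) (j : ℤ × ℤ) (F : Finset Edg) : Xk ℓ k j F ≤ Xk ℓ k j F * Xk ℓ k j F := by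
  unfold Xk
  exact_mod_cast Nat.le_mul_self _

theorem Xk_sq_le (ℓ k : ℕ) (j : ℤ × ℤ) (F : Finset Edg) : Xk ℓ k j F * Xk ℓ k j F ≤
    1 / (ℓ:ℝ) ^ 2 * (Wk (zz k j) k F * Wk (zz k j) k F) := by
  have h := Xk_le ℓ k j F
  have h0 := Xk_nonneg ℓ k j F
  have h2 := mul_le_mul h h h0 (h0.trans h)
  refine h2.trans (le_of_eq ?_)
  rw [div_mul_div_comm, ← sq (ℓ:ℝ)]
  ring

theorem near_card (n k : ℕ) (i : ℤ × ℤ) :
    ((JJ n k).filter (fun j => |i.1 - j.1| ≤ 12 ∧ |i.2 - j.2| ≤ 12)).card ≤ 625 := by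
  have h1 : (JJ n k).filter (fun j => |i.1 - j.1| ≤ 12 ∧ |i.2 - j.2| ≤ 12) ⊆
      Finset.Icc (i.1 - 12) (i.1 + 12) ×ˢ Finset.Icc (i.2 - 12) (i.2 + 12) := by
    intro j hj
    rw [Finset.mem_filter] at hj
    obtain ⟨-, h2, h3⟩ := hj
    rw [abs_le] at h2 h3
    rw [Finset.mem_product, Finset.mem_Icc, Finset.mem_Icc]
    omega
  refine (Finset.card_le_card h1).trans ?_
  rw [Finset.card_product, Int.card_Icc, Int.card_Icc]
  have e1 : (i.1 + 12 + 1 - (i.1 - 12)).toNat = 25 := by omega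
  have e2 : (i.2 + 12 + 1 - (i.2 - 12)).toNat = 25 := by omega
  rw [e1, e2]

theorem zz_disj {k : ℕ} (hk : 1 ≤ k) {i j : ℤ × ℤ} (h : ¬ (|i.1 - j.1| ≤ 12 ∧ |i.2 - j.2| ≤ 12)) :
    Disjoint (bx (zz k i) (6 * k)) (bx (zz k j) (6 * k)) := by
  have hk0 : (1:ℤ) ≤ k := by exact_mod_cast hk
  have key : ∀ a b : ℤ, 12 < |a - b| → 13 * (k:ℤ) ≤ |k * a - k * b| := by
    intro a b hab
    rw [← mul_sub, abs_mul, abs_of_nonneg (by omega : (0:ℤ) ≤ k)]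
    nlinarith
  have h' : 12 < |i.1 - j.1| ∨ 12 < |i.2 - j.2| := by
    by_contra hcon
    push Not at hcon
    exact h hcon
  unfold bx zz
  rw [Finset.disjoint_left]
  rintro ⟨x, y, b⟩ h1 h2
  rcases h' with hd | hd
  · have hd := key _ _ hd
    cases b
    · rw [mem_RE_false] at h1 h2; rw [le_abs] at hd; simp only at h1 h2; omega
    · rw [mem_RE_true] at h1 h2; rw [le_abs] at hd; simp only at h1 h2; omega
  · have hd := key _ _ hd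
    cases b
    · rw [mem_RE_false] at h1 h2; rw [le_abs] at hd; simp only at h1 h2; omega
    · rw [mem_RE_true] at h1 h2; rw [le_abs] at hd; simp only at h1 h2; omega

/-- Deviations of the number of the long loops of diameter of order `k`. -/
theorem Sk_dev {C : ℝ} (hC : 0 < C) (hU : TwoUp C (1/4)) : ∃ K : ℝ, 0 < K ∧
    ∀ (n k ℓ : ℕ), 1 ≤ k → k ≤ n → 1 ≤ ℓ → ∀ y : ℝ, 0 < y →
      Pr (fun _ => (1/2:ℝ)) (bx (0, 0) (11 * n)) (fun F =>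
        K * ((n:ℝ) / k) ^ 2 * min ((k:ℝ) ^ (7/4:ℝ) / ℓ) ((k:ℝ) ^ (7/2:ℝ) / (ℓ:ℝ) ^ 2) + y ≤
          ∑ j ∈ JJ n k, Xk ℓ k j F) ≤
      K * ((n:ℝ) / k) ^ 2 * ((k:ℝ) ^ (7/2:ℝ) / (ℓ:ℝ) ^ 2) / y ^ 2 := by
  obtain ⟨K, hK, h⟩ := Wk_sq hC hU
  refine ⟨625 * 25 * K, by positivity, ?_⟩
  intro n k ℓ hk hkn hℓ y hy
  set U : Finset Edg := bx (0, 0) (11 * n) with hU'
  have hℓR : (0:ℝ) < ℓ := by exact_mod_cast hℓ
  have hkR : (0:ℝ) < k := by exact_mod_cast hk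
  have hsub9 : ∀ j ∈ JJ n k, bx (zz k j) (9 * k) ⊆ U := by
    intro j hj
    obtain ⟨⟨h1, h2⟩, h3, h4⟩ := JJ_abs hk hkn hj
    apply bx_sub <;> simp only [zz] <;> omega
  have hsub6 : ∀ j ∈ JJ n k, bx (zz k j) (6 * k) ⊆ U := fun j hj =>
    (bx_mono (by omega)).trans (hsub9 j hj)
  set B : ℝ := K * ((k:ℝ) ^ (7/2:ℝ) / (ℓ:ℝ) ^ 2) with hB
  have hB0 : 0 ≤ B := by positivity
  have hBj : ∀ j ∈ JJ n k, Ex (fun _ => (1/2:ℝ)) U (fun F => Xk ℓ k j F * Xk ℓ k j F) ≤ B := by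
    intro j hj
    refine (Ex_mono ok2 (fun F _ => Xk_sq_le ℓ k j F)).trans ?_
    rw [Ex_mul_left]
    have h2 := (h (zz k j) k hk U (hsub9 j hj)).2
    calc 1 / (ℓ:ℝ) ^ 2 * Ex (fun _ => (1/2:ℝ)) U (fun F => Wk (zz k j) k F * Wk (zz k j) k F)
        ≤ 1 / (ℓ:ℝ) ^ 2 * (K * (k:ℝ) ^ (7/2:ℝ)) := mul_le_mul_of_nonneg_left h2 (by positivity)
      _ = B := by rw [hB]; ring
  have hM : ∀ j ∈ JJ n k, Ex (fun _ => (1/2:ℝ)) U (Xk ℓ k j) ≤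
      K * min ((k:ℝ) ^ (7/4:ℝ) / ℓ) ((k:ℝ) ^ (7/2:ℝ) / (ℓ:ℝ) ^ 2) := by
    intro j hj
    rw [mul_min_of_nonneg _ _ hK.le, le_min_iff]
    constructor
    · have h3 : Ex (fun _ => (1/2:ℝ)) U (Xk ℓ k j) ≤
          Ex (fun _ => (1/2:ℝ)) U (fun F => 1 / (ℓ:ℝ) * Wk (zz k j) k F) := by
        apply Ex_mono ok2
        intro F _
        refine (Xk_le ℓ k j F).trans (le_of_eq ?_)
        ring
      rw [Ex_mul_left] at h3
      refine h3.trans ?_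
      have h2 := (h (zz k j) k hk U (hsub9 j hj)).1
      have h4 : 1 / (ℓ:ℝ) * Ex (fun _ => (1/2:ℝ)) U (fun F => Wk (zz k j) k F) ≤
          1 / (ℓ:ℝ) * (K * (k:ℝ) ^ (7/4:ℝ)) := mul_le_mul_of_nonneg_left h2 (by positivity)
      refine h4.trans (le_of_eq ?_)
      ring
    · exact (Ex_mono ok2 (fun F _ => Xk_sq ℓ k j F)).trans (hBj j hj)
  have hch := cheb ok2 (U := U) (JJ n k) (fun j => Xk ℓ k j) (fun j => bx (zz k j) (6 * k)) hsub6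
    (fun j F => Xk_nonneg ℓ k j F)
    (fun j _ F => by unfold Xk; rw [Wk_local hk F]) 625
    (fun i j => |i.1 - j.1| ≤ 12 ∧ |i.2 - j.2| ≤ 12)
    (fun i _ j _ hij => zz_disj hk hij) (fun i _ => near_card n k i) hB0 hBj hy
  have hcard := card_JJ hk hkn
  have hmean : ∑ j ∈ JJ n k, Ex (fun _ => (1/2:ℝ)) U (Xk ℓ k j) ≤
      625 * 25 * K * ((n:ℝ) / k) ^ 2 *
        min ((k:ℝ) ^ (7/4:ℝ) / ℓ) ((k:ℝ) ^ (7/2:ℝ) / (ℓ:ℝ) ^ 2) := by
    refine (Finset.sum_le_sum hM).trans ?_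
    rw [Finset.sum_const, nsmul_eq_mul]
    have h0 : 0 ≤ K * min ((k:ℝ) ^ (7/4:ℝ) / ℓ) ((k:ℝ) ^ (7/2:ℝ) / (ℓ:ℝ) ^ 2) := by positivity
    have h1 := mul_le_mul_of_nonneg_right hcard h0
    refine h1.trans ?_
    have h2 : 0 ≤ 25 * ((n:ℝ) / k) ^ 2 *
        (K * min ((k:ℝ) ^ (7/4:ℝ) / ℓ) ((k:ℝ) ^ (7/2:ℝ) / (ℓ:ℝ) ^ 2)) := by positivity
    nlinarith
  refine (Pr_mono ok2 (fun F _ hF => ?_)).trans (hch.trans ?_)
  · exact (add_le_add hmean le_rfl).trans hF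
  · rw [div_le_div_iff_of_pos_right (by positivity)]
    have h1 : (((625:ℕ) : ℝ)) * ((JJ n k).card : ℝ) * B ≤
        625 * (25 * ((n:ℝ) / k) ^ 2) * B := by
      push_cast
      apply mul_le_mul_of_nonneg_right _ hB0
      exact mul_le_mul_of_nonneg_left hcard (by norm_num)
    refine h1.trans (le_of_eq ?_)
    rw [hB]
    ring

end Pool.Agent.Y993.LL
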