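import Pool.Agent.Y993.LL.Zip2
import Pool.Agent.Y993.LL.Macro

/-!
The long loops are counted by the local counts.
-/

set_option autoImplicit false

namespace Pool.Agent.Y993.LL

open H974 Finset H342P H984P MeasureTheory

open Classical in
/-- the states near the cell `j` with two arms to distance `k` -/
noncomputable def Tj (k : ℕ) (j : ℤ × ℤ) (F : Finset Edg) : Finset St :=
  (cst (zz k j) (5 * k)).filter (fun σ => Two σ.1 (face σ) k (↑F))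

theorem Tj_card (k : ℕ) (j : ℤ × ℤ) (F : Finset Edg) : ((Tj k j F).card : ℝ) = Wk (zz k j) k F := by
  classical
  unfold Tj Wk
  rw [sum_ind]

theorem sd_comm (u v : Vtx) : sd u v = sd v u := by
  unfold sd
  rw [abs_sub_comm u.1, abs_sub_comm u.2]

theorem sd_nonneg (u v : Vtx) : 0 ≤ sd u v := (abs_nonneg _).trans (le_max_left _ _)

/-- Every long loop lies in one of the sets. -/
theorem loop_in {n ℓ : ℕ} (hℓ : 100 < ℓ) {F : Finset Edg} {A : Set St}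
    (hA : A ∈ loops n (↑F)) (hA2 : ℓ ≤ A.ncard) :
    ∃ i ∈ range (Nat.log 2 n + 1), ∃ j ∈ JJ n (2 ^ i), A ⊆ ↑(Tj (2 ^ i) j F) := by
  classical
  obtain ⟨σ, rfl, hin⟩ := hA
  set A : Set St := loop (↑F : Set Edg) σ with hAdef
  have hcl : Closed (↑F) σ := InBox.closed (n := n) hin
  have hfin : A.Finite := (finite_toSet (cst (0, 0) n)).subset fun τ hτ => mem_cst.2 (hin τ hτ)
  -- the diameter
  have hbound : ∀ τ ∈ A, ∀ ρ ∈ A, sd τ.1 ρ.1 ≤ 2 * n := by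
    intro τ hτ ρ hρ
    have h1 := ctr_iff.1 (hin τ hτ)
    have h2 := ctr_iff.1 (hin ρ hρ)
    have h3 := sd_tri τ.1 (0, 0) ρ.1
    rw [sd_comm] at h1
    omega
  have hex : ∃ m : ℕ, ∀ τ ∈ A, ∀ ρ ∈ A, sd τ.1 ρ.1 ≤ 2 ^ m := by
    refine ⟨2 * n, fun τ hτ ρ hρ => (hbound τ hτ ρ hρ).trans ?_⟩
    exact_mod_cast (Nat.lt_two_pow_self (n := 2 * n)).le
  have hσA : σ ∈ A := self_mem_loop _ _
  set m := Nat.find hex with hm
  have hm1 := Nat.find_spec hex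
  rw [← hm] at hm1
  have hm2 : 2 ≤ m := by
    by_contra hcon
    have h1 : ∀ τ ∈ A, τ ∈ cst σ.1 2 := by
      intro τ hτ
      rw [mem_cst, ctr_iff]
      refine (hm1 σ hσA τ hτ).trans ?_
      have h2 : m ≤ 1 := by omega
      calc (2:ℤ) ^ m ≤ 2 ^ 1 := pow_le_pow_right₀ (by norm_num) h2
        _ = _ := by norm_num
    have h2 := Set.ncard_le_ncard (fun τ hτ => Finset.mem_coe.2 (h1 τ hτ)) (finite_toSet (cst σ.1 2))
    rw [Set.ncard_coe_finset] at h2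
    have h3 : (cst σ.1 2).card = 100 := by
      unfold cst
      rw [Finset.card_product, card_ctr, Finset.card_univ]
      rfl
    omega
  obtain ⟨i, hi⟩ : ∃ i, m = i + 2 := ⟨m - 2, by omega⟩
  have hmin : ¬ ∀ τ ∈ A, ∀ ρ ∈ A, sd τ.1 ρ.1 ≤ 2 ^ (i + 1) :=
    Nat.find_min hex (m := i + 1) (by omega)
  push Not at hmin
  obtain ⟨τ1, hτ1, τ2, hτ2, hτ⟩ := hmin
  have hk1 : 1 ≤ 2 ^ i := Nat.one_le_two_pow
  obtain ⟨k, hk⟩ : ∃ k : ℕ, k = 2 ^ i := ⟨_, rfl⟩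
  have hkZ : (2:ℤ) ^ (i + 1) = 2 * k := by rw [hk, pow_succ]; push_cast; ring
  have hkZ2 : (2:ℤ) ^ m = 4 * k := by rw [hi, hk, pow_add]; push_cast; ring
  rw [hkZ] at hτ
  rw [hkZ2] at hm1
  have hkn : k < n := by
    have := hbound τ1 hτ1 τ2 hτ2
    omega
  have hk0 : 1 ≤ k := by omega
  refine ⟨i, ?_, ?_⟩
  · rw [Finset.mem_range, Nat.lt_succ_iff]
    apply Nat.le_log_of_pow_le (by norm_num)
    omega
  · rw [← hk]
    obtain ⟨⟨x, y⟩, q⟩ := σ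
    have h0 := hin _ hσA
    rw [mem_ctr'] at h0
    simp only at h0
    have hkp : (0:ℤ) < k := by omega
    have ex1 := Int.emod_add_mul_ediv x k
    have ex2 := Int.emod_nonneg x hkp.ne'
    have ex3 := Int.emod_lt_of_pos x hkp
    have ey1 := Int.emod_add_mul_ediv y k
    have ey2 := Int.emod_nonneg y hkp.ne'
    have ey3 := Int.emod_lt_of_pos y hkp
    refine ⟨(x / k, y / k), ?_, ?_⟩
    · unfold JJ
      rw [Finset.mem_product, Finset.mem_Icc, Finset.mem_Icc]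
      have hn1 : ∀ u : ℤ, -(n:ℤ) ≤ u → u ≤ n → -((n:ℤ) / k + 1) ≤ u / k ∧ u / k ≤ (n:ℤ) / k + 1 := by
        intro u hu1 hu2
        have h1 : u / k ≤ (n:ℤ) / k := Int.ediv_le_ediv hkp hu2
        have h2 : -((n:ℤ) / k + 1) ≤ u / k := by
          rw [Int.le_ediv_iff_mul_le hkp]
          have h3 := Int.lt_ediv_add_one_mul_self (n:ℤ) hkp
          linarith
        exact ⟨h2, by omega⟩
      exact ⟨hn1 x (by omega) (by omega), hn1 y (by omega) (by omega)⟩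
    · intro τ hτA
      have hd := hm1 _ hσA τ hτA
      have hcst : τ ∈ cst (zz k (x / k, y / k)) (5 * k) := by
        rw [mem_cst, mem_ctr']
        have h1 : τ.1 ∈ ctr (x, y) (4 * k) := ctr_iff.2 (by push_cast; exact hd)
        rw [mem_ctr'] at h1
        unfold zz
        push_cast at h1 ⊢
        omega
      rw [Finset.mem_coe, Tj, Finset.mem_filter]
      refine ⟨hcst, ?_⟩
      -- a state at distance at least k + 1
      have hfar : ∃ ρ ∈ A, (k:ℤ) + 1 ≤ sd τ.1 ρ.1 := by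
        by_contra hcon
        push Not at hcon
        have h1 := hcon τ1 hτ1
        have h2 := hcon τ2 hτ2
        have h3 := sd_tri τ1.1 τ.1 τ2.1
        rw [sd_comm] at h1
        omega
      obtain ⟨ρ, hρ, hρ2⟩ := hfar
      obtain ⟨e1, e2⟩ := loop_eq hcl hτA
      rw [hAdef, ← e1] at hρ
      exact two_of_conn (by omega) (conn_of_mem hρ) (far_iff.2 hρ2)

/-- Few disjoint loops fit in a set. -/
theorem fit {n ℓ : ℕ} (hℓ : 1 ≤ ℓ) {F : Finset Edg} {𝒜 : Finset (Set St)}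
    (h𝒜 : ∀ A ∈ 𝒜, A ∈ loops n (↑F) ∧ ℓ ≤ A.ncard) {T : Finset St} (hT : ∀ A ∈ 𝒜, A ⊆ ↑T) :
    𝒜.card ≤ ⌊(T.card : ℝ) / ℓ⌋₊ := by
  classical
  have hℓR : (0:ℝ) < ℓ := by exact_mod_cast hℓ
  apply Nat.le_floor
  rw [le_div_iff₀ hℓR]
  set φ : Set St → Finset St := fun A => T.filter (fun σ => σ ∈ A) with hφ
  have h1 : ∀ A ∈ 𝒜, ℓ ≤ (φ A).card := by
    intro A hA
    refine (h𝒜 A hA).2.trans ?_
    rw [← Set.ncard_coe_finset]
    apply Set.ncard_le_ncard _ (finite_toSet _)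
    intro σ hσ
    rw [Finset.mem_coe, hφ, Finset.mem_filter]
    exact ⟨hT A hA hσ, hσ⟩
  have h2 : ∀ A ∈ 𝒜, ∀ B ∈ 𝒜, A ≠ B → Disjoint (φ A) (φ B) := by
    intro A hA B hB hAB
    rw [Finset.disjoint_left]
    intro σ hσA hσB
    rw [hφ, Finset.mem_filter] at hσA hσB
    apply hAB
    obtain ⟨α, rfl, hα⟩ := (h𝒜 A hA).1
    obtain ⟨β, rfl, hβ⟩ := (h𝒜 B hB).1
    have e1 := (loop_eq (InBox.closed (n := n) hα) hσA.2).1
    have e2 := (loop_eq (InBox.closed (n := n) hβ) hσB.2).1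
    rw [← e1, ← e2]
  have h3 : (𝒜.biUnion φ).card = ∑ A ∈ 𝒜, (φ A).card := Finset.card_biUnion h2
  have h4 : (𝒜.biUnion φ).card ≤ T.card := by
    apply Finset.card_le_card
    intro σ hσ
    rw [Finset.mem_biUnion] at hσ
    obtain ⟨A, _, hσ⟩ := hσ
    exact (Finset.mem_filter.1 hσ).1
  have h5 : 𝒜.card * ℓ ≤ ∑ A ∈ 𝒜, (φ A).card := by
    rw [← smul_eq_mul]
    exact Finset.card_nsmul_le_sum _ _ _ h1
  have h6 : 𝒜.card * ℓ ≤ T.card := h5.trans (h3 ▸ h4)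
  exact_mod_cast h6

theorem cntL_le_sum {n ℓ : ℕ} (hℓ : 100 < ℓ) (F : Finset Edg) :
    (cntL n ℓ (↑F) : ℝ) ≤ ∑ i ∈ range (Nat.log 2 n + 1), ∑ j ∈ JJ n (2 ^ i), Xk ℓ (2 ^ i) j F := by
  classical
  have hfin : {A ∈ loops n (↑F) | ℓ ≤ A.ncard}.Finite := (loops_finite n _).subset (fun A hA => hA.1)
  set 𝒜 : Finset (Set St) := hfin.toFinset with h𝒜
  have hmem : ∀ A, A ∈ 𝒜 ↔ A ∈ loops n (↑F) ∧ ℓ ≤ A.ncard := by
    intro A
    rw [h𝒜, Set.Finite.mem_toFinset]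
    rfl
  have hcnt : cntL n ℓ (↑F) = 𝒜.card := by
    unfold cntL
    rw [Set.ncard_eq_toFinset_card _ hfin]
  rw [hcnt]
  have h1 : 𝒜 ⊆ (range (Nat.log 2 n + 1)).biUnion (fun i => (JJ n (2 ^ i)).biUnion (fun j =>
      𝒜.filter (fun A => A ⊆ ↑(Tj (2 ^ i) j F)))) := by
    intro A hA
    obtain ⟨i, hi, j, hj, h2⟩ := loop_in hℓ ((hmem A).1 hA).1 ((hmem A).1 hA).2
    rw [Finset.mem_biUnion]
    refine ⟨i, hi, ?_⟩
    rw [Finset.mem_biUnion]
    exact ⟨j, hj, Finset.mem_filter.2 ⟨hA, h2⟩⟩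
  have h2 : 𝒜.card ≤ ∑ i ∈ range (Nat.log 2 n + 1), ∑ j ∈ JJ n (2 ^ i),
      (𝒜.filter (fun A => A ⊆ ↑(Tj (2 ^ i) j F))).card := by
    refine (Finset.card_le_card h1).trans (Finset.card_biUnion_le.trans ?_)
    exact Finset.sum_le_sum fun i _ => Finset.card_biUnion_le
  have h3 : (𝒜.card : ℝ) ≤ ∑ i ∈ range (Nat.log 2 n + 1), ∑ j ∈ JJ n (2 ^ i),
      ((𝒜.filter (fun A => A ⊆ ↑(Tj (2 ^ i) j F))).card : ℝ) := by exact_mod_cast h2
  refine h3.trans (Finset.sum_le_sum fun i _ => Finset.sum_le_sum fun j _ => ?_)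
  unfold Xk
  rw [← Tj_card]
  have h4 := fit (n := n) (ℓ := ℓ) (by omega) (F := F)
    (𝒜 := 𝒜.filter (fun A => A ⊆ ↑(Tj (2 ^ i) j F)))
    (fun A hA => (hmem A).1 (Finset.mem_filter.1 hA).1) (T := Tj (2 ^ i) j F)
    (fun A hA => (Finset.mem_filter.1 hA).2)
  exact_mod_cast h4

end Pool.Agent.Y993.LL
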