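import Pool.Agent.Y993.LL.Zip3

/-!
The number of long loops is of the order of its mean with high probability.
-/

set_option autoImplicit false

namespace Pool.Agent.Y993.LL

open H974 Finset H342P H984P MeasureTheory

/-- a two-sided geometric sum -/
theorem geo {b q : ℝ} (hb : 0 < b) (hq : 1 < q) (L : ℕ) :
    ∑ i ∈ range L, min (b * q ^ i) (1 / (b * q ^ i)) ≤ 2 * (q + 1) / (q - 1) := by
  have hq0 : 0 < q := by linarith
  have hq1 : 0 < q - 1 := by linarith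
  set c : ℝ := 2 * (q + 1) / (q - 1) with hc
  have hc0 : 0 < c := by positivity
  have key : ∀ t : ℝ, 0 < t → min t (1 / t) ≤ c * ((t * q) / (1 + t * q) - t / (1 + t)) := by
    intro t ht
    have e1 : c * ((t * q) / (1 + t * q) - t / (1 + t)) =
        2 * (q + 1) * t / ((1 + t * q) * (1 + t)) := by
      rw [hc]
      field_simp
      ring
    rw [e1, le_div_iff₀ (by positivity)]
    rcases le_total t 1 with h | h
    · have h1 : min t (1 / t) ≤ t := min_le_left _ _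
      have h2 : 1 + t * q ≤ 1 + q := by nlinarith
      have h3 : (1 + t * q) * (1 + t) ≤ (1 + q) * 2 := by
        apply mul_le_mul h2 (by linarith) (by positivity) (by positivity)
      calc min t (1 / t) * ((1 + t * q) * (1 + t)) ≤ t * ((1 + q) * 2) := by
            apply mul_le_mul h1 h3 (by positivity) ht.le
        _ = _ := by ring
    · have h1 : min t (1 / t) ≤ 1 / t := min_le_right _ _
      have h2 : 1 + t * q ≤ (q + 1) * t := by nlinarith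
      have h3 : (1 + t * q) * (1 + t) ≤ ((q + 1) * t) * (2 * t) := by
        apply mul_le_mul h2 (by linarith) (by positivity) (by positivity)
      calc min t (1 / t) * ((1 + t * q) * (1 + t)) ≤ 1 / t * (((q + 1) * t) * (2 * t)) := by
            apply mul_le_mul h1 h3 (by positivity) (by positivity)
        _ = _ := by field_simp
  have tel : ∀ L : ℕ, ∑ i ∈ range L, min (b * q ^ i) (1 / (b * q ^ i)) ≤
      c * ((b * q ^ L) / (1 + b * q ^ L) - b / (1 + b)) := by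
    intro L
    induction L with
    | zero => simp
    | succ L ih =>
      rw [Finset.sum_range_succ]
      have h1 := key (b * q ^ L) (by positivity)
      have e : b * q ^ L * q = b * q ^ (L + 1) := by ring
      rw [e] at h1
      linarith
  refine (tel L).trans ?_
  have h1 : (b * q ^ L) / (1 + b * q ^ L) ≤ 1 := by
    rw [div_le_one (by positivity)]
    have : 0 < b * q ^ L := by positivity
    linarith
  have h2 : 0 ≤ b / (1 + b) := by positivity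
  nlinarith

/-- the profile -/
noncomputable def hh (u : ℝ) : ℝ := min (u ^ (1/8:ℝ)) (1 / u ^ (1/8:ℝ))

/-- the bound of the sums of the profile -/
noncomputable def HH : ℝ := 2 * ((2:ℝ) ^ (1/8:ℝ) + 1) / ((2:ℝ) ^ (1/8:ℝ) - 1)

theorem q_gt : (1:ℝ) < (2:ℝ) ^ (1/8:ℝ) := Real.one_lt_rpow (by norm_num) (by norm_num)

theorem HH_pos : 0 < HH := by
  unfold HH
  have := q_gt
  have h1 : 0 < (2:ℝ) ^ (1/8:ℝ) - 1 := by linarith
  positivity

theorem sum_hh {a : ℝ} (ha : 0 < a) (L : ℕ) :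
    ∑ i ∈ range L, hh ((2:ℝ) ^ i / a) ≤ HH := by
  have h1 : ∀ i ∈ range L, hh ((2:ℝ) ^ i / a) =
      min (a ^ (-(1/8:ℝ)) * ((2:ℝ) ^ (1/8:ℝ)) ^ i) (1 / (a ^ (-(1/8:ℝ)) * ((2:ℝ) ^ (1/8:ℝ)) ^ i)) := by
    intro i _
    unfold hh
    have e : ((2:ℝ) ^ i / a) ^ (1/8:ℝ) = a ^ (-(1/8:ℝ)) * ((2:ℝ) ^ (1/8:ℝ)) ^ i := by
      rw [Real.div_rpow (by positivity) ha.le, Real.rpow_neg ha.le, ← Real.rpow_natCast,
        ← Real.rpow_natCast, ← Real.rpow_mul (by norm_num), ← Real.rpow_mul (by norm_num),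
        mul_comm (i:ℝ)]
      ring
    rw [e]
  rw [Finset.sum_congr rfl h1]
  exact geo (by positivity) q_gt L

theorem hh_pos {u : ℝ} (hu : 0 < u) : 0 < hh u := by
  unfold hh
  positivity

theorem hh_mean {u : ℝ} (hu : 0 < u) : u ^ (-(2:ℝ)) * min (u ^ (7/4:ℝ)) (u ^ (7/2:ℝ)) ≤ hh u := by
  have hp : 0 < u ^ (-(2:ℝ)) := by positivity
  unfold hh
  rcases le_total u 1 with h | h
  · have e1 : u ^ (-(2:ℝ)) * min (u ^ (7/4:ℝ)) (u ^ (7/2:ℝ)) ≤ u ^ (1/8:ℝ) := by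
      calc _ ≤ u ^ (-(2:ℝ)) * u ^ (7/2:ℝ) := mul_le_mul_of_nonneg_left (min_le_right _ _) hp.le
        _ = u ^ (3/2:ℝ) := by rw [← Real.rpow_add hu]; norm_num
        _ ≤ u ^ (1/8:ℝ) := Real.rpow_le_rpow_of_exponent_ge hu h (by norm_num)
    have e2 : u ^ (1/8:ℝ) ≤ 1 / u ^ (1/8:ℝ) := by
      rw [le_div_iff₀ (by positivity), ← Real.rpow_add hu]
      exact Real.rpow_le_one hu.le h (by norm_num)
    exact le_min e1 (e1.trans e2)
  · have e1 : u ^ (-(2:ℝ)) * min (u ^ (7/4:ℝ)) (u ^ (7/2:ℝ)) ≤ 1 / u ^ (1/8:ℝ) := by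
      calc _ ≤ u ^ (-(2:ℝ)) * u ^ (7/4:ℝ) := mul_le_mul_of_nonneg_left (min_le_left _ _) hp.le
        _ = u ^ (-(1/4:ℝ)) := by rw [← Real.rpow_add hu]; norm_num
        _ ≤ u ^ (-(1/8:ℝ)) := Real.rpow_le_rpow_of_exponent_le h (by norm_num)
        _ = _ := by rw [Real.rpow_neg hu.le]; exact (one_div _).symm
    have e2 : 1 / u ^ (1/8:ℝ) ≤ u ^ (1/8:ℝ) := by
      rw [div_le_iff₀ (by positivity), ← Real.rpow_add hu]
      exact Real.one_le_rpow h (by norm_num)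
    exact le_min (e1.trans e2) e1

theorem hh_dev {u x : ℝ} (hu : 0 < u) (hx : 1 ≤ x) (hux : u ≤ x ^ (1/2:ℝ)) :
    x * u ^ (-(2:ℝ)) * u ^ (7/2:ℝ) / (x * hh u) ^ 2 ≤ x ^ (-(1/16:ℝ)) * hh u := by
  have hx0 : 0 < x := by linarith
  have hh0 := hh_pos hu
  rw [div_le_iff₀ (by positivity)]
  have e0 : x * u ^ (-(2:ℝ)) * u ^ (7/2:ℝ) = x * u ^ (3/2:ℝ) := by
    rw [mul_assoc, ← Real.rpow_add hu]
    norm_num
  rw [e0]
  have e1 : x ^ (-(1/16:ℝ)) * hh u * (x * hh u) ^ 2 = x * (x ^ (15/16:ℝ) * (hh u) ^ 3) := by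
    have : x ^ (-(1/16:ℝ)) * x = x ^ (15/16:ℝ) := by
      nth_rewrite 2 [← Real.rpow_one x]
      rw [← Real.rpow_add hx0]
      norm_num
    calc _ = x * ((x ^ (-(1/16:ℝ)) * x) * (hh u) ^ 3) := by ring
      _ = _ := by rw [this]
  rw [e1]
  apply mul_le_mul_of_nonneg_left _ hx0.le
  rcases le_total u 1 with h | h
  · have h1 : hh u = u ^ (1/8:ℝ) := by
      unfold hh
      apply min_eq_left
      rw [le_div_iff₀ (by positivity), ← Real.rpow_add hu]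
      exact Real.rpow_le_one hu.le h (by norm_num)
    rw [h1, ← Real.rpow_natCast, ← Real.rpow_mul hu.le]
    have h2 : u ^ (3/2:ℝ) ≤ u ^ (1 / 8 * ((3:ℕ):ℝ)) :=
      Real.rpow_le_rpow_of_exponent_ge hu h (by norm_num)
    have h3 : 1 ≤ x ^ (15/16:ℝ) := Real.one_le_rpow hx (by norm_num)
    have h4 : 0 < u ^ (1 / 8 * ((3:ℕ):ℝ)) := by positivity
    nlinarith
  · have h1 : hh u = u ^ (-(1/8:ℝ)) := by
      unfold hh
      rw [Real.rpow_neg hu.le, ← one_div]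
      apply min_eq_right
      rw [div_le_iff₀ (by positivity), ← Real.rpow_add hu]
      exact Real.one_le_rpow h (by norm_num)
    rw [h1, ← Real.rpow_natCast, ← Real.rpow_mul hu.le]
    have h2 : u ^ (15/8:ℝ) ≤ x ^ (15/16:ℝ) := by
      calc u ^ (15/8:ℝ) ≤ (x ^ (1/2:ℝ)) ^ (15/8:ℝ) := Real.rpow_le_rpow hu.le hux (by norm_num)
        _ = x ^ (15/16:ℝ) := by rw [← Real.rpow_mul hx0.le]; norm_num
    calc u ^ (3/2:ℝ) = u ^ (15/8:ℝ) * u ^ (-(1/8) * ((3:ℕ):ℝ)) := by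
          rw [← Real.rpow_add hu]; norm_num
      _ ≤ _ := mul_le_mul_of_nonneg_right h2 (by positivity)

theorem cntL_triv (n ℓ : ℕ) (hℓ : 1 ≤ ℓ) (F : Finset Edg) :
    (cntL n ℓ (↑F) : ℝ) ≤ 4 * (2 * n + 1) ^ 2 := by
  have h1 := cntL_le n ℓ (↑F)
  have hℓR : (1:ℝ) ≤ ℓ := by exact_mod_cast hℓ
  have h2 : (cntL n ℓ (↑F) : ℝ) ≤ (ℓ:ℝ) * cntL n ℓ (↑F) :=
    le_mul_of_one_le_left (Nat.cast_nonneg _) hℓR
  refine h2.trans (h1.trans ?_)
  refine (Finset.sum_le_sum fun σ _ => ind_le_one _).trans ?_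
  rw [Finset.sum_const, nsmul_eq_mul, mul_one]
  unfold cst
  rw [Finset.card_product, card_ctr, Finset.card_univ]
  have hc : Fintype.card Q4 = 4 := rfl
  rw [hc]
  push_cast
  apply le_of_eq
  ring

/-- The number of long loops is at most a constant times its mean with high probability. -/
theorem cnt_dev {C : ℝ} (hC : 0 < C) (hU : TwoUp C (1/4)) : ∃ K : ℝ, 0 < K ∧
    ∀ n ℓ : ℕ, 1 ≤ n → 1 ≤ ℓ →
      μ.real {ω | K * ((n:ℝ) ^ 2 * (ℓ:ℝ) ^ (-(8/7:ℝ))) < (cntL n ℓ (opn ω) : ℝ)} ≤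
        K * ((n:ℝ) ^ 2 * (ℓ:ℝ) ^ (-(8/7:ℝ))) ^ (-(1/16:ℝ)) := by
  classical
  obtain ⟨K, hK, h⟩ := Sk_dev hC hU
  have hH := HH_pos
  set K' : ℝ := (K + 1) * HH + K * HH + 7200 with hK'
  have hK'1 : (K + 1) * HH ≤ K' := by
    have : 0 < K * HH := by positivity
    linarith
  have hK'2 : K * HH ≤ K' := by
    have : 0 < (K + 1) * HH := by positivity
    linarith
  have hK'3 : 7200 ≤ K' := by
    have : 0 < (K + 1) * HH := by positivity
    have : 0 < K * HH := by positivity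
    linarith
  have hK'0 : 0 < K' := by linarith
  refine ⟨K', hK'0, ?_⟩
  intro n ℓ hn hℓ
  have hnR : (1:ℝ) ≤ n := by exact_mod_cast hn
  have hn0 : (0:ℝ) < n := by linarith
  have hℓR : (1:ℝ) ≤ ℓ := by exact_mod_cast hℓ
  have hℓ0 : (0:ℝ) < ℓ := by linarith
  set x : ℝ := (n:ℝ) ^ 2 * (ℓ:ℝ) ^ (-(8/7:ℝ)) with hx
  have hx0 : 0 < x := by positivity
  by_cases hx1 : x < 1
  · refine measureReal_le_one.trans ?_
    have h1 : 1 ≤ x ^ (-(1/16:ℝ)) :=
      Real.one_le_rpow_of_pos_of_le_one_of_nonpos hx0 hx1.le (by norm_num)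
    nlinarith
  push Not at hx1
  set U : Finset Edg := bx (0, 0) (11 * n) with hUdef
  have hagree : ∀ ω, cntL n ℓ (opn ω) = cntL n ℓ (↑(FF U ω)) := fun ω =>
    cntL_congr (FF_agree (bx_mono (by omega)) ω)
  by_cases hℓ100 : ℓ ≤ 100
  · have h1 : {ω : sqLattice.edgeSet → Bool | K' * x < (cntL n ℓ (opn ω) : ℝ)} = ∅ := by
      ext ω
      simp only [Set.mem_ofPred_eq, Set.mem_empty_iff_false, iff_false, not_lt]
      rw [hagree]
      refine (cntL_triv n ℓ hℓ _).trans ?_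
      have h2 : (1:ℝ) / 200 ≤ (ℓ:ℝ) ^ (-(8/7:ℝ)) := by
        have h3 : (ℓ:ℝ) ≤ 100 := by exact_mod_cast hℓ100
        have h4 : (100:ℝ) ^ (-(8/7:ℝ)) ≤ (ℓ:ℝ) ^ (-(8/7:ℝ)) :=
          Real.rpow_le_rpow_of_nonpos hℓ0 h3 (by norm_num)
        refine le_trans ?_ h4
        rw [Real.rpow_neg (by norm_num), one_div]
        apply inv_anti₀ (by positivity)
        have h5 : ((100:ℝ) ^ (8/7:ℝ)) ^ (7:ℕ) ≤ (200:ℝ) ^ (7:ℕ) := by
          rw [← Real.rpow_natCast, ← Real.rpow_mul (by norm_num)]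
          norm_num
        exact le_of_pow_le_pow_left₀ (by norm_num) (by norm_num) h5
      have h3 : 4 * (2 * (n:ℝ) + 1) ^ 2 ≤ 36 * (n:ℝ) ^ 2 := by nlinarith
      have h4 : (n:ℝ) ^ 2 * (1 / 200) ≤ x := mul_le_mul_of_nonneg_left h2 (by positivity)
      nlinarith
    rw [h1]
    simp only [measureReal_empty]
    positivity
  push Not at hℓ100
  -- the scales
  set a : ℝ := (ℓ:ℝ) ^ (4/7:ℝ) with ha
  have ha0 : 0 < a := by positivity
  have haℓ : a ^ (7/4:ℝ) = ℓ := by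
    rw [ha, ← Real.rpow_mul hℓ0.le]; norm_num
  have haℓ2 : a ^ (7/2:ℝ) = (ℓ:ℝ) ^ 2 := by
    rw [ha, ← Real.rpow_mul hℓ0.le, ← Real.rpow_natCast]; norm_num
  have hxa : x = ((n:ℝ) / a) ^ 2 := by
    have e : a ^ 2 = (ℓ:ℝ) ^ (8/7:ℝ) := by
      rw [ha, ← Real.rpow_natCast, ← Real.rpow_mul hℓ0.le]
      norm_num
    rw [hx, div_pow, e, Real.rpow_neg hℓ0.le]
    exact (div_eq_mul_inv _ _).symm
  set L : ℕ := Nat.log 2 n + 1 with hL
  set u : ℕ → ℝ := fun i => (2:ℝ) ^ i / a with hu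
  have hu0 : ∀ i, 0 < u i := fun i => by rw [hu]; positivity
  set M : ℕ → ℝ := fun i => K * ((n:ℝ) / ((2 ^ i : ℕ) : ℝ)) ^ 2 *
    min (((2 ^ i : ℕ) : ℝ) ^ (7/4:ℝ) / ℓ) (((2 ^ i : ℕ) : ℝ) ^ (7/2:ℝ) / (ℓ:ℝ) ^ 2) with hM
  have hcast : ∀ i : ℕ, (((2 ^ i : ℕ) : ℝ)) = u i * a := by
    intro i
    rw [hu]
    push_cast
    field_simp
  have hMi : ∀ i, M i = K * x * (u i ^ (-(2:ℝ)) * min (u i ^ (7/4:ℝ)) (u i ^ (7/2:ℝ))) := by
    intro i
    have e1 : ((n:ℝ) / ((2 ^ i : ℕ) : ℝ)) ^ 2 = x * u i ^ (-(2:ℝ)) := by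
      rw [hcast, hxa, Real.rpow_neg (hu0 i).le, Real.rpow_two]
      have := (hu0 i).ne'
      field_simp
    have e2 : ((2 ^ i : ℕ) : ℝ) ^ (7/4:ℝ) / ℓ = u i ^ (7/4:ℝ) := by
      rw [hcast, Real.mul_rpow (hu0 i).le ha0.le, haℓ]
      field_simp
    have e3 : ((2 ^ i : ℕ) : ℝ) ^ (7/2:ℝ) / (ℓ:ℝ) ^ 2 = u i ^ (7/2:ℝ) := by
      rw [hcast, Real.mul_rpow (hu0 i).le ha0.le, haℓ2]
      field_simp
    show K * ((n:ℝ) / ((2 ^ i : ℕ) : ℝ)) ^ 2 *
      min (((2 ^ i : ℕ) : ℝ) ^ (7/4:ℝ) / ℓ) (((2 ^ i : ℕ) : ℝ) ^ (7/2:ℝ) / (ℓ:ℝ) ^ 2) = _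
    rw [e1, e2, e3]
    ring
  have hMle : ∀ i, M i ≤ K * x * hh (u i) := by
    intro i
    rw [hMi]
    exact mul_le_mul_of_nonneg_left (hh_mean (hu0 i)) (by positivity)
  set y : ℕ → ℝ := fun i => x * hh (u i) with hy
  have hy0 : ∀ i, 0 < y i := fun i => mul_pos hx0 (hh_pos (hu0 i))
  have hsum : ∑ i ∈ range L, (M i + y i) ≤ K' * x := by
    calc ∑ i ∈ range L, (M i + y i) ≤ ∑ i ∈ range L, (K + 1) * x * hh (u i) := by
          apply Finset.sum_le_sum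
          intro i _
          have := hMle i
          show M i + x * hh (u i) ≤ _
          nlinarith
      _ = (K + 1) * x * ∑ i ∈ range L, hh (u i) := by rw [Finset.mul_sum]
      _ ≤ (K + 1) * x * HH := mul_le_mul_of_nonneg_left (sum_hh ha0 L) (by positivity)
      _ = ((K + 1) * HH) * x := by ring
      _ ≤ K' * x := mul_le_mul_of_nonneg_right hK'1 hx0.le
  set S : ℕ → Finset Edg → ℝ := fun i F => ∑ j ∈ JJ n (2 ^ i), Xk ℓ (2 ^ i) j F with hS
  have hunion : μ.real {ω | K' * x < (cntL n ℓ (opn ω) : ℝ)} ≤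
      ∑ i ∈ range L, Pr (fun _ => (1/2:ℝ)) U (fun F => M i + y i ≤ S i F) := by
    refine (law_le (S := U) (A := fun F => K' * x < (cntL n ℓ (↑F) : ℝ)) ?_).trans ?_
    · intro ω hω
      have hω' : K' * x < (cntL n ℓ (opn ω) : ℝ) := hω
      rw [hagree] at hω'
      exact hω'
    · have : ∑ i ∈ range L, Pr (fun _ => (1/2:ℝ)) U (fun F => M i + y i ≤ S i F) =
          Ex (fun _ => (1/2:ℝ)) U (fun F => ∑ i ∈ range L, ind (M i + y i ≤ S i F)) := by
        rw [Ex_sum]; rfl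
      rw [this]
      apply Ex_mono ok2
      intro F _
      by_cases hF : K' * x < (cntL n ℓ (↑F) : ℝ)
      · rw [ind_of hF]
        obtain ⟨i, hi, hi2⟩ : ∃ i ∈ range L, M i + y i ≤ S i F := by
          by_contra hcon
          push Not at hcon
          have h1 : ∑ i ∈ range L, S i F ≤ ∑ i ∈ range L, (M i + y i) :=
            Finset.sum_le_sum fun i hi => (hcon i hi).le
          have h2 := cntL_le_sum (n := n) hℓ100 F
          linarith
        have h1 := Finset.single_le_sum (f := fun i => ind (M i + y i ≤ S i F))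
          (fun i _ => ind_nonneg _) hi
        rw [ind_of hi2] at h1
        exact h1
      · rw [ind_not_of hF]
        exact Finset.sum_nonneg fun i _ => ind_nonneg _
  refine hunion.trans ?_
  have hterm : ∀ i ∈ range L, Pr (fun _ => (1/2:ℝ)) U (fun F => M i + y i ≤ S i F) ≤
      K * (x ^ (-(1/16:ℝ)) * hh (u i)) := by
    intro i hi
    rw [Finset.mem_range, hL, Nat.lt_succ_iff] at hi
    have hin : 2 ^ i ≤ n := Nat.pow_le_of_le_log (by omega) hi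
    have h1 := h n (2 ^ i) ℓ Nat.one_le_two_pow hin hℓ (y i) (hy0 i)
    refine h1.trans ?_
    have hux : u i ≤ x ^ (1/2:ℝ) := by
      rw [hxa, ← Real.sqrt_eq_rpow, Real.sqrt_sq (by positivity)]
      show (2:ℝ) ^ i / a ≤ n / a
      apply div_le_div_of_nonneg_right _ ha0.le
      exact_mod_cast hin
    have e1 : ((n:ℝ) / ((2 ^ i : ℕ) : ℝ)) ^ 2 = x * u i ^ (-(2:ℝ)) := by
      rw [hcast, hxa, Real.rpow_neg (hu0 i).le, Real.rpow_two]
      have := (hu0 i).ne'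
      field_simp
    have e3 : ((2 ^ i : ℕ) : ℝ) ^ (7/2:ℝ) / (ℓ:ℝ) ^ 2 = u i ^ (7/2:ℝ) := by
      rw [hcast, Real.mul_rpow (hu0 i).le ha0.le, haℓ2]
      field_simp
    rw [e1, e3]
    have h2 := mul_le_mul_of_nonneg_left (hh_dev (hu0 i) hx1 hux) hK.le
    refine le_trans (le_of_eq ?_) h2
    show K * (x * u i ^ (-(2:ℝ))) * u i ^ (7/2:ℝ) / (x * hh (u i)) ^ 2 = _
    ring
  refine (Finset.sum_le_sum hterm).trans ?_
  rw [← Finset.mul_sum, ← Finset.mul_sum]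
  have h1 := sum_hh ha0 L
  have h2 : 0 ≤ x ^ (-(1/16:ℝ)) := by positivity
  calc K * (x ^ (-(1/16:ℝ)) * ∑ i ∈ range L, hh (u i)) ≤ K * (x ^ (-(1/16:ℝ)) * HH) := by
        apply mul_le_mul_of_nonneg_left _ hK.le
        exact mul_le_mul_of_nonneg_left h1 h2
    _ = (K * HH) * x ^ (-(1/16:ℝ)) := by ring
    _ ≤ _ := mul_le_mul_of_nonneg_right hK'2 h2

end Pool.Agent.Y993.LL
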