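import Pool.Agent.Y993.LL.Zip4
import Pool.Agent.Y993.LL.Cond

/-!
The numbers of long loops, for all lengths simultaneously, and the lengths of the longest loops.
-/

set_option autoImplicit false

namespace Pool.Agent.Y993.LL

open H974 Finset H342P H984P MeasureTheory

theorem cntL_anti {n ℓ ℓ' : ℕ} (h : ℓ ≤ ℓ') (F : Set Edg) : cntL n ℓ' F ≤ cntL n ℓ F := by
  unfold cntL
  apply Set.ncard_le_ncard
  · rintro A ⟨h1, h2⟩
    exact ⟨h1, h.trans h2⟩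
  · exact (loops_finite n F).subset fun A hA => hA.1

theorem cntL_zero {n ℓ : ℕ} (h : 4 * (2 * n + 1) ^ 2 < ℓ) (F : Set Edg) : cntL n ℓ F = 0 := by
  unfold cntL
  rw [Set.ncard_eq_zero ((loops_finite n F).subset fun A hA => hA.1)]
  ext A
  simp only [Set.mem_ofPred_eq, Set.mem_empty_iff_false, iff_false, not_and, not_le]
  rintro ⟨σ, rfl, h1⟩
  have h2 : loop F σ ⊆ ↑(cst (0, 0) n) := fun τ hτ => mem_cst.2 (h1 τ hτ)
  have h3 := Set.ncard_le_ncard h2 (finite_toSet _)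
  rw [Set.ncard_coe_finset] at h3
  refine lt_of_le_of_lt h3 ?_
  unfold cst
  rw [Finset.card_product, card_ctr, Finset.card_univ]
  have hc : Fintype.card Q4 = 4 := rfl
  rw [hc]
  nlinarith

theorem cnt_int (n ℓ : ℕ) : Integrable (fun ω => (cntL n ℓ (opn ω) : ℝ)) μ := by
  have h1 : (fun ω : sqLattice.edgeSet → Bool => (cntL n ℓ (opn ω) : ℝ)) =
      fun ω => ∑ T ∈ (bx (0, 0) (n + 1)).powerset,
        Set.indicator {ω : sqLattice.edgeSet → Bool | FF (bx (0, 0) (n + 1)) ω = T}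
          (fun _ => (cntL n ℓ (↑T) : ℝ)) ω := by
    classical
    funext ω
    rw [cntL_FF, Finset.sum_eq_single (FF (bx (0, 0) (n + 1)) ω)]
    · rw [Set.indicator_of_mem
        (show ω ∈ {ω' | FF (bx (0, 0) (n + 1)) ω' = FF (bx (0, 0) (n + 1)) ω} from rfl)]
    · intro T _ hT
      rw [Set.indicator_of_notMem]
      intro h
      exact hT (show FF (bx (0, 0) (n + 1)) ω = T from h).symm
    · intro h
      exact absurd (Finset.mem_powerset.2 (Finset.filter_subset _ _)) h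
  rw [h1]
  apply integrable_finsetSum
  intro T _
  exact (integrable_const _).indicator (meas_FF _ T)

/-- Markov's inequality for the number of loops. -/
theorem cnt_markov {n ℓ : ℕ} {E y : ℝ} (hy : 0 < y)
    (hE : ∫ ω, (cntL n ℓ (opn ω) : ℝ) ∂μ ≤ E) :
    μ.real {ω | y ≤ (cntL n ℓ (opn ω) : ℝ)} ≤ E / y := by
  rw [le_div_iff₀ hy, mul_comm]
  have h := mul_meas_ge_le_integral_of_nonneg (μ := μ)
    (f := fun ω => (cntL n ℓ (opn ω) : ℝ)) (Filter.Eventually.of_forall fun ω => Nat.cast_nonneg _)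
    (cnt_int n ℓ) y
  exact h.trans hE

/-- Upper bound for all lengths. -/
theorem zipf_up {C : ℝ} (hC : 0 < C) (hU : TwoUp C (1/4)) {K1 : ℝ} (hK1 : 0 < K1)
    (hm : ∀ n ℓ : ℕ, 1 ≤ n → 1 ≤ ℓ →
      ∫ ω, (cntL n ℓ (opn ω) : ℝ) ∂μ ≤ K1 * ((n:ℝ) ^ 2 * (ℓ:ℝ) ^ (-(8/7:ℝ)))) :
    ∃ K : ℝ, 0 < K ∧ ∀ (Λ : ℝ) (n : ℕ), 1 ≤ Λ → 1 ≤ n →
      μ.real {ω | ¬ ∀ ℓ : ℕ, 1 ≤ ℓ →
        (cntL n ℓ (opn ω) : ℝ) ≤ Λ * ((n:ℝ) ^ 2 * (ℓ:ℝ) ^ (-(8/7:ℝ)))} ≤ K * Λ ^ (-(1/2:ℝ)) := by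
  classical
  obtain ⟨K2, hK2, h2⟩ := cnt_dev hC hU
  set q : ℝ := (2:ℝ) ^ (1/28:ℝ) with hq
  have hq1 : 1 < q := Real.one_lt_rpow (by norm_num) (by norm_num)
  set H : ℝ := 2 * (q + 1) / (q - 1) with hH
  have hH0 : 0 < H := by
    have : 0 < q - 1 := by linarith
    positivity
  -- a bound for one scale
  set K3 : ℝ := K1 + K2 + 1 with hK3
  have hone : ∀ (Λ : ℝ) (n ℓ : ℕ), K2 ≤ Λ → 1 ≤ Λ → 1 ≤ n → 1 ≤ ℓ →
      μ.real {ω | Λ * ((n:ℝ) ^ 2 * (ℓ:ℝ) ^ (-(8/7:ℝ))) < (cntL n ℓ (opn ω) : ℝ)} ≤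
        K3 * Λ ^ (-(1/2:ℝ)) * min (((n:ℝ) ^ 2 * (ℓ:ℝ) ^ (-(8/7:ℝ))) ^ (-(1/32:ℝ)))
          (1 / ((n:ℝ) ^ 2 * (ℓ:ℝ) ^ (-(8/7:ℝ))) ^ (-(1/32:ℝ))) := by
    intro Λ n ℓ hΛ2 hΛ hn hℓ
    have hnR : (1:ℝ) ≤ n := by exact_mod_cast hn
    have hℓR : (1:ℝ) ≤ ℓ := by exact_mod_cast hℓ
    set x : ℝ := (n:ℝ) ^ 2 * (ℓ:ℝ) ^ (-(8/7:ℝ)) with hx
    have hx0 : 0 < x := by positivity
    have hΛ0 : 0 < Λ := by linarith
    set P : ℝ := μ.real {ω | Λ * x < (cntL n ℓ (opn ω) : ℝ)} with hP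
    have hP0 : 0 ≤ P := measureReal_nonneg
    have b1 : P ≤ K3 * (1 / Λ) := by
      have h3 : P ≤ μ.real {ω | Λ * x ≤ (cntL n ℓ (opn ω) : ℝ)} :=
        measureReal_mono (fun ω hω => le_of_lt (show Λ * x < (cntL n ℓ (opn ω) : ℝ) from hω))
      have h4 := cnt_markov (y := Λ * x) (by positivity) (hm n ℓ hn hℓ)
      have h5 : K1 * x / (Λ * x) = K1 * (1 / Λ) := by field_simp
      rw [← hx, h5] at h4
      refine h3.trans (h4.trans ?_)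
      apply mul_le_mul_of_nonneg_right _ (by positivity)
      linarith
    have b2 : P ≤ K3 * x := by
      have h3 : P ≤ μ.real {ω | (1:ℝ) ≤ (cntL n ℓ (opn ω) : ℝ)} := by
        refine measureReal_mono (fun ω hω => ?_)
        have h4 : Λ * x < (cntL n ℓ (opn ω) : ℝ) := hω
        have h5 : (0:ℝ) < (cntL n ℓ (opn ω) : ℝ) := lt_trans (by positivity) h4
        have h6 : 0 < cntL n ℓ (opn ω) := by exact_mod_cast h5
        show (1:ℝ) ≤ (cntL n ℓ (opn ω) : ℝ)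
        exact_mod_cast h6
      have h4 := cnt_markov (y := 1) one_pos (hm n ℓ hn hℓ)
      rw [← hx, div_one] at h4
      refine h3.trans (h4.trans ?_)
      apply mul_le_mul_of_nonneg_right _ hx0.le
      linarith
    have b3 : P ≤ K3 * x ^ (-(1/16:ℝ)) := by
      have h3 : P ≤ μ.real {ω | K2 * x < (cntL n ℓ (opn ω) : ℝ)} := by
        refine measureReal_mono (fun ω hω => ?_)
        have h4 : Λ * x < (cntL n ℓ (opn ω) : ℝ) := hω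
        show K2 * x < (cntL n ℓ (opn ω) : ℝ)
        exact lt_of_le_of_lt (mul_le_mul_of_nonneg_right hΛ2 hx0.le) h4
      refine h3.trans ((h2 n ℓ hn hℓ).trans ?_)
      apply mul_le_mul_of_nonneg_right _ (by positivity)
      linarith
    have hK30 : 0 < K3 := by positivity
    have key : ∀ v : ℝ, 0 < v → P ≤ K3 * v → P ≤ K3 * Λ ^ (-(1/2:ℝ)) * v ^ (1/2:ℝ) := by
      intro v hv hPv
      have h3 : P * P ≤ (K3 * (1 / Λ)) * (K3 * v) := mul_le_mul b1 hPv hP0 (by positivity)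
      have h4 : (K3 * (1 / Λ)) * (K3 * v) = (K3 * Λ ^ (-(1/2:ℝ)) * v ^ (1/2:ℝ)) ^ 2 := by
        have e1 : (Λ ^ (-(1/2:ℝ))) ^ 2 = 1 / Λ := by
          rw [← Real.rpow_natCast, ← Real.rpow_mul hΛ0.le]
          norm_num
          rw [Real.rpow_neg_one]
        have e2 : (v ^ (1/2:ℝ)) ^ 2 = v := by
          rw [← Real.rpow_natCast, ← Real.rpow_mul hv.le]
          norm_num
        rw [mul_pow, mul_pow, e1, e2]
        ring
      rw [h4, ← sq] at h3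
      exact le_of_sq_le_sq h3 (by positivity)
    have hkk : 0 < K3 * Λ ^ (-(1/2:ℝ)) := by positivity
    rw [mul_min_of_nonneg _ _ hkk.le, le_min_iff]
    have hinv : 1 / x ^ (-(1/32:ℝ)) = x ^ (1/32:ℝ) := by
      rw [Real.rpow_neg hx0.le, div_inv_eq_mul, one_mul]
    rcases le_total x 1 with hx1 | hx1
    · have h3 := key x hx0 b2
      have h4 : x ^ (1/2:ℝ) ≤ 1 / x ^ (-(1/32:ℝ)) := by
        rw [hinv]
        exact Real.rpow_le_rpow_of_exponent_ge hx0 hx1 (by norm_num)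
      have h5 : 1 / x ^ (-(1/32:ℝ)) ≤ x ^ (-(1/32:ℝ)) := by
        rw [hinv]
        exact Real.rpow_le_rpow_of_exponent_ge hx0 hx1 (by norm_num)
      have h6 : P ≤ K3 * Λ ^ (-(1/2:ℝ)) * (1 / x ^ (-(1/32:ℝ))) :=
        h3.trans (mul_le_mul_of_nonneg_left h4 hkk.le)
      exact ⟨h6.trans (mul_le_mul_of_nonneg_left h5 hkk.le), h6⟩
    · have h3 := key (x ^ (-(1/16:ℝ))) (by positivity) b3
      have h4 : (x ^ (-(1/16:ℝ))) ^ (1/2:ℝ) = x ^ (-(1/32:ℝ)) := by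
        rw [← Real.rpow_mul hx0.le]
        norm_num
      rw [h4] at h3
      have h5 : x ^ (-(1/32:ℝ)) ≤ 1 / x ^ (-(1/32:ℝ)) := by
        rw [hinv]
        exact Real.rpow_le_rpow_of_exponent_le hx1 (by norm_num)
      exact ⟨h3, h3.trans (mul_le_mul_of_nonneg_left h5 hkk.le)⟩
  have hK30 : 0 < K3 := by positivity
  set K : ℝ := 3 * (K3 * H) + 3 * (K2 + 1) with hK
  refine ⟨K, by positivity, ?_⟩
  intro Λ n hΛ hn
  have hΛ0 : 0 < Λ := by linarith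
  have hnR : (1:ℝ) ≤ n := by exact_mod_cast hn
  have hn0 : (0:ℝ) < n := by linarith
  by_cases hbig : Λ < 3 * (K2 + 1)
  · refine measureReal_le_one.trans ?_
    have h3 : Λ ^ (-(1/2:ℝ)) ≥ Λ ^ (-1:ℝ) :=
      Real.rpow_le_rpow_of_exponent_le hΛ (by norm_num)
    rw [Real.rpow_neg_one] at h3
    have h4 : 1 ≤ 3 * (K2 + 1) * Λ⁻¹ := by
      rw [← div_eq_mul_inv, le_div_iff₀ hΛ0]
      linarith
    have h5 : 3 * (K2 + 1) * Λ⁻¹ ≤ K * Λ ^ (-(1/2:ℝ)) := by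
      apply mul_le_mul _ h3 (by positivity) (by positivity)
      have : 0 < 3 * (K3 * H) := by positivity
      linarith
    exact h4.trans h5
  push Not at hbig
  set J : ℕ := Nat.log 2 (4 * (2 * n + 1) ^ 2) + 1 with hJ
  have hcov : {ω : sqLattice.edgeSet → Bool | ¬ ∀ ℓ : ℕ, 1 ≤ ℓ →
      (cntL n ℓ (opn ω) : ℝ) ≤ Λ * ((n:ℝ) ^ 2 * (ℓ:ℝ) ^ (-(8/7:ℝ)))} ⊆
      ⋃ j ∈ range J, {ω | Λ / 3 * ((n:ℝ) ^ 2 * ((2 ^ j : ℕ):ℝ) ^ (-(8/7:ℝ))) <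
        (cntL n (2 ^ j) (opn ω) : ℝ)} := by
    intro ω hω
    have hω' : ¬ ∀ ℓ : ℕ, 1 ≤ ℓ →
      (cntL n ℓ (opn ω) : ℝ) ≤ Λ * ((n:ℝ) ^ 2 * (ℓ:ℝ) ^ (-(8/7:ℝ))) := hω
    push Not at hω'
    obtain ⟨ℓ, hℓ, h3⟩ := hω'
    have hℓR : (1:ℝ) ≤ ℓ := by exact_mod_cast hℓ
    have hℓ0 : (0:ℝ) < ℓ := by linarith
    have h4 : ℓ ≤ 4 * (2 * n + 1) ^ 2 := by
      by_contra hcon
      push Not at hcon
      rw [cntL_zero hcon, Nat.cast_zero] at h3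
      have : 0 < Λ * ((n:ℝ) ^ 2 * (ℓ:ℝ) ^ (-(8/7:ℝ))) := by positivity
      linarith
    set j := Nat.log 2 ℓ with hj
    have hj1 : 2 ^ j ≤ ℓ := Nat.pow_log_le_self 2 (by omega)
    have hj2 : ℓ < 2 ^ (j + 1) := Nat.lt_pow_succ_log_self (by norm_num) ℓ
    simp only [Set.mem_iUnion]
    refine ⟨j, ?_, ?_⟩
    · rw [Finset.mem_range, hJ, Nat.lt_succ_iff]
      exact Nat.log_mono_right h4
    · show Λ / 3 * ((n:ℝ) ^ 2 * ((2 ^ j : ℕ):ℝ) ^ (-(8/7:ℝ))) < (cntL n (2 ^ j) (opn ω) : ℝ)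
      have h5 : (cntL n ℓ (opn ω) : ℝ) ≤ (cntL n (2 ^ j) (opn ω) : ℝ) := by
        exact_mod_cast cntL_anti hj1 (opn ω)
      refine lt_of_le_of_lt ?_ (lt_of_lt_of_le h3 h5)
      have h6 : (ℓ:ℝ) ≤ 2 * ((2 ^ j : ℕ):ℝ) := by
        have : ℓ ≤ 2 * 2 ^ j := by rw [pow_succ] at hj2; omega
        exact_mod_cast this
      have hj0 : (0:ℝ) < ((2 ^ j : ℕ):ℝ) := by positivity
      have h7 : ((2 ^ j : ℕ):ℝ) ^ (-(8/7:ℝ)) ≤ 3 * (ℓ:ℝ) ^ (-(8/7:ℝ)) := by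
        have h8 : (2 * ((2 ^ j : ℕ):ℝ)) ^ (-(8/7:ℝ)) ≤ (ℓ:ℝ) ^ (-(8/7:ℝ)) :=
          Real.rpow_le_rpow_of_nonpos hℓ0 h6 (by norm_num)
        rw [Real.mul_rpow (by norm_num) hj0.le] at h8
        have h9 : (1:ℝ)/3 ≤ (2:ℝ) ^ (-(8/7:ℝ)) := by
          rw [Real.rpow_neg (by norm_num), one_div]
          apply inv_anti₀ (by positivity)
          have h5 : ((2:ℝ) ^ (8/7:ℝ)) ^ (7:ℕ) ≤ (3:ℝ) ^ (7:ℕ) := by
            rw [← Real.rpow_natCast, ← Real.rpow_mul (by norm_num)]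
            norm_num
          exact le_of_pow_le_pow_left₀ (by norm_num) (by norm_num) h5
        have h10 : 0 < ((2 ^ j : ℕ):ℝ) ^ (-(8/7:ℝ)) := by positivity
        have h11 := mul_le_mul_of_nonneg_right h9 h10.le
        linarith
      calc Λ / 3 * ((n:ℝ) ^ 2 * ((2 ^ j : ℕ):ℝ) ^ (-(8/7:ℝ)))
          ≤ Λ / 3 * ((n:ℝ) ^ 2 * (3 * (ℓ:ℝ) ^ (-(8/7:ℝ)))) := by gcongr
        _ = _ := by ring
  refine (measureReal_mono hcov (measure_ne_top _ _)).trans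
    ((measureReal_biUnion_finset_le _ _).trans ?_)
  have hterm : ∀ j ∈ range J, μ.real {ω | Λ / 3 * ((n:ℝ) ^ 2 * ((2 ^ j : ℕ):ℝ) ^ (-(8/7:ℝ))) <
        (cntL n (2 ^ j) (opn ω) : ℝ)} ≤ K3 * (Λ / 3) ^ (-(1/2:ℝ)) *
        min (((n:ℝ) ^ 2) ^ (-(1/32:ℝ)) * q ^ j) (1 / (((n:ℝ) ^ 2) ^ (-(1/32:ℝ)) * q ^ j)) := by
    intro j _
    have h3 := hone (Λ / 3) n (2 ^ j) (by linarith) (by linarith) hn Nat.one_le_two_pow
    have h4 : ((n:ℝ) ^ 2 * ((2 ^ j : ℕ):ℝ) ^ (-(8/7:ℝ))) ^ (-(1/32:ℝ)) =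
        ((n:ℝ) ^ 2) ^ (-(1/32:ℝ)) * q ^ j := by
      rw [Real.mul_rpow (by positivity) (by positivity), ← Real.rpow_mul (by positivity), hq]
      congr 1
      push_cast
      rw [← Real.rpow_natCast, ← Real.rpow_mul (by norm_num), ← Real.rpow_natCast,
        ← Real.rpow_mul (by norm_num)]
      congr 1
      ring
    rwa [h4] at h3
  refine (Finset.sum_le_sum hterm).trans ?_
  rw [← Finset.mul_sum]
  have h3 := geo (b := ((n:ℝ) ^ 2) ^ (-(1/32:ℝ))) (by positivity) hq1 J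
  have h4 : (Λ / 3) ^ (-(1/2:ℝ)) ≤ 3 * Λ ^ (-(1/2:ℝ)) := by
    rw [Real.div_rpow hΛ0.le (by norm_num), Real.rpow_neg (by norm_num : (0:ℝ) ≤ 3), div_inv_eq_mul,
      mul_comm]
    apply mul_le_mul_of_nonneg_right _ (by positivity)
    calc (3:ℝ) ^ (1/2:ℝ) ≤ 3 ^ (1:ℝ) := Real.rpow_le_rpow_of_exponent_le (by norm_num) (by norm_num)
      _ = 3 := Real.rpow_one 3
  calc K3 * (Λ / 3) ^ (-(1/2:ℝ)) * ∑ j ∈ range J, min (((n:ℝ) ^ 2) ^ (-(1/32:ℝ)) * q ^ j)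
          (1 / (((n:ℝ) ^ 2) ^ (-(1/32:ℝ)) * q ^ j))
      ≤ K3 * (3 * Λ ^ (-(1/2:ℝ))) * H := by
        apply mul_le_mul _ h3 _ (by positivity)
        · exact mul_le_mul_of_nonneg_left h4 hK30.le
        · apply Finset.sum_nonneg
          intro j _
          positivity
    _ = 3 * (K3 * H) * Λ ^ (-(1/2:ℝ)) := by ring
    _ ≤ _ := by
        apply mul_le_mul_of_nonneg_right _ (by positivity)
        have : 0 < 3 * (K2 + 1) := by positivity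
        linarith

end Pool.Agent.Y993.LL
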