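import Pool.Agent.Y993.LL.Zip5

/-!
Zipf's law for the lengths of the loops in a box.
-/

set_option autoImplicit false

namespace Pool.Agent.Y993.LL

open H974 Finset H342P H984P MeasureTheory

theorem third {ℓ : ℝ} {m : ℝ} (hℓ : 0 < ℓ) (hm : 0 < m) (h : m ≤ 2 * ℓ) :
    ℓ ^ (-(8/7:ℝ)) ≤ 3 * m ^ (-(8/7:ℝ)) := by
  have h8 : (2 * ℓ) ^ (-(8/7:ℝ)) ≤ m ^ (-(8/7:ℝ)) :=
    Real.rpow_le_rpow_of_nonpos hm h (by norm_num)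
  rw [Real.mul_rpow (by norm_num) hℓ.le] at h8
  have h9 : (1:ℝ)/3 ≤ (2:ℝ) ^ (-(8/7:ℝ)) := by
    rw [Real.rpow_neg (by norm_num), one_div]
    apply inv_anti₀ (by positivity)
    have h5 : ((2:ℝ) ^ (8/7:ℝ)) ^ (7:ℕ) ≤ (3:ℝ) ^ (7:ℕ) := by
      rw [← Real.rpow_natCast, ← Real.rpow_mul (by norm_num)]
      norm_num
    exact le_of_pow_le_pow_left₀ (by norm_num) (by norm_num) h5
  have h10 : 0 < ℓ ^ (-(8/7:ℝ)) := by positivity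
  have h11 := mul_le_mul_of_nonneg_right h9 h10.le
  linarith

/-- A small `Λ` makes the bound trivial. -/
theorem triv_bound {K K0 Λ : ℝ} (hΛ : 1 ≤ Λ) (h : Λ ≤ K0) (hK : K0 ≤ K) :
    1 ≤ K * Λ ^ (-(1/2:ℝ)) := by
  have hΛ0 : 0 < Λ := by linarith
  have h3 : Λ ^ (-(1/2:ℝ)) ≥ Λ ^ (-1:ℝ) :=
    Real.rpow_le_rpow_of_exponent_le hΛ (by norm_num)
  rw [Real.rpow_neg_one] at h3
  calc (1:ℝ) = Λ * Λ⁻¹ := by field_simp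
    _ ≤ K * Λ ^ (-(1/2:ℝ)) := mul_le_mul (by linarith) h3 (by positivity) (by linarith)

/-- Lower bound for all lengths. -/
theorem zipf_low {k : ℝ} (hk : 0 < k)
    (hl : ∀ n ℓ : ℕ, 1 ≤ ℓ → (ℓ:ℝ) ≤ k * (n:ℝ) ^ (7/4:ℝ) →
      μ.real {ω | (cntL n ℓ (opn ω) : ℝ) ≤ k * ((n:ℝ) ^ 2 * (ℓ:ℝ) ^ (-(8/7:ℝ)))} ≤
        Real.exp (-(k * ((n:ℝ) ^ 2 * (ℓ:ℝ) ^ (-(8/7:ℝ)))))) :
    ∃ K : ℝ, 0 < K ∧ ∀ (Λ : ℝ) (n : ℕ), 1 ≤ Λ → 1 ≤ n →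
      μ.real {ω | ¬ ∀ ℓ : ℕ, 1 ≤ ℓ → (ℓ:ℝ) ≤ (n:ℝ) ^ (7/4:ℝ) / Λ →
        (n:ℝ) ^ 2 * (ℓ:ℝ) ^ (-(8/7:ℝ)) / Λ ≤ (cntL n ℓ (opn ω) : ℝ)} ≤
        K * Λ ^ (-(1/2:ℝ)) := by
  classical
  set q : ℝ := (2:ℝ) ^ (8/7:ℝ) with hq
  have hq1 : 1 < q := Real.one_lt_rpow (by norm_num) (by norm_num)
  set H : ℝ := 2 * (q + 1) / (q - 1) with hH
  have hH0 : 0 < H := by
    have : 0 < q - 1 := by linarith
    positivity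
  set K0 : ℝ := 3 / k with hK0
  set K : ℝ := K0 + 3 * H / k with hK
  have hK00 : 0 < K0 := by positivity
  refine ⟨K, by positivity, ?_⟩
  intro Λ n hΛ hn
  have hΛ0 : 0 < Λ := by linarith
  have hnR : (1:ℝ) ≤ n := by exact_mod_cast hn
  have hn0 : (0:ℝ) < n := by linarith
  have hHk : 0 < 3 * H / k := by positivity
  by_cases hbig : Λ ≤ K0
  · exact measureReal_le_one.trans (triv_bound hΛ hbig (by linarith))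
  push Not at hbig
  have hΛk : 3 ≤ Λ * k := by
    rw [hK0, div_lt_iff₀ hk] at hbig
    linarith
  set X0 : ℝ := (Λ / 2) ^ (8/7:ℝ) with hX0
  have hX00 : 0 < X0 := by positivity
  set E : ℕ → Set (sqLattice.edgeSet → Bool) := fun j => {ω | ((2 ^ j : ℕ):ℝ) ≤
      2 * (n:ℝ) ^ (7/4:ℝ) / Λ ∧ (cntL n (2 ^ j) (opn ω) : ℝ) ≤
        k * ((n:ℝ) ^ 2 * ((2 ^ j : ℕ):ℝ) ^ (-(8/7:ℝ)))} with hE
  set J : ℕ := Nat.log 2 (n ^ 2) + 2 with hJ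
  have hcov : {ω : sqLattice.edgeSet → Bool | ¬ ∀ ℓ : ℕ, 1 ≤ ℓ → (ℓ:ℝ) ≤ (n:ℝ) ^ (7/4:ℝ) / Λ →
        (n:ℝ) ^ 2 * (ℓ:ℝ) ^ (-(8/7:ℝ)) / Λ ≤ (cntL n ℓ (opn ω) : ℝ)} ⊆ ⋃ j ∈ range J, E j := by
    intro ω hω
    have hω' : ¬ ∀ ℓ : ℕ, 1 ≤ ℓ → (ℓ:ℝ) ≤ (n:ℝ) ^ (7/4:ℝ) / Λ →
        (n:ℝ) ^ 2 * (ℓ:ℝ) ^ (-(8/7:ℝ)) / Λ ≤ (cntL n ℓ (opn ω) : ℝ) := hω
    push Not at hω'
    obtain ⟨ℓ, hℓ, hℓn, h3⟩ := hω'
    have hℓR : (1:ℝ) ≤ ℓ := by exact_mod_cast hℓ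
    have hℓ0 : (0:ℝ) < ℓ := by linarith
    set j := Nat.log 2 ℓ with hj
    have hj1 : 2 ^ j ≤ ℓ := Nat.pow_log_le_self 2 (by omega)
    have hj2 : ℓ < 2 ^ (j + 1) := Nat.lt_pow_succ_log_self (by norm_num) ℓ
    have hm2 : 2 ^ (j + 1) ≤ 2 * ℓ := by rw [pow_succ]; omega
    have hm2R : ((2 ^ (j + 1) : ℕ):ℝ) ≤ 2 * ℓ := by exact_mod_cast hm2
    have hm0 : (0:ℝ) < ((2 ^ (j + 1) : ℕ):ℝ) := by positivity
    have hnn : (n:ℝ) ^ (7/4:ℝ) ≤ (n:ℝ) ^ 2 := by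
      rw [← Real.rpow_natCast]
      exact Real.rpow_le_rpow_of_exponent_le hnR (by norm_num)
    simp only [Set.mem_iUnion]
    refine ⟨j + 1, ?_, ?_, ?_⟩
    · have h4 : ℓ ≤ n ^ 2 := by
        have h5 : (n:ℝ) ^ (7/4:ℝ) / Λ ≤ (n:ℝ) ^ (7/4:ℝ) := div_le_self (by positivity) hΛ
        have : (ℓ:ℝ) ≤ (n:ℝ) ^ 2 := by linarith
        exact_mod_cast this
      rw [Finset.mem_range, hJ]
      have := Nat.log_mono_right (b := 2) h4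
      omega
    · calc ((2 ^ (j + 1) : ℕ):ℝ) ≤ 2 * ℓ := hm2R
        _ ≤ 2 * ((n:ℝ) ^ (7/4:ℝ) / Λ) := by linarith
        _ = _ := by ring
    · have h5 : (cntL n (2 ^ (j + 1)) (opn ω) : ℝ) ≤ (cntL n ℓ (opn ω) : ℝ) := by
        exact_mod_cast cntL_anti hj2.le (opn ω)
      refine h5.trans (h3.le.trans ?_)
      have h6 := third hℓ0 hm0 hm2R
      rw [div_le_iff₀ hΛ0]
      have h7 : 0 < (n:ℝ) ^ 2 * ((2 ^ (j + 1) : ℕ):ℝ) ^ (-(8/7:ℝ)) := by positivity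
      calc (n:ℝ) ^ 2 * (ℓ:ℝ) ^ (-(8/7:ℝ)) ≤
            (n:ℝ) ^ 2 * (3 * ((2 ^ (j + 1) : ℕ):ℝ) ^ (-(8/7:ℝ))) := by gcongr
        _ = 3 * ((n:ℝ) ^ 2 * ((2 ^ (j + 1) : ℕ):ℝ) ^ (-(8/7:ℝ))) := by ring
        _ ≤ (Λ * k) * ((n:ℝ) ^ 2 * ((2 ^ (j + 1) : ℕ):ℝ) ^ (-(8/7:ℝ))) :=
            mul_le_mul_of_nonneg_right hΛk h7.le
        _ = _ := by ring
  refine (measureReal_mono hcov (measure_ne_top _ _)).trans
    ((measureReal_biUnion_finset_le _ _).trans ?_)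
  have hterm : ∀ j ∈ range J, μ.real (E j) ≤ 1 / (k * X0) *
      min (X0 / (n:ℝ) ^ 2 * q ^ j) (1 / (X0 / (n:ℝ) ^ 2 * q ^ j)) := by
    intro j _
    by_cases hj : ((2 ^ j : ℕ):ℝ) ≤ 2 * (n:ℝ) ^ (7/4:ℝ) / Λ
    · have hj0 : (0:ℝ) < ((2 ^ j : ℕ):ℝ) := by positivity
      set x : ℝ := (n:ℝ) ^ 2 * ((2 ^ j : ℕ):ℝ) ^ (-(8/7:ℝ)) with hx
      have hx0 : 0 < x := by positivity
      have h1 : ((2 ^ j : ℕ):ℝ) ≤ k * (n:ℝ) ^ (7/4:ℝ) := by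
        refine hj.trans ?_
        rw [div_le_iff₀ hΛ0]
        have : 0 < (n:ℝ) ^ (7/4:ℝ) := by positivity
        nlinarith
      have h2 := hl n (2 ^ j) Nat.one_le_two_pow h1
      rw [← hx] at h2
      have h3 : μ.real (E j) ≤ Real.exp (-(k * x)) := by
        refine (measureReal_mono ?_).trans h2
        rintro ω ⟨_, h4⟩
        exact h4
      have h4 : Real.exp (-(k * x)) ≤ 1 / (k * x) := by
        rw [Real.exp_neg, one_div]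
        apply inv_anti₀ (by positivity)
        have := Real.add_one_le_exp (k * x)
        linarith
      have hs : X0 / (n:ℝ) ^ 2 * q ^ j = X0 / x := by
        have e1 : q ^ j = (((2 ^ j : ℕ):ℝ)) ^ (8/7:ℝ) := by
          rw [hq, ← Real.rpow_natCast, ← Real.rpow_mul (by norm_num)]
          push_cast
          rw [← Real.rpow_natCast, ← Real.rpow_mul (by norm_num)]
          congr 1
          ring
        rw [hx, e1, Real.rpow_neg hj0.le]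
        field_simp
      have hle : X0 ≤ x := by
        have e1 : (2 * (n:ℝ) ^ (7/4:ℝ) / Λ) ^ (-(8/7:ℝ)) ≤ ((2 ^ j : ℕ):ℝ) ^ (-(8/7:ℝ)) :=
          Real.rpow_le_rpow_of_nonpos hj0 hj (by norm_num)
        have e2 : (2 * (n:ℝ) ^ (7/4:ℝ) / Λ) ^ (-(8/7:ℝ)) = X0 * ((n:ℝ) ^ 2)⁻¹ := by
          have e3 : 2 * (n:ℝ) ^ (7/4:ℝ) / Λ = (Λ / 2)⁻¹ * (n:ℝ) ^ (7/4:ℝ) := by
            field_simp
          rw [e3, Real.mul_rpow (by positivity) (by positivity), ← Real.rpow_mul hn0.le, hX0,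
            Real.inv_rpow (by positivity), ← Real.rpow_neg (by positivity)]
          norm_num
        rw [e2] at e1
        rw [hx]
        calc X0 = (n:ℝ) ^ 2 * (X0 * ((n:ℝ) ^ 2)⁻¹) := by field_simp
          _ ≤ _ := by gcongr
      have hmin : min (X0 / x) (1 / (X0 / x)) = X0 / x := by
        apply min_eq_left
        have h5 : X0 / x ≤ 1 := by rw [div_le_one hx0]; exact hle
        have h6 : 0 < X0 / x := by positivity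
        rw [le_div_iff₀ h6]
        nlinarith
      rw [hs, hmin]
      refine h3.trans (h4.trans (le_of_eq ?_))
      field_simp
    · have : E j = ∅ := by
        ext ω
        simp only [hE, Set.mem_ofPred_eq, Set.mem_empty_iff_false, iff_false]
        rintro ⟨h1, _⟩
        exact hj h1
      rw [this, measureReal_empty]
      positivity
  refine (Finset.sum_le_sum hterm).trans ?_
  rw [← Finset.mul_sum]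
  have h3 := geo (b := X0 / (n:ℝ) ^ 2) (by positivity) hq1 J
  have h4 : 1 / X0 ≤ 3 * Λ ^ (-(1/2:ℝ)) := by
    rw [hX0, Real.div_rpow hΛ0.le (by norm_num)]
    have h5 : (2:ℝ) ^ (8/7:ℝ) ≤ 3 := by
      have h5 : ((2:ℝ) ^ (8/7:ℝ)) ^ (7:ℕ) ≤ (3:ℝ) ^ (7:ℕ) := by
        rw [← Real.rpow_natCast, ← Real.rpow_mul (by norm_num)]
        norm_num
      exact le_of_pow_le_pow_left₀ (by norm_num) (by norm_num) h5
    have h6 : (Λ ^ (8/7:ℝ))⁻¹ ≤ Λ ^ (-(1/2:ℝ)) := by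
      rw [← Real.rpow_neg hΛ0.le]
      exact Real.rpow_le_rpow_of_exponent_le hΛ (by norm_num)
    calc 1 / (Λ ^ (8/7:ℝ) / 2 ^ (8/7:ℝ)) = (2:ℝ) ^ (8/7:ℝ) * (Λ ^ (8/7:ℝ))⁻¹ := by
          field_simp
      _ ≤ 3 * Λ ^ (-(1/2:ℝ)) := mul_le_mul h5 h6 (by positivity) (by norm_num)
  have hL : 0 < Λ ^ (-(1/2:ℝ)) := by positivity
  calc 1 / (k * X0) * ∑ j ∈ range J, min (X0 / (n:ℝ) ^ 2 * q ^ j)
          (1 / (X0 / (n:ℝ) ^ 2 * q ^ j))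
      ≤ 1 / (k * X0) * H := mul_le_mul_of_nonneg_left h3 (by positivity)
    _ = (1 / X0) * (H / k) := by field_simp
    _ ≤ (3 * Λ ^ (-(1/2:ℝ))) * (H / k) := mul_le_mul_of_nonneg_right h4 (by positivity)
    _ = (3 * H / k) * Λ ^ (-(1/2:ℝ)) := by ring
    _ ≤ _ := mul_le_mul_of_nonneg_right (by linarith) hL.le

/-- The length of the `k`-th longest loop in the box `[-n, n]²` (`0` if there are fewer than `k`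
loops in the box). -/
noncomputable def kth (n k : ℕ) (F : Set Edg) : ℕ := sSup {ℓ : ℕ | k ≤ cntL n ℓ F}

theorem kth_bdd {n k : ℕ} (hk : 1 ≤ k) (F : Set Edg) : BddAbove {ℓ : ℕ | k ≤ cntL n ℓ F} := by
  refine ⟨4 * (2 * n + 1) ^ 2, ?_⟩
  intro ℓ hℓ
  have h1 : k ≤ cntL n ℓ F := hℓ
  by_contra hcon
  push Not at hcon
  rw [cntL_zero hcon] at h1
  omega

theorem le_kth {n k ℓ : ℕ} (hk : 1 ≤ k) {F : Set Edg} (h : k ≤ cntL n ℓ F) : ℓ ≤ kth n k F :=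
  le_csSup (kth_bdd hk F) h

theorem cntL_kth {n k : ℕ} (hk : 1 ≤ k) {F : Set Edg} (h : 1 ≤ kth n k F) :
    k ≤ cntL n (kth n k F) F := by
  have hne : {ℓ : ℕ | k ≤ cntL n ℓ F}.Nonempty := by
    by_contra hcon
    rw [Set.not_nonempty_iff_eq_empty] at hcon
    unfold kth at h
    rw [hcon] at h
    simp at h
  exact Nat.sSup_mem hne (kth_bdd hk F)

/-- Both bounds for all lengths at once. -/
def Both (n : ℕ) (Λ : ℝ) (F : Set Edg) : Prop := ∀ ℓ : ℕ, 1 ≤ ℓ →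
  (cntL n ℓ F : ℝ) ≤ Λ * ((n:ℝ) ^ 2 * (ℓ:ℝ) ^ (-(8/7:ℝ))) ∧
  ((ℓ:ℝ) ≤ (n:ℝ) ^ (7/4:ℝ) / Λ → (n:ℝ) ^ 2 * (ℓ:ℝ) ^ (-(8/7:ℝ)) / Λ ≤ (cntL n ℓ F : ℝ))

theorem kth_of_both {n : ℕ} {Λ : ℝ} (hn : 1 ≤ n) (hΛ : 1 ≤ Λ) {F : Set Edg} (h : Both n Λ F)
    {k : ℕ} (hk : 1 ≤ k) (hkn : (2 * Λ) ^ 2 * k ≤ (n:ℝ) ^ 2) :
    ((n:ℝ) ^ 2 / k) ^ (7/8:ℝ) / (2 * Λ) ≤ (kth n k F : ℝ) ∧
    (kth n k F : ℝ) ≤ (2 * Λ) * ((n:ℝ) ^ 2 / k) ^ (7/8:ℝ) := by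
  have hnR : (1:ℝ) ≤ n := by exact_mod_cast hn
  have hn0 : (0:ℝ) < n := by linarith
  have hkR : (1:ℝ) ≤ k := by exact_mod_cast hk
  have hk0 : (0:ℝ) < k := by linarith
  have hΛ0 : 0 < Λ := by linarith
  set z : ℝ := ((n:ℝ) ^ 2 / k) ^ (7/8:ℝ) with hz
  have hr0 : 0 < (n:ℝ) ^ 2 / k := by positivity
  have hz0 : 0 < z := by positivity
  constructor
  · -- lower bound
    have hr : (2 * Λ) ^ 2 ≤ (n:ℝ) ^ 2 / k := by rw [le_div_iff₀ hk0]; exact hkn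
    have hz1 : 2 * Λ ≤ z := by
      calc 2 * Λ ≤ (2 * Λ) ^ (7/4:ℝ) := by
            nth_rewrite 1 [← Real.rpow_one (2 * Λ)]
            exact Real.rpow_le_rpow_of_exponent_le (by linarith) (by norm_num)
        _ = ((2 * Λ) ^ 2) ^ (7/8:ℝ) := by
            rw [← Real.rpow_natCast, ← Real.rpow_mul (by positivity)]
            norm_num
        _ ≤ z := Real.rpow_le_rpow (by positivity) hr (by norm_num)
    set ℓ : ℕ := ⌊z / Λ⌋₊ with hℓ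
    have h2 : 2 ≤ z / Λ := by rw [le_div_iff₀ hΛ0]; exact hz1
    have h3 : (ℓ:ℝ) ≤ z / Λ := Nat.floor_le (by positivity)
    have h4 : z / Λ < ℓ + 1 := Nat.lt_floor_add_one _
    have hℓ1R : (1:ℝ) ≤ ℓ := by
      have : 1 ≤ ℓ := Nat.le_floor (by push_cast; linarith)
      exact_mod_cast this
    have hℓ1 : 1 ≤ ℓ := by exact_mod_cast hℓ1R
    have hℓ0 : (0:ℝ) < ℓ := by linarith
    have hzn : z ≤ (n:ℝ) ^ (7/4:ℝ) := by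
      calc z ≤ ((n:ℝ) ^ 2) ^ (7/8:ℝ) :=
            Real.rpow_le_rpow hr0.le (div_le_self (by positivity) hkR) (by norm_num)
        _ = _ := by rw [← Real.rpow_natCast, ← Real.rpow_mul hn0.le]; norm_num
    have h5 : (ℓ:ℝ) ≤ (n:ℝ) ^ (7/4:ℝ) / Λ := h3.trans (div_le_div_of_nonneg_right hzn hΛ0.le)
    have h6 := (h ℓ hℓ1).2 h5
    have h7 : (k:ℝ) ≤ (n:ℝ) ^ 2 * (ℓ:ℝ) ^ (-(8/7:ℝ)) / Λ := by
      have h8 : (z / Λ) ^ (-(8/7:ℝ)) ≤ (ℓ:ℝ) ^ (-(8/7:ℝ)) :=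
        Real.rpow_le_rpow_of_nonpos hℓ0 h3 (by norm_num)
      have h9 : (z / Λ) ^ (-(8/7:ℝ)) = (k:ℝ) / (n:ℝ) ^ 2 * Λ ^ (8/7:ℝ) := by
        rw [Real.div_rpow hz0.le hΛ0.le, hz, ← Real.rpow_mul hr0.le, Real.rpow_neg hΛ0.le,
          div_inv_eq_mul, show (7/8:ℝ) * -(8/7) = -1 by norm_num, Real.rpow_neg_one, inv_div]
      have h10 : Λ ≤ Λ ^ (8/7:ℝ) := by
        nth_rewrite 1 [← Real.rpow_one Λ]
        exact Real.rpow_le_rpow_of_exponent_le hΛ (by norm_num)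
      rw [le_div_iff₀ hΛ0]
      calc (k:ℝ) * Λ ≤ k * Λ ^ (8/7:ℝ) := mul_le_mul_of_nonneg_left h10 hk0.le
        _ = (n:ℝ) ^ 2 * ((k:ℝ) / (n:ℝ) ^ 2 * Λ ^ (8/7:ℝ)) := by field_simp
        _ ≤ _ := by
            rw [← h9]
            exact mul_le_mul_of_nonneg_left h8 (by positivity)
    have h8 : k ≤ cntL n ℓ F := by exact_mod_cast h7.trans h6
    have h9 : (ℓ:ℝ) ≤ kth n k F := by exact_mod_cast le_kth hk h8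
    refine le_trans ?_ h9
    have h10 : z / (2 * Λ) = z / Λ / 2 := by field_simp
    rw [h10]
    linarith
  · rcases Nat.eq_zero_or_pos (kth n k F) with h0 | h0
    · rw [h0, Nat.cast_zero]
      positivity
    · have hℓ1R : (1:ℝ) ≤ (kth n k F : ℝ) := by exact_mod_cast h0
      set ℓ : ℕ := kth n k F with hℓ
      have hℓ0 : (0:ℝ) < ℓ := by linarith
      have h1 := (h ℓ h0).1
      have h2 : (k:ℝ) ≤ cntL n ℓ F := by exact_mod_cast cntL_kth hk h0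
      have h3 : (k:ℝ) ≤ Λ * ((n:ℝ) ^ 2 * (ℓ:ℝ) ^ (-(8/7:ℝ))) := h2.trans h1
      have h4 : (ℓ:ℝ) ^ (8/7:ℝ) ≤ Λ * ((n:ℝ) ^ 2 / k) := by
        rw [Real.rpow_neg hℓ0.le] at h3
        have h5 : 0 < (ℓ:ℝ) ^ (8/7:ℝ) := by positivity
        have h6 : (k:ℝ) * (ℓ:ℝ) ^ (8/7:ℝ) ≤ Λ * (n:ℝ) ^ 2 := by
          calc (k:ℝ) * (ℓ:ℝ) ^ (8/7:ℝ) ≤
                Λ * ((n:ℝ) ^ 2 * ((ℓ:ℝ) ^ (8/7:ℝ))⁻¹) * (ℓ:ℝ) ^ (8/7:ℝ) :=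
                mul_le_mul_of_nonneg_right h3 h5.le
            _ = _ := by field_simp
        rw [mul_div_assoc', le_div_iff₀ hk0]
        linarith
      have h5 : (ℓ:ℝ) ≤ (Λ * ((n:ℝ) ^ 2 / k)) ^ (7/8:ℝ) := by
        have h6 := Real.rpow_le_rpow (by positivity) h4 (by norm_num : (0:ℝ) ≤ 7/8)
        rw [← Real.rpow_mul hℓ0.le] at h6
        norm_num at h6
        convert h6 using 2
      rw [Real.mul_rpow hΛ0.le hr0.le] at h5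
      refine h5.trans (mul_le_mul_of_nonneg_right ?_ hz0.le)
      calc Λ ^ (7/8:ℝ) ≤ Λ ^ (1:ℝ) := Real.rpow_le_rpow_of_exponent_le hΛ (by norm_num)
        _ = Λ := Real.rpow_one _
        _ ≤ 2 * Λ := by linarith

theorem compl_bound {A : Set (sqLattice.edgeSet → Bool)} {B : ℝ} (h : μ.real Aᶜ ≤ B) :
    1 - B ≤ μ.real A := by
  have h1 : (1:ℝ) = μ.real (A ∪ Aᶜ) := by rw [Set.union_compl_self]; simp
  have h2 := measureReal_union_le (μ := μ) A Aᶜ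
  linarith

/-- Zipf's law. -/
theorem zipf_main : ∃ c K : ℝ, 0 < c ∧ 0 < K ∧
    (∀ n ℓ : ℕ, 1 ≤ n → 1 ≤ ℓ → ∫ ω, (cntL n ℓ (opn ω) : ℝ) ∂(bondLaw hlf) ≤
      K * ((n:ℝ) ^ 2 * (ℓ:ℝ) ^ (-(8/7:ℝ)))) ∧
    (∀ n ℓ : ℕ, 1 ≤ ℓ → (ℓ:ℝ) ≤ c * (n:ℝ) ^ (7/4:ℝ) →
      c * ((n:ℝ) ^ 2 * (ℓ:ℝ) ^ (-(8/7:ℝ))) ≤ ∫ ω, (cntL n ℓ (opn ω) : ℝ) ∂(bondLaw hlf)) ∧
    (∀ (Λ : ℝ) (n : ℕ), 1 ≤ Λ → 1 ≤ n →
      1 - K * Λ ^ (-(1/2:ℝ)) ≤ (bondLaw hlf).real {ω | ∀ ℓ : ℕ, 1 ≤ ℓ →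
        (cntL n ℓ (opn ω) : ℝ) ≤ Λ * ((n:ℝ) ^ 2 * (ℓ:ℝ) ^ (-(8/7:ℝ))) ∧
        ((ℓ:ℝ) ≤ (n:ℝ) ^ (7/4:ℝ) / Λ →
          (n:ℝ) ^ 2 * (ℓ:ℝ) ^ (-(8/7:ℝ)) / Λ ≤ (cntL n ℓ (opn ω) : ℝ))}) ∧
    (∀ (Λ : ℝ) (n : ℕ), 1 ≤ Λ → 1 ≤ n →
      1 - K * Λ ^ (-(1/2:ℝ)) ≤ (bondLaw hlf).real {ω | ∀ k : ℕ, 1 ≤ k → Λ ^ 2 * k ≤ (n:ℝ) ^ 2 →
        ((n:ℝ) ^ 2 / k) ^ (7/8:ℝ) / Λ ≤ (kth n k (opn ω) : ℝ) ∧
        (kth n k (opn ω) : ℝ) ≤ Λ * ((n:ℝ) ^ 2 / k) ^ (7/8:ℝ)}) := by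
  obtain ⟨⟨c0, hc0, hL⟩, ⟨C0, hC0, hU⟩⟩ := inputs
  obtain ⟨k7, K7, hk7, hK7, h7, h8⟩ := count_laws hc0 hC0 hL hU
  obtain ⟨K1, hK1, hup⟩ := zipf_up hC0 hU hK7 h7
  obtain ⟨K2, hK2, hlow⟩ := zipf_low hk7 (fun n ℓ h1 h2 => (h8 n ℓ h1 h2).2)
  set K : ℝ := K7 + 2 * (K1 + K2) + 2 with hK
  have hboth : ∀ (Λ : ℝ) (n : ℕ), 1 ≤ Λ → 1 ≤ n →
      μ.real {ω | Both n Λ (opn ω)}ᶜ ≤ (K1 + K2) * Λ ^ (-(1/2:ℝ)) := by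
    intro Λ n hΛ hn
    have h1 := hup Λ n hΛ hn
    have h2 := hlow Λ n hΛ hn
    have h3 : {ω : sqLattice.edgeSet → Bool | Both n Λ (opn ω)}ᶜ ⊆
        {ω | ¬ ∀ ℓ : ℕ, 1 ≤ ℓ →
          (cntL n ℓ (opn ω) : ℝ) ≤ Λ * ((n:ℝ) ^ 2 * (ℓ:ℝ) ^ (-(8/7:ℝ)))} ∪
        {ω | ¬ ∀ ℓ : ℕ, 1 ≤ ℓ → (ℓ:ℝ) ≤ (n:ℝ) ^ (7/4:ℝ) / Λ →
          (n:ℝ) ^ 2 * (ℓ:ℝ) ^ (-(8/7:ℝ)) / Λ ≤ (cntL n ℓ (opn ω) : ℝ)} := by
      intro ω hω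
      by_contra hcon
      rw [Set.mem_union, not_or] at hcon
      obtain ⟨h4, h5⟩ := hcon
      have h4' := not_not.1 h4
      have h5' := not_not.1 h5
      exact hω fun ℓ hℓ => ⟨h4' ℓ hℓ, h5' ℓ hℓ⟩
    refine (measureReal_mono h3).trans ((measureReal_union_le _ _).trans ?_)
    calc _ ≤ K1 * Λ ^ (-(1/2:ℝ)) + K2 * Λ ^ (-(1/2:ℝ)) := add_le_add h1 h2
      _ = _ := by ring
  refine ⟨k7, K, hk7, by positivity, ?_, fun n ℓ h1 h2 => (h8 n ℓ h1 h2).1, ?_, ?_⟩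
  · intro n ℓ hn hℓ
    refine (h7 n ℓ hn hℓ).trans (mul_le_mul_of_nonneg_right (by linarith) (by positivity))
  · intro Λ n hΛ hn
    apply compl_bound
    refine (hboth Λ n hΛ hn).trans ?_
    apply mul_le_mul_of_nonneg_right _ (by positivity)
    linarith
  · intro Λ n hΛ hn
    have hΛ0 : 0 < Λ := by linarith
    rcases le_total Λ 2 with hΛ2 | hΛ2
    · have h1 : 1 ≤ K * Λ ^ (-(1/2:ℝ)) := triv_bound hΛ hΛ2 (by linarith)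
      have h2 : (0:ℝ) ≤ (bondLaw hlf).real {ω | ∀ k : ℕ, 1 ≤ k → Λ ^ 2 * k ≤ (n:ℝ) ^ 2 →
        ((n:ℝ) ^ 2 / k) ^ (7/8:ℝ) / Λ ≤ (kth n k (opn ω) : ℝ) ∧
        (kth n k (opn ω) : ℝ) ≤ Λ * ((n:ℝ) ^ 2 / k) ^ (7/8:ℝ)} := measureReal_nonneg
      linarith
    · have h1 := hboth (Λ / 2) n (by linarith) hn
      have h2 : 1 - (K1 + K2) * (Λ / 2) ^ (-(1/2:ℝ)) ≤ μ.real {ω | Both n (Λ / 2) (opn ω)} :=
        compl_bound h1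
      have h3 : (Λ / 2) ^ (-(1/2:ℝ)) ≤ 2 * Λ ^ (-(1/2:ℝ)) := by
        rw [Real.div_rpow hΛ0.le (by norm_num), Real.rpow_neg (by norm_num : (0:ℝ) ≤ 2),
          div_inv_eq_mul, mul_comm]
        apply mul_le_mul_of_nonneg_right _ (by positivity)
        calc (2:ℝ) ^ (1/2:ℝ) ≤ 2 ^ (1:ℝ) :=
              Real.rpow_le_rpow_of_exponent_le (by norm_num) (by norm_num)
          _ = 2 := Real.rpow_one 2
      have h4 : μ.real {ω | Both n (Λ / 2) (opn ω)} ≤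
          (bondLaw hlf).real {ω | ∀ k : ℕ, 1 ≤ k → Λ ^ 2 * k ≤ (n:ℝ) ^ 2 →
          ((n:ℝ) ^ 2 / k) ^ (7/8:ℝ) / Λ ≤ (kth n k (opn ω) : ℝ) ∧
          (kth n k (opn ω) : ℝ) ≤ Λ * ((n:ℝ) ^ 2 / k) ^ (7/8:ℝ)} := by
        refine measureReal_mono (fun ω hω k hk hkn => ?_)
        have h5 := kth_of_both hn (by linarith) hω hk (by
          rw [show 2 * (Λ / 2) = Λ by ring]; exact hkn)
        rw [show 2 * (Λ / 2) = Λ by ring] at h5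
        exact h5
      have h5 : (K1 + K2) * (Λ / 2) ^ (-(1/2:ℝ)) ≤ K * Λ ^ (-(1/2:ℝ)) := by
        have h6 : 0 < Λ ^ (-(1/2:ℝ)) := by positivity
        calc (K1 + K2) * (Λ / 2) ^ (-(1/2:ℝ)) ≤ (K1 + K2) * (2 * Λ ^ (-(1/2:ℝ))) :=
              mul_le_mul_of_nonneg_left h3 (by positivity)
          _ = 2 * (K1 + K2) * Λ ^ (-(1/2:ℝ)) := by ring
          _ ≤ _ := mul_le_mul_of_nonneg_right (by linarith) h6.le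
      linarith

end Pool.Agent.Y993.LL
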